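import Pool.Agent.J4.H24.DG.Defs

/-!
# Boolean adjacency of the labels, and the hypotheses for the incidence relation of a graph

Port of `Y815/GI/Red.lean` and `J4/H79/GI/BallRed.lean`.
-/

set_option autoImplicit false

namespace Pool.Agent.J4.H24.DG

open Pool.Agent.NPC Pool.Agent.NPC.R671 Pool.Agent.W125.Dim Pool.Agent.Y815.GI
  Pool.Agent.J4.H79.GI Pool.Agent.W125.Dim.Vtx

/-- the relation of levels -/
def crelB2 (l k : ℕ) (s : Bool) : Bool :=
  decide (l % 2 = 0) && ((s && (decide (k = l + 1) || decide (l = k + 1))) ||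
    ((decide (k % 6 = 3) && decide (l + 3 < k)) ||
      (decide (k % 6 = 5) && (decide (k = l + 5) || (decide (l = k + 3) || decide (l = k + 5))))))

/-- the order -/
def relB2 (R : ℕ) (a b : Lb) : Bool :=
  (decide (a.1 = 2) && (decide (b.1 = 2) && crelB2 a.2.1 b.2.1 (decide (a.2.2 = b.2.2)))) ||
  ((decide (a.1 = 2) && (decide (b.1 = 0) && (decide (a.2.1 = 0) && decide (a.2.2.1 = b.2.2.1)))) ||
  (decide (a.1 = 1) && (decide (b.1 = 2) && (decide (b.2.1 = 6 * R + 1) &&
    decide (a.2.2.2 = b.2.2.2)))))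

/-- adjacency in the bipartite graph -/
def adB2 (R : ℕ) (a b : Lb) : Bool := relB2 R a b || relB2 R b a

/-- adjacency of labels -/
def ad2 (R : ℕ) (a b : Lb) : Bool :=
  !(decide (a = b)) && (((lowB a && lowB b) || (!(lowB a) && !(lowB b))) || adB2 R a b)

theorem adB2_symm (R : ℕ) (a b : Lb) : adB2 R a b = adB2 R b a := Bool.or_comm _ _

theorem ad2_symm (R : ℕ) (a b : Lb) : ad2 R a b = ad2 R b a := by
  unfold ad2
  rw [adB2_symm, Bool.and_comm (lowB a), Bool.and_comm (!(lowB a))]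
  congr 2
  exact decide_eq_decide.2 eq_comm

theorem ad2_irrefl (R : ℕ) (a : Lb) : ad2 R a a = false := by
  simp [ad2]

section

variable {n : ℕ} (X : SimpleGraph (Fin n)) (R : ℕ)

theorem relB2_code (a b : Vtx (AX X) R) :
    relB2 R (code X R a) (code X R b) = true ↔ Rel2 a b := by
  match a, b with
  | Vtx.u x, Vtx.u y =>
    show _ ↔ False
    simp [relB2, code]
  | Vtx.u x, Vtx.w q =>
    show _ ↔ False
    simp [relB2, code]
  | Vtx.u x, Vtx.c k f =>
    show _ ↔ False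
    simp [relB2, code]
  | Vtx.w p, Vtx.u y =>
    show _ ↔ False
    simp [relB2, code]
  | Vtx.w p, Vtx.w q =>
    show _ ↔ False
    simp [relB2, code]
  | Vtx.c l e, Vtx.w q =>
    show _ ↔ False
    simp [relB2, code]
  | Vtx.w p, Vtx.c k f =>
    show _ ↔ (k : ℕ) = 6 * R + 1 ∧ f.1.2 = p
    have h : ((p.1 : ℕ) = f.1.2.1 ∧ (p.2 : ℕ) = f.1.2.2) ↔ f.1.2 = p := by
      constructor
      · rintro ⟨h1, h2⟩
        exact Prod.ext (Fin.ext h1.symm) (Fin.ext h2.symm)
      · rintro h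
        rw [h]
        exact ⟨rfl, rfl⟩
    simp only [relB2, code]
    simp [h]
  | Vtx.c l e, Vtx.u y =>
    show _ ↔ (l : ℕ) = 0 ∧ e.1.1 = y
    have h : (e.1.1 : ℕ) = y ↔ e.1.1 = y := Fin.ext_iff.symm
    simp only [relB2, code]
    simp [h]
  | Vtx.c l e, Vtx.c k f =>
    show _ ↔ crel2 l k (e = f)
    have h : (((e.1.1 : ℕ), (e.1.2.1 : ℕ), (e.1.2.2 : ℕ)) = ((f.1.1 : ℕ), (f.1.2.1 : ℕ),
        (f.1.2.2 : ℕ))) ↔ e = f := by
      constructor
      · intro h
        simp only [Prod.mk.injEq] at h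
        exact Subtype.ext (Prod.ext (Fin.ext h.1) (Prod.ext (Fin.ext h.2.1) (Fin.ext h.2.2)))
      · rintro rfl; rfl
    simp only [relB2, crelB2, code, crel2]
    simp only [h]
    simp

theorem adB2_code (a b : Vtx (AX X) R) :
    adB2 R (code X R a) (code X R b) = true ↔ (XG2 (AX X) R).Adj a b := by
  unfold adB2
  rw [Bool.or_eq_true, relB2_code, relB2_code]
  exact Iff.rfl

theorem ad2_code' (a b : Vtx (AX X) R) :
    ad2 R (code X R a) (code X R b) = true ↔ (BG2 (AX X) R).Adj a b := by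
  show _ ↔ (a ≠ b ∧ ((Low a ↔ Low b) ∨ (XG2 (AX X) R).Adj a b))
  unfold ad2
  rw [Bool.and_eq_true, Bool.or_eq_true, Bool.or_eq_true, Bool.and_eq_true, Bool.and_eq_true,
    adB2_code, lowB_code, lowB_code, Bool.not_eq_true', Bool.not_eq_true', Bool.not_eq_true',
    decide_eq_false_iff_not, (code_inj X R).eq_iff]
  have h1 : lowB (code X R a) = false ↔ ¬ Low a := by
    rw [← lowB_code X R a, Bool.not_eq_true]
  have h2 : lowB (code X R b) = false ↔ ¬ Low b := by
    rw [← lowB_code X R b, Bool.not_eq_true]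
  rw [h1, h2]
  tauto

end

theorem ad2_code {n : ℕ} (X : SimpleGraph (Fin n)) (R : ℕ) (a b : Vtx (AX X) R) :
    ad2 R (code X R a) (code X R b) = true ↔ (BG2 (AX X) R).Adj a b := ad2_code' X R a b

/-! ### Polynomial time -/

@[fun_prop]
theorem poly_crelB2 {α : Type} [TEnc α] {l k : α → ℕ} {s : α → Bool} (hl : Poly l) (hk : Poly k)
    (hs : Poly s) : Poly (fun a => crelB2 (l a) (k a) (s a)) := by
  unfold crelB2
  fun_prop

@[fun_prop]
theorem poly_relB2 {α : Type} [TEnc α] {R : α → ℕ} {a b : α → Lb} (hR : Poly R) (ha : Poly a)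
    (hb : Poly b) : Poly (fun x => relB2 (R x) (a x) (b x)) := by
  unfold relB2
  fun_prop

@[fun_prop]
theorem poly_adB2 {α : Type} [TEnc α] {R : α → ℕ} {a b : α → Lb} (hR : Poly R) (ha : Poly a)
    (hb : Poly b) : Poly (fun x => adB2 (R x) (a x) (b x)) := by
  unfold adB2
  fun_prop

@[fun_prop]
theorem poly_ad2 {α : Type} [TEnc α] {R : α → ℕ} {a b : α → Lb} (hR : Poly R) (ha : Poly a)
    (hb : Poly b) : Poly (fun x => ad2 (R x) (a x) (b x)) := by
  unfold ad2
  fun_prop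

/-! ### The hypotheses -/

theorem hyp_AX {n : ℕ} (hn : 2 ≤ n) (X : SimpleGraph (Fin n)) : Hyp (AX X) where
  three := three_AX hn X
  left := fun x => ⟨(x, x), Or.inl rfl⟩
  right := fun p => ⟨p.1, Or.inl rfl⟩
  two := by
    rintro p ⟨x₁, x₂, x₃, h12, h13, h23, h1, h2, h3⟩
    have key : ∀ x, AX X x p → x = p.1 ∨ x = p.2 := by
      rintro x (h | h)
      · exact Or.inl h
      · exact Or.inr h.1
    rcases key _ h1 with e1 | e1 <;> rcases key _ h2 with e2 | e2 <;> rcases key _ h3 with e3 | e3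
    · exact h12 (e1.trans e2.symm)
    · exact h12 (e1.trans e2.symm)
    · exact h13 (e1.trans e3.symm)
    · exact h23 (e2.trans e3.symm)
    · exact h23 (e2.trans e3.symm)
    · exact h13 (e1.trans e3.symm)
    · exact h12 (e1.trans e2.symm)
    · exact h12 (e1.trans e2.symm)
  left_ne := by
    intro x
    have : Nontrivial (Fin n) := Fin.nontrivial_iff_two_le.2 hn
    obtain ⟨x', hx'⟩ := exists_ne x
    exact ⟨⟨(x', (x', x')), Or.inl rfl⟩, hx'⟩
  right_ne := by
    intro p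
    have : Nontrivial (Fin n) := Fin.nontrivial_iff_two_le.2 hn
    obtain ⟨x, hx⟩ := exists_ne p.1
    exact ⟨⟨(x, (x, x)), Or.inl rfl⟩, fun h => hx (congrArg Prod.fst h)⟩

end Pool.Agent.J4.H24.DG
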