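import Pool.Agent.J4.H24.DG.Defs3

/-!
# Boolean adjacency of the labels, second version

Port of `Ad.lean`.
-/

set_option autoImplicit false

namespace Pool.Agent.J4.H24.DG

open Pool.Agent.NPC Pool.Agent.NPC.R671 Pool.Agent.W125.Dim Pool.Agent.Y815.GI
  Pool.Agent.J4.H79.GI Pool.Agent.W125.Dim.Vtx

namespace Ad3Aux

/-- the joins -/
def J3B (R l k : ℕ) : Bool :=
  (decide (k % 6 = 1) && (!(decide (k = 6 * R + 1)) &&
    ((!(decide (l % 6 = 0)) && decide (k + 3 < l)) || (decide (l % 6 = 0) && decide (l + 1 < k))))) ||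
  ((decide (k % 6 = 3) && (!(decide (l % 6 = 0)) && decide (l + 1 < k))) ||
  (decide (k % 6 = 5) &&
    ((!(decide (l % 6 = 0)) && decide (k < l)) || (decide (l % 6 = 0) && decide (l < k)))))

/-- the relation of levels -/
def crelB3 (R l k : ℕ) (s : Bool) : Bool :=
  decide (l % 2 = 0) && ((s && (decide (k = l + 1) || decide (l = k + 1))) || J3B R l k)

/-- the order -/
def relB3 (R : ℕ) (a b : Lb) : Bool :=
  (decide (a.1 = 2) && (decide (b.1 = 2) && crelB3 R a.2.1 b.2.1 (decide (a.2.2 = b.2.2)))) ||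
  ((decide (a.1 = 2) && (decide (b.1 = 0) && (decide (a.2.1 = 0) && decide (a.2.2.1 = b.2.2.1)))) ||
  (decide (a.1 = 1) && (decide (b.1 = 2) && (decide (b.2.1 = 6 * R + 1) &&
    decide (a.2.2.2 = b.2.2.2)))))

/-- adjacency in the bipartite graph -/
def adB3 (R : ℕ) (a b : Lb) : Bool := relB3 R a b || relB3 R b a

end Ad3Aux

open Ad3Aux

/-- adjacency of labels -/
def ad3 (R : ℕ) (a b : Lb) : Bool :=
  !(decide (a = b)) && (((lowB a && lowB b) || (!(lowB a) && !(lowB b))) || adB3 R a b)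

theorem Ad3Aux.adB3_symm (R : ℕ) (a b : Lb) : adB3 R a b = adB3 R b a := Bool.or_comm _ _

theorem ad3_symm (R : ℕ) (a b : Lb) : ad3 R a b = ad3 R b a := by
  unfold ad3
  rw [adB3_symm, Bool.and_comm (lowB a), Bool.and_comm (!(lowB a))]
  congr 2
  exact decide_eq_decide.2 eq_comm

theorem ad3_irrefl (R : ℕ) (a : Lb) : ad3 R a a = false := by
  simp [ad3]

namespace Ad3Aux

section

variable {n : ℕ} (X : SimpleGraph (Fin n)) (R : ℕ)

theorem relB3_code (a b : Vtx (AX X) R) :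
    relB3 R (code X R a) (code X R b) = true ↔ Rel3 a b := by
  match a, b with
  | Vtx.u x, Vtx.u y =>
    show _ ↔ False
    simp [relB3, code]
  | Vtx.u x, Vtx.w q =>
    show _ ↔ False
    simp [relB3, code]
  | Vtx.u x, Vtx.c k f =>
    show _ ↔ False
    simp [relB3, code]
  | Vtx.w p, Vtx.u y =>
    show _ ↔ False
    simp [relB3, code]
  | Vtx.w p, Vtx.w q =>
    show _ ↔ False
    simp [relB3, code]
  | Vtx.c l e, Vtx.w q =>
    show _ ↔ False
    simp [relB3, code]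
  | Vtx.w p, Vtx.c k f =>
    show _ ↔ (k : ℕ) = 6 * R + 1 ∧ f.1.2 = p
    have h : ((p.1 : ℕ) = f.1.2.1 ∧ (p.2 : ℕ) = f.1.2.2) ↔ f.1.2 = p := by
      constructor
      · rintro ⟨h1, h2⟩
        exact Prod.ext (Fin.ext h1.symm) (Fin.ext h2.symm)
      · rintro h
        rw [h]
        exact ⟨rfl, rfl⟩
    simp only [relB3, code]
    simp [h]
  | Vtx.c l e, Vtx.u y =>
    show _ ↔ (l : ℕ) = 0 ∧ e.1.1 = y
    have h : (e.1.1 : ℕ) = y ↔ e.1.1 = y := Fin.ext_iff.symm
    simp only [relB3, code]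
    simp [h]
  | Vtx.c l e, Vtx.c k f =>
    show _ ↔ crel3 R l k (e = f)
    have h : (((e.1.1 : ℕ), (e.1.2.1 : ℕ), (e.1.2.2 : ℕ)) = ((f.1.1 : ℕ), (f.1.2.1 : ℕ),
        (f.1.2.2 : ℕ))) ↔ e = f := by
      constructor
      · intro h
        simp only [Prod.mk.injEq] at h
        exact Subtype.ext (Prod.ext (Fin.ext h.1) (Prod.ext (Fin.ext h.2.1) (Fin.ext h.2.2)))
      · rintro rfl; rfl
    simp only [relB3, crelB3, J3B, code, crel3, J3]
    simp only [h]
    simp

theorem adB3_code (a b : Vtx (AX X) R) :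
    adB3 R (code X R a) (code X R b) = true ↔ (XG3 (AX X) R).Adj a b := by
  unfold adB3
  rw [Bool.or_eq_true, relB3_code, relB3_code]
  exact Iff.rfl

theorem ad3_code' (a b : Vtx (AX X) R) :
    ad3 R (code X R a) (code X R b) = true ↔ (BG3 (AX X) R).Adj a b := by
  show _ ↔ (a ≠ b ∧ ((Low a ↔ Low b) ∨ (XG3 (AX X) R).Adj a b))
  unfold ad3
  rw [Bool.and_eq_true, Bool.or_eq_true, Bool.or_eq_true, Bool.and_eq_true, Bool.and_eq_true,
    adB3_code, lowB_code, lowB_code, Bool.not_eq_true', Bool.not_eq_true', Bool.not_eq_true',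
    decide_eq_false_iff_not, (code_inj X R).eq_iff]
  have h1 : lowB (code X R a) = false ↔ ¬ Low a := by
    rw [← lowB_code X R a, Bool.not_eq_true]
  have h2 : lowB (code X R b) = false ↔ ¬ Low b := by
    rw [← lowB_code X R b, Bool.not_eq_true]
  rw [h1, h2]
  tauto

end

end Ad3Aux

theorem ad3_code {n : ℕ} (X : SimpleGraph (Fin n)) (R : ℕ) (a b : Vtx (AX X) R) :
    ad3 R (code X R a) (code X R b) = true ↔ (BG3 (AX X) R).Adj a b := ad3_code' X R a b

/-! ### Polynomial time -/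

@[fun_prop]
theorem Ad3Aux.poly_J3B {α : Type} [TEnc α] {R l k : α → ℕ} (hR : Poly R) (hl : Poly l)
    (hk : Poly k) : Poly (fun a => J3B (R a) (l a) (k a)) := by
  unfold J3B
  fun_prop

@[fun_prop]
theorem Ad3Aux.poly_crelB3 {α : Type} [TEnc α] {R l k : α → ℕ} {s : α → Bool} (hR : Poly R)
    (hl : Poly l) (hk : Poly k) (hs : Poly s) :
    Poly (fun a => crelB3 (R a) (l a) (k a) (s a)) := by
  unfold crelB3
  fun_prop

@[fun_prop]
theorem Ad3Aux.poly_relB3 {α : Type} [TEnc α] {R : α → ℕ} {a b : α → Lb} (hR : Poly R)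
    (ha : Poly a) (hb : Poly b) : Poly (fun x => relB3 (R x) (a x) (b x)) := by
  unfold relB3
  fun_prop

@[fun_prop]
theorem Ad3Aux.poly_adB3 {α : Type} [TEnc α] {R : α → ℕ} {a b : α → Lb} (hR : Poly R)
    (ha : Poly a) (hb : Poly b) : Poly (fun x => adB3 (R x) (a x) (b x)) := by
  unfold adB3
  fun_prop

@[fun_prop]
theorem poly_ad3 {α : Type} [TEnc α] {R : α → ℕ} {a b : α → Lb} (hR : Poly R) (ha : Poly a)
    (hb : Poly b) : Poly (fun x => ad3 (R x) (a x) (b x)) := by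
  unfold ad3
  fun_prop

end Pool.Agent.J4.H24.DG
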