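import Pool.Agent.J4.H24.DG.Geo0

/-!
# The disks of level `6h+1`
-/

set_option autoImplicit false

namespace Pool.Agent.J4.H24.DG

open Pool.Agent.NPC Pool.Agent.NPC.R671 Pool.Agent.W125.Dim Pool.Agent.Y815.GI
  Pool.Agent.J4.H79.GI Pool.Agent.W125.Dim.Vtx

variable {U W : Type} {A : U → W → Prop} {R : ℕ} (N : Num U W R)

namespace B1Aux

theorem inside_iff (a : Vtx A R) (h : ℕ) (hh : h < R) (f : Inc A) :
    Inside N a (c ⟨6 * h + 1, by omega⟩ f) ↔
      (sx N a - ((h : ℝ) * wd N - (wd N - 1) / 2)) ^ 2 + (sy N a - hP N h f) ^ 2 ≤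
        ((wd N - 1) / 2) ^ 2 + 1 / 8 := by
  unfold Inside
  rw [sx_1 N h f (by omega) (by omega), sy_1 N h f (by omega), ss_1 N h f (by omega) (by omega)]

/-- far to the right -/
theorem far_right (hR : 2 ≤ R) (a : Vtx A R) (h : ℕ) (hh : h < R) (f : Inc A)
    (hx : (h : ℝ) * wd N + 1 / 2 ≤ sx N a) : ¬ Inside N a (c ⟨6 * h + 1, by omega⟩ f) := by
  rw [inside_iff N a h hh f]
  have hw := wd_ge N hR
  refine out_of (δ := 1 / 2) (by linarith) (by norm_num) ?_ (by linarith)
  refine le_trans ?_ (le_abs_self _)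
  linarith

/-- far to the left -/
theorem far_left (hR : 2 ≤ R) (a : Vtx A R) (h : ℕ) (hh : h < R) (f : Inc A)
    (hx : sx N a ≤ (h : ℝ) * wd N - wd N) : ¬ Inside N a (c ⟨6 * h + 1, by omega⟩ f) := by
  rw [inside_iff N a h hh f]
  have hw := wd_ge N hR
  refine out_of (δ := 1 / 2) (by linarith) (by norm_num) ?_ (by linarith)
  refine le_trans ?_ (neg_le_abs _)
  linarith

end B1Aux

open B1Aux in
theorem inside_b1 (hR : 2 ≤ R) (a : Vtx A R) (ha : Low a) (h : ℕ) (hh : h < R) (f : Inc A) :
    Inside N a (c ⟨6 * h + 1, by omega⟩ f) ↔ Rel2 a (c ⟨6 * h + 1, by omega⟩ f) := by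
  have hw := wd_ge N hR
  have het := et_le N hR
  have het0 := et_pos N hR
  rcases low_cases ha with ⟨y, rfl⟩ | ⟨g, hg, e, rfl⟩ | ⟨g, hg, e, rfl⟩ | ⟨g, hg, e, rfl⟩
  · -- w y
    refine iff_of_false (far_right N hR _ h hh f ?_) ?_
    · show (h : ℝ) * wd N + 1 / 2 ≤ R * wd N + (N.BU : ℝ) ^ 2 / (8 * Lh N ^ 2)
      have h1 := mul_lt_wd N hR hh
      have h2 : 0 ≤ (N.BU : ℝ) ^ 2 / (8 * Lh N ^ 2) := by positivity
      linarith
    · rintro ⟨h1, -⟩
      have h2 : 6 * h + 1 = 6 * R + 1 := h1
      omega
  · -- level 6g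
    rcases lt_trichotomy g h with hgh | rfl | hgh
    · refine iff_of_false (far_left N hR _ h hh f ?_) ?_
      · rw [sx_0 N g e (by omega)]
        have h1 := mul_lt_wd N hR hgh
        linarith
      · intro h1
        have h2 : crel2 (6 * g) (6 * h + 1) (e = f) := h1
        unfold crel2 at h2
        omega
    · rw [inside_iff N _ g hh f, sx_0 N g e (by omega), sy_0 N g e (by omega),
        eq_of (by ring)]
      constructor
      · intro h1
        have hef : e = f := by
          by_contra hne
          have := hP_sq N g hne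
          linarith
        show crel2 (6 * g) (6 * g + 1) (e = f)
        exact ⟨by omega, Or.inl ⟨hef, Or.inl rfl⟩⟩
      · intro h1
        have h2 : crel2 (6 * g) (6 * g + 1) (e = f) := h1
        have hef : e = f := by
          rcases h2 with ⟨h0, ⟨h3, -⟩ | ⟨h3, -⟩ | ⟨h3, -⟩⟩
          · exact h3
          · omega
          · omega
        subst hef
        rw [sub_self]
        norm_num
    · refine iff_of_false (far_right N hR _ h hh f ?_) ?_
      · rw [sx_0 N g e (by omega)]
        have h1 := mul_lt_wd N hR hgh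
        linarith
      · intro h1
        have h2 : crel2 (6 * g) (6 * h + 1) (e = f) := h1
        unfold crel2 at h2
        omega
  · -- level 6g+2
    have hx := sx_2' N g e hR (by omega)
    rcases lt_trichotomy g h with hgh | rfl | hgh
    · refine iff_of_false (far_left N hR _ h hh f ?_) ?_
      · have h1 := mul_lt_wd N hR hgh
        linarith [hx.2]
      · intro h1
        have h2 : crel2 (6 * g + 2) (6 * h + 1) (e = f) := h1
        unfold crel2 at h2
        omega
    · rw [inside_iff N _ g hh f, sy_2 N g e (by omega)]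
      obtain ⟨X, hX⟩ : ∃ X, X = sx N (c ⟨6 * g + 2, by omega⟩ e : Vtx A R) := ⟨_, rfl⟩
      rw [← hX] at hx ⊢
      have hrel : Rel2 (c ⟨6 * g + 2, by omega⟩ e : Vtx A R) (c ⟨6 * g + 1, by omega⟩ f) ↔
          e = f := by
        show crel2 (6 * g + 2) (6 * g + 1) (e = f) ↔ e = f
        unfold crel2
        constructor
        · rintro ⟨h0, ⟨h3, -⟩ | ⟨h3, -⟩ | ⟨h3, -⟩⟩
          · exact h3
          · omega
          · omega
        · intro h3
          exact ⟨by omega, Or.inl ⟨h3, Or.inr rfl⟩⟩
      rw [hrel]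
      constructor
      · intro h1
        by_contra hne
        have h2 := hP_sq N g hne
        have h3 : ((wd N - 1) / 2) ^ 2 ≤ (X - ((g : ℝ) * wd N - (wd N - 1) / 2)) ^ 2 := by
          rw [← sq_abs (X - ((g : ℝ) * wd N - (wd N - 1) / 2))]
          refine pow_le_pow_left₀ (by linarith) ?_ 2
          refine le_trans ?_ (neg_le_abs _)
          linarith [hx.2]
        linarith
      · intro hef
        subst hef
        rw [sub_self]
        have h3 : |X - ((g : ℝ) * wd N - (wd N - 1) / 2)| ≤ (wd N - 1) / 2 + et N := by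
          rw [abs_le]
          constructor
          · linarith [hx.1]
          · linarith [hx.2]
        have h4 : (X - ((g : ℝ) * wd N - (wd N - 1) / 2)) ^ 2 ≤ ((wd N - 1) / 2 + et N) ^ 2 := by
          rw [← sq_abs (X - ((g : ℝ) * wd N - (wd N - 1) / 2))]
          exact pow_le_pow_left₀ (abs_nonneg _) h3 2
        have h5 : wd N * et N ≤ 1 / 24 := by
          have h6 := cb_et N hR
          have h7 := mul_le_mul_of_nonneg_right (cb_ge N hR) het0.le
          linarith
        have h6 : et N ^ 2 ≤ 1 / 1000 := by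
          have : et N * et N ≤ 1 / 1000 * 1 := mul_le_mul het (by linarith) het0.le (by norm_num)
          linarith [sq (et N)]
        have h7 : ((wd N - 1) / 2 + et N) ^ 2 =
            ((wd N - 1) / 2) ^ 2 + (wd N * et N - et N) + et N ^ 2 := by ring
        linarith
    · refine iff_of_false (far_right N hR _ h hh f ?_) ?_
      · have h1 := mul_lt_wd N hR hgh
        linarith [hx.1]
      · intro h1
        have h2 : crel2 (6 * g + 2) (6 * h + 1) (e = f) := h1
        unfold crel2 at h2
        omega
  · -- level 6g+4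
    have hrel : ¬ Rel2 (c ⟨6 * g + 4, by omega⟩ e : Vtx A R) (c ⟨6 * h + 1, by omega⟩ f) := by
      intro h1
      have h2 : crel2 (6 * g + 4) (6 * h + 1) (e = f) := h1
      unfold crel2 at h2
      omega
    rcases lt_trichotomy g h with hgh | rfl | hgh
    · refine iff_of_false (far_left N hR _ h hh f ?_) hrel
      rw [sx_4 N g e (by omega)]
      have h1 := mul_lt_wd N hR hgh
      linarith
    · refine iff_of_false ?_ hrel
      rw [inside_iff N _ g hh f, sx_4 N g e (by omega), sy_4 N g e (by omega),
        eq_of (by ring)]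
      have := hP_half N g e f
      intro h1
      linarith
    · refine iff_of_false (far_right N hR _ h hh f ?_) hrel
      rw [sx_4 N g e (by omega)]
      have h1 := mul_lt_wd N hR hgh
      linarith

end Pool.Agent.J4.H24.DG
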