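import Pool.Agent.J4.H24.DG.Geo0

/-!
# The disks of the levels `6 h + 3`
-/

set_option autoImplicit false

namespace Pool.Agent.J4.H24.DG

open Pool.Agent.NPC Pool.Agent.NPC.R671 Pool.Agent.W125.Dim Pool.Agent.Y815.GI
  Pool.Agent.J4.H79.GI Pool.Agent.W125.Dim.Vtx

variable {U W : Type} {A : U → W → Prop} {R : ℕ} (N : Num U W R)

namespace B3

/-- far to the right: outside -/
theorem far (hR : 2 ≤ R) {h : ℕ} {a b : Vtx A R} {r s : ℝ} (hr : cb N ≤ r) (hs : s ≤ 1 / 4)
    (hx : sx N b = (h - 1) * wd N + 1 - r) (hss : ss N b = r ^ 2 + s)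
    (ha : ((h : ℝ) - 1) * wd N + 3 / 2 ≤ sx N a) : ¬ Inside N a b := by
  have hw := wd_ge N hR
  have hcb := cb_ge N hR
  unfold Inside
  rw [hss]
  refine out_of (r := r) (δ := 1 / 2) (by linarith) (by norm_num) ?_ (by linarith)
  refine le_trans ?_ (le_abs_self _)
  linarith

/-- to the left: inside -/
theorem deep (hR : 2 ≤ R) {h : ℕ} (hh : h < R) {a b : Vtx A R} {r s : ℝ} (hr : cb N ≤ r) (hs : 0 ≤ s)
    (hx : sx N b = (h - 1) * wd N + 1 - r) (hss : ss N b = r ^ 2 + s)
    (ha : -wd N ≤ sx N a) (ha' : sx N a ≤ ((h : ℝ) - 1) * wd N + 1 / 2) : Inside N a b := by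
  have hw := wd_ge N hR
  have hcb := cb_ge N hR
  have hL := Lh_ge N hR
  have hle := mul_le_cb N hR hh.le
  have hwe := wd_eq N
  unfold Inside
  rw [hss]
  refine in_of (r := r) (δ := 1 / 2) (L := Lh N) ?_ (sy_abs N hR a b) (by nlinarith)
  rw [abs_le]
  constructor <;> nlinarith

end B3

theorem inside_b3 (hR : 2 ≤ R) (a : Vtx A R) (ha : Low a) (h : ℕ) (hh : h < R) (f : Inc A) :
    Inside N a (c ⟨6 * h + 3, by omega⟩ f) ↔ Rel2 a (c ⟨6 * h + 3, by omega⟩ f) := by
  have hw := wd_ge N hR
  have hcb := cb_ge N hR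
  have hcc := cc_ge N hR
  have hL := Lh_ge N hR
  have hcbe := cb_et N hR
  have hcce := cc_et N hR
  have het := et_pos N hR
  have het' := et_le N hR
  have key : ∃ r s : ℝ, cb N ≤ r ∧ 0 ≤ s ∧ s ≤ 1 / 4 ∧
      sx N (c ⟨6 * h + 3, by omega⟩ f : Vtx A R) = (h - 1) * wd N + 1 - r ∧
      ss N (c ⟨6 * h + 3, by omega⟩ f : Vtx A R) = r ^ 2 + s := by
    by_cases hm : ta N f = h
    · exact ⟨cc N, 1 / 16, by linarith, by norm_num, by norm_num, sx_3m N h f (by omega) hm,
        ss_3m N h f (by omega) hm⟩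
    · exact ⟨cb N, 1 / 4, le_rfl, by norm_num, by norm_num, sx_3 N h f (by omega) hm,
        ss_3 N h f (by omega) hm⟩
  obtain ⟨r, s, hr, hs0, hs1, hx, hss⟩ := key
  rcases low_cases ha with ⟨y, rfl⟩ | ⟨g, hg, e, rfl⟩ | ⟨g, hg, e, rfl⟩ | ⟨g, hg, e, rfl⟩
  · -- `w y`
    refine iff_of_false (B3.far N hR hr hs1 hx hss ?_) ?_
    · show _ ≤ (R : ℝ) * wd N + (N.BU : ℝ) ^ 2 / (8 * Lh N ^ 2)
      have h1 := mul_lt_wd N hR hh
      have h2 : 0 ≤ (N.BU : ℝ) ^ 2 / (8 * Lh N ^ 2) := by positivity
      linarith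
    · rintro ⟨h1, -⟩
      simp only at h1
      omega
  · -- level `6 g`
    rcases Nat.lt_or_ge g h with hgh | hgh
    · refine iff_of_true (B3.deep N hR hh hr hs0 hx hss ?_ ?_) ?_
      · rw [sx_0]
        have := mul_wd_nonneg N hR g
        linarith
      · rw [sx_0]
        have := mul_lt_wd N hR hgh
        linarith
      · show crel2 (6 * g) (6 * h + 3) (e = f)
        exact ⟨by omega, Or.inr (Or.inl ⟨by omega, by omega⟩)⟩
    · refine iff_of_false (B3.far N hR hr hs1 hx hss ?_) ?_
      · rw [sx_0]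
        have h1 : (h : ℝ) ≤ g := by exact_mod_cast hgh
        nlinarith
      · show ¬ crel2 (6 * g) (6 * h + 3) (e = f)
        rintro ⟨h0, ⟨-, h1⟩ | ⟨h1, h2⟩ | ⟨h1, h2⟩⟩ <;> omega
  · -- level `6 g + 2`
    have hx2 := sx_2' N g e hR (by omega)
    rcases lt_trichotomy g h with hgh | hgh | hgh
    · refine iff_of_true (B3.deep N hR hh hr hs0 hx hss ?_ ?_) ?_
      · have := mul_wd_nonneg N hR g
        linarith [hx2.1]
      · have := mul_lt_wd N hR hgh
        linarith [hx2.2]
      · show crel2 (6 * g + 2) (6 * h + 3) (e = f)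
        exact ⟨by omega, Or.inr (Or.inl ⟨by omega, by omega⟩)⟩
    · subst hgh
      have hrel : Rel2 (c ⟨6 * g + 2, by omega⟩ e : Vtx A R) (c ⟨6 * g + 3, by omega⟩ f) ↔ e = f := by
        show crel2 (6 * g + 2) (6 * g + 3) (e = f) ↔ e = f
        constructor
        · rintro ⟨h0, ⟨h1, -⟩ | ⟨h1, h2⟩ | ⟨h1, h2⟩⟩
          · exact h1
          · omega
          · omega
        · intro h1
          exact ⟨by omega, Or.inl ⟨h1, by omega⟩⟩
      rw [hrel]
      clear hx hss hx2
      unfold Inside
      by_cases hm : ta N f = g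
      · rw [sx_3m N g f (by omega) hm, ss_3m N g f (by omega) hm, sy_2, sy_3m N g f (by omega) hm]
        by_cases hef : e = f
        · subst hef
          rw [sx_2m N g e (by omega) hm]
          refine iff_of_true ?_ rfl
          have hy := sy_abs N hR (c ⟨6 * g + 2, by omega⟩ e : Vtx A R) (c ⟨6 * g + 3, by omega⟩ e)
          rw [sy_2, sy_3m N g e (by omega) hm] at hy
          have hy2 : (hP N g e - hP N (g + 1) e) ^ 2 ≤ Lh N ^ 2 := by
            rw [← sq_abs (hP N g e - hP N (g + 1) e)]
            exact pow_le_pow_left₀ (abs_nonneg _) hy 2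
          nlinarith
        · rw [sx_2 N g e (by omega) (fun h1 => hef ((ta_inj N e f).1 (h1.trans hm.symm)))]
          refine iff_of_false ?_ hef
          have := hP_half' N g e f
          intro h1
          nlinarith
      · rw [sx_3 N g f (by omega) hm, ss_3 N g f (by omega) hm, sy_2, sy_3 N g f (by omega) hm]
        by_cases hef : e = f
        · subst hef
          rw [sx_2 N g e (by omega) hm]
          refine iff_of_true ?_ rfl
          nlinarith
        · refine iff_of_false ?_ hef
          obtain ⟨z, hz, hz'⟩ := hP_ne N g hef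
          have h9 := (quarter z hz).1
          have hy : hP N g e - (hP N g f + 1 / 4) = z - 1 / 4 := by linarith
          rw [hy]
          by_cases hme : ta N e = g
          · rw [sx_2m N g e (by omega) hme]
            intro h1
            nlinarith
          · rw [sx_2 N g e (by omega) hme]
            intro h1
            nlinarith
    · refine iff_of_false (B3.far N hR hr hs1 hx hss ?_) ?_
      · have := mul_lt_wd N hR hgh
        linarith [hx2.1]
      · show ¬ crel2 (6 * g + 2) (6 * h + 3) (e = f)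
        rintro ⟨h0, ⟨-, h1⟩ | ⟨h1, h2⟩ | ⟨h1, h2⟩⟩ <;> omega
  · -- level `6 g + 4`
    rcases lt_trichotomy g h with hgh | hgh | hgh
    · refine iff_of_true (B3.deep N hR hh hr hs0 hx hss ?_ ?_) ?_
      · rw [sx_4]
        have := mul_wd_nonneg N hR g
        linarith
      · rw [sx_4]
        have := mul_lt_wd N hR hgh
        linarith
      · show crel2 (6 * g + 4) (6 * h + 3) (e = f)
        exact ⟨by omega, Or.inr (Or.inl ⟨by omega, by omega⟩)⟩
    · subst hgh
      have hrel : Rel2 (c ⟨6 * g + 4, by omega⟩ e : Vtx A R) (c ⟨6 * g + 3, by omega⟩ f) ↔ e = f := by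
        show crel2 (6 * g + 4) (6 * g + 3) (e = f) ↔ e = f
        constructor
        · rintro ⟨h0, ⟨h1, -⟩ | ⟨h1, h2⟩ | ⟨h1, h2⟩⟩
          · exact h1
          · omega
          · omega
        · intro h1
          exact ⟨by omega, Or.inl ⟨h1, by omega⟩⟩
      rw [hrel]
      clear hx hss
      unfold Inside
      rw [sx_4, sy_4]
      by_cases hm : ta N f = g
      · rw [sx_3m N g f (by omega) hm, ss_3m N g f (by omega) hm, sy_3m N g f (by omega) hm]
        by_cases hef : e = f
        · subst hef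
          refine iff_of_true ?_ rfl
          nlinarith
        · refine iff_of_false ?_ hef
          have := hP_sq N (g + 1) hef
          intro h1
          nlinarith
      · rw [sx_3 N g f (by omega) hm, ss_3 N g f (by omega) hm, sy_3 N g f (by omega) hm]
        have hst := hP_step N g f hm
        by_cases hef : e = f
        · subst hef
          refine iff_of_true ?_ rfl
          rw [hst]
          nlinarith
        · refine iff_of_false ?_ hef
          obtain ⟨z, hz, hz'⟩ := hP_ne N (g + 1) hef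
          have h9 := (quarter z hz).2
          have hy : hP N (g + 1) e - (hP N g f + 1 / 4) = z + 1 / 4 := by linarith
          rw [hy]
          intro h1
          nlinarith
    · refine iff_of_false (B3.far N hR hr hs1 hx hss ?_) ?_
      · rw [sx_4]
        have := mul_lt_wd N hR hgh
        linarith
      · show ¬ crel2 (6 * g + 4) (6 * h + 3) (e = f)
        rintro ⟨h0, ⟨-, h1⟩ | ⟨h1, h2⟩ | ⟨h1, h2⟩⟩ <;> omega

end Pool.Agent.J4.H24.DG
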