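import Pool.Agent.J4.H24.DG.Geo0

/-!
# The disks of the levels `6 h + 5`
-/

set_option autoImplicit false

namespace Pool.Agent.J4.H24.DG

open Pool.Agent.NPC Pool.Agent.NPC.R671 Pool.Agent.W125.Dim Pool.Agent.Y815.GI
  Pool.Agent.J4.H79.GI Pool.Agent.W125.Dim.Vtx

variable {U W : Type} {A : U → W → Prop} {R : ℕ} (N : Num U W R)

namespace B5

/-- far to the right: outside -/
theorem right (hR : 2 ≤ R) {h : ℕ} {a b : Vtx A R}
    (hx : sx N b = h * wd N + 1 / 2) (hss : ss N b = (wd N - 1 / 2) ^ 2 + 1 / 8)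
    (ha : (h : ℝ) * wd N + wd N + 1 / 2 ≤ sx N a) : ¬ Inside N a b := by
  have hw := wd_ge N hR
  unfold Inside
  rw [hss]
  refine out_of (r := wd N - 1 / 2) (δ := 1 / 2) (by linarith) (by norm_num) ?_ (by linarith)
  refine le_trans ?_ (le_abs_self _)
  linarith

/-- far to the left: outside -/
theorem left (hR : 2 ≤ R) {h : ℕ} {a b : Vtx A R}
    (hx : sx N b = h * wd N + 1 / 2) (hss : ss N b = (wd N - 1 / 2) ^ 2 + 1 / 8)
    (ha : sx N a ≤ (h : ℝ) * wd N - wd N + 1 / 2) : ¬ Inside N a b := by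
  have hw := wd_ge N hR
  unfold Inside
  rw [hss]
  refine out_of (r := wd N - 1 / 2) (δ := 1 / 2) (by linarith) (by norm_num) ?_ (by linarith)
  refine le_trans ?_ (neg_le_abs _)
  linarith

/-- deep inside -/
theorem deep (hR : 2 ≤ R) {h : ℕ} {a b : Vtx A R}
    (hx : sx N b = h * wd N + 1 / 2) (hss : ss N b = (wd N - 1 / 2) ^ 2 + 1 / 8)
    (ha : (h : ℝ) * wd N - 1 ≤ sx N a) (ha' : sx N a ≤ (h : ℝ) * wd N + 2) : Inside N a b := by
  have hw := wd_ge N hR
  have hL := Lh_ge N hR
  have hwe := wd_eq N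
  unfold Inside
  rw [hss]
  refine in_of (r := wd N - 1 / 2) (δ := 1) (L := Lh N) ?_ (sy_abs N hR a b) (by nlinarith)
  rw [abs_le]
  constructor <;> linarith

end B5

theorem inside_b5 (hR : 2 ≤ R) (a : Vtx A R) (ha : Low a) (h : ℕ) (hh : h < R) (f : Inc A) :
    Inside N a (c ⟨6 * h + 5, by omega⟩ f) ↔ Rel2 a (c ⟨6 * h + 5, by omega⟩ f) := by
  have hw := wd_ge N hR
  have hL := Lh_ge N hR
  have het := et_pos N hR
  have het' := et_le N hR
  have hx := sx_5 N h f (show 6 * h + 5 < 6 * R + 2 by omega)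
  have hss := ss_5 N h f (show 6 * h + 5 < 6 * R + 2 by omega)
  have hsy := sy_5 N h f (show 6 * h + 5 < 6 * R + 2 by omega)
  rcases low_cases ha with ⟨y, rfl⟩ | ⟨g, hg, e, rfl⟩ | ⟨g, hg, e, rfl⟩ | ⟨g, hg, e, rfl⟩
  · -- `w y`
    refine iff_of_false ?_ ?_
    · have h1 := mul_lt_wd N hR hh
      have h2 := BU1 N
      have h3 : 0 < 8 * Lh N ^ 2 := by positivity
      have h4 : (N.BU : ℝ) ^ 2 / (8 * Lh N ^ 2) * wd N = (N.BU : ℝ) ^ 2 := by
        rw [wd_eq]
        field_simp
      have h5 : 0 ≤ (N.BU : ℝ) ^ 2 / (8 * Lh N ^ 2) := by positivity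
      have h6 : (1 : ℝ) ≤ (N.BU : ℝ) ^ 2 := by nlinarith
      have hxw : sx N (w y : Vtx A R) = (R : ℝ) * wd N + (N.BU : ℝ) ^ 2 / (8 * Lh N ^ 2) := rfl
      unfold Inside
      rw [hss, hx, hxw]
      generalize (N.BU : ℝ) ^ 2 / (8 * Lh N ^ 2) = z at h4 h5
      refine out_of (r := wd N - 1 / 2) (δ := z) (by linarith) h5 ?_ (by nlinarith)
      refine le_trans ?_ (le_abs_self _)
      linarith
    · rintro ⟨h1, -⟩
      simp only at h1
      omega
  · -- level `6 g`
    rcases Nat.lt_or_ge g h with hgh | hgh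
    · refine iff_of_false (B5.left N hR hx hss ?_) ?_
      · rw [sx_0]
        have := mul_lt_wd N hR hgh
        linarith
      · show ¬ crel2 (6 * g) (6 * h + 5) (e = f)
        rintro ⟨h0, ⟨-, h1⟩ | ⟨h1, h2⟩ | ⟨h1, h2⟩⟩ <;> omega
    rcases Nat.lt_or_ge h g with hgh2 | hgh2
    · rcases Nat.lt_or_ge (h + 1) g with hgh3 | hgh3
      · refine iff_of_false (B5.right N hR hx hss ?_) ?_
        · rw [sx_0]
          have h1 := mul_lt_wd N hR hgh3
          push_cast at h1
          linarith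
        · show ¬ crel2 (6 * g) (6 * h + 5) (e = f)
          rintro ⟨h0, ⟨-, h1⟩ | ⟨h1, h2⟩ | ⟨h1, h2⟩⟩ <;> omega
      · obtain rfl : g = h + 1 := by omega
        have hrel : Rel2 (c ⟨6 * (h + 1), by omega⟩ e : Vtx A R) (c ⟨6 * h + 5, by omega⟩ f) ↔
            e = f := by
          show crel2 (6 * (h + 1)) (6 * h + 5) (e = f) ↔ e = f
          constructor
          · rintro ⟨h0, ⟨h1, -⟩ | ⟨h1, h2⟩ | ⟨h1, h2⟩⟩
            · exact h1
            · omega
            · omega
          · intro h1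
            exact ⟨by omega, Or.inl ⟨h1, by omega⟩⟩
        rw [hrel]
        unfold Inside
        rw [hx, hss, hsy, sx_0, sy_0, eq_of (by push_cast; ring)]
        by_cases hef : e = f
        · subst hef
          refine iff_of_true ?_ rfl
          rw [sub_self]
          norm_num
        · refine iff_of_false ?_ hef
          have := hP_sq N (h + 1) hef
          intro h1
          linarith
    · obtain rfl : g = h := by omega
      refine iff_of_true (B5.deep N hR hx hss ?_ ?_) ?_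
      · rw [sx_0]
        linarith
      · rw [sx_0]
        linarith
      · show crel2 (6 * g) (6 * g + 5) (e = f)
        exact ⟨by omega, Or.inr (Or.inr ⟨by omega, by omega⟩)⟩
  · -- level `6 g + 2`
    have hx2 := sx_2' N g e hR (show 6 * g + 2 < 6 * R + 2 by omega)
    rcases Nat.lt_or_ge g h with hgh | hgh
    · refine iff_of_false (B5.left N hR hx hss ?_) ?_
      · have := mul_lt_wd N hR hgh
        linarith [hx2.2]
      · show ¬ crel2 (6 * g + 2) (6 * h + 5) (e = f)
        rintro ⟨h0, ⟨-, h1⟩ | ⟨h1, h2⟩ | ⟨h1, h2⟩⟩ <;> omega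
    rcases Nat.lt_or_ge h g with hgh2 | hgh2
    · rcases Nat.lt_or_ge (h + 1) g with hgh3 | hgh3
      · refine iff_of_false (B5.right N hR hx hss ?_) ?_
        · have h1 := mul_lt_wd N hR hgh3
          push_cast at h1
          linarith [hx2.1]
        · show ¬ crel2 (6 * g + 2) (6 * h + 5) (e = f)
          rintro ⟨h0, ⟨-, h1⟩ | ⟨h1, h2⟩ | ⟨h1, h2⟩⟩ <;> omega
      · obtain rfl : g = h + 1 := by omega
        push_cast at hx2
        refine iff_of_true (B5.deep N hR hx hss ?_ ?_) ?_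
        · linarith [hx2.1]
        · linarith [hx2.2]
        · show crel2 (6 * (h + 1) + 2) (6 * h + 5) (e = f)
          exact ⟨by omega, Or.inr (Or.inr ⟨by omega, by omega⟩)⟩
    · obtain rfl : g = h := by omega
      refine iff_of_false ?_ ?_
      · have hy := hP_half' N g e f
        unfold Inside
        rw [hx, hss, hsy, sy_2]
        intro h1
        have h2 : (wd N - 1 / 2) ^ 2 ≤ (sx N (c ⟨6 * g + 2, by omega⟩ e : Vtx A R) -
            ((g : ℝ) * wd N + 1 / 2)) ^ 2 := by
          have h3 : wd N - 1 / 2 ≤ |sx N (c ⟨6 * g + 2, by omega⟩ e : Vtx A R) -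
            ((g : ℝ) * wd N + 1 / 2)| := by
            refine le_trans ?_ (neg_le_abs _)
            linarith [hx2.2]
          rw [← sq_abs (sx N (c ⟨6 * g + 2, by omega⟩ e : Vtx A R) - ((g : ℝ) * wd N + 1 / 2))]
          exact pow_le_pow_left₀ (by linarith) h3 2
        linarith
      · show ¬ crel2 (6 * g + 2) (6 * g + 5) (e = f)
        rintro ⟨h0, ⟨-, h1⟩ | ⟨h1, h2⟩ | ⟨h1, h2⟩⟩ <;> omega
  · -- level `6 g + 4`
    rcases Nat.lt_or_ge g h with hgh | hgh
    · refine iff_of_false (B5.left N hR hx hss ?_) ?_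
      · rw [sx_4]
        have := mul_lt_wd N hR hgh
        linarith
      · show ¬ crel2 (6 * g + 4) (6 * h + 5) (e = f)
        rintro ⟨h0, ⟨-, h1⟩ | ⟨h1, h2⟩ | ⟨h1, h2⟩⟩ <;> omega
    rcases Nat.lt_or_ge h g with hgh2 | hgh2
    · rcases Nat.lt_or_ge (h + 1) g with hgh3 | hgh3
      · refine iff_of_false (B5.right N hR hx hss ?_) ?_
        · rw [sx_4]
          have h1 := mul_lt_wd N hR hgh3
          push_cast at h1
          linarith
        · show ¬ crel2 (6 * g + 4) (6 * h + 5) (e = f)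
          rintro ⟨h0, ⟨-, h1⟩ | ⟨h1, h2⟩ | ⟨h1, h2⟩⟩ <;> omega
      · obtain rfl : g = h + 1 := by omega
        refine iff_of_true (B5.deep N hR hx hss ?_ ?_) ?_
        · rw [sx_4]
          push_cast
          linarith
        · rw [sx_4]
          push_cast
          linarith
        · show crel2 (6 * (h + 1) + 4) (6 * h + 5) (e = f)
          exact ⟨by omega, Or.inr (Or.inr ⟨by omega, by omega⟩)⟩
    · obtain rfl : g = h := by omega
      have hrel : Rel2 (c ⟨6 * g + 4, by omega⟩ e : Vtx A R) (c ⟨6 * g + 5, by omega⟩ f) ↔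
          e = f := by
        show crel2 (6 * g + 4) (6 * g + 5) (e = f) ↔ e = f
        constructor
        · rintro ⟨h0, ⟨h1, -⟩ | ⟨h1, h2⟩ | ⟨h1, h2⟩⟩
          · exact h1
          · omega
          · omega
        · intro h1
          exact ⟨by omega, Or.inl ⟨h1, by omega⟩⟩
      rw [hrel]
      unfold Inside
      rw [hx, hss, hsy, sx_4, sy_4, eq_of (by ring)]
      by_cases hef : e = f
      · subst hef
        refine iff_of_true ?_ rfl
        rw [sub_self]
        norm_num
      · refine iff_of_false ?_ hef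
        have := hP_sq N (g + 1) hef
        intro h1
        linarith

end Pool.Agent.J4.H24.DG
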