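import Pool.Agent.J4.H24.DG.C5

/-!
# Almost unit disks: the levels `6 h + 1`
-/

set_option autoImplicit false

namespace Pool.Agent.J4.H24.DG

open Pool.Agent.NPC Pool.Agent.NPC.R671 Pool.Agent.W125.Dim Pool.Agent.Y815.GI
  Pool.Agent.J4.H79.GI Pool.Agent.W125.Dim.Vtx

variable {U W : Type} {A : U → W → Prop} {R : ℕ}

namespace C1Aux

variable (N : Num U W R) (δ : ℝ) (g : ℕ) (e : Inc A)

theorem bq_1 (h : 6 * g + 1 < 6 * R + 2) (hg : g ≠ R) :
    bq N δ (c ⟨6 * g + 1, h⟩ e : Vtx A R) = g * δ + 1 / 2 := by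
  show gq N δ ((6 * g + 1) / 6) ((6 * g + 1) % 6) e = _
  rw [(lev g 1 (by norm_num)).1, (lev g 1 (by norm_num)).2]
  exact if_neg hg

theorem br_1 (h : 6 * g + 1 < 6 * R + 2) :
    br N δ (c ⟨6 * g + 1, h⟩ e : Vtx A R) = 1 / 2 := by
  show gr N δ ((6 * g + 1) / 6) ((6 * g + 1) % 6) e = _
  rw [(lev g 1 (by norm_num)).1, (lev g 1 (by norm_num)).2]
  rfl

theorem bm_1 (h : 6 * g + 1 < 6 * R + 2) (hg : g ≠ R) :
    bm N δ (c ⟨6 * g + 1, h⟩ e : Vtx A R) = 1 + 1 / (2 * rs δ) := by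
  show gm N δ ((6 * g + 1) / 6) ((6 * g + 1) % 6) e = _
  rw [(lev g 1 (by norm_num)).1, (lev g 1 (by norm_num)).2]
  exact if_neg hg

theorem bo_1 (h : 6 * g + 1 < 6 * R + 2) (hg : g ≠ R) :
    bo N δ (c ⟨6 * g + 1, h⟩ e : Vtx A R) = (1 + 1 / (2 * rs δ)) / 8 := by
  show go N δ ((6 * g + 1) / 6) ((6 * g + 1) % 6) e = _
  rw [(lev g 1 (by norm_num)).1, (lev g 1 (by norm_num)).2]
  exact if_neg hg

end C1Aux

open C5Aux C1Aux in
theorem ins_b1 (N : Num U W R) (hR : 2 ≤ R) {δ : ℝ} (hδ : 0 < δ) (hδ' : (R + 1) * δ < 1 / 2)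
    (a : Vtx A R) (ha : Low a)
    (h : ℕ) (hh : h < R) (f : Inc A) : (Ins N δ a (c ⟨6 * h + 1, by omega⟩ f) ↔
      Rel3 a (c ⟨6 * h + 1, by omega⟩ f)) ∧ NonDeg N δ a (c ⟨6 * h + 1, by omega⟩ f) := by
  have hRr : (2 : ℝ) ≤ R := by exact_mod_cast hR
  have hhR : (h : ℝ) + 1 ≤ R := by exact_mod_cast hh
  have hh0 : (0 : ℝ) ≤ h := Nat.cast_nonneg _
  have hδ1 : δ < 1 := by nlinarith
  have hm0 := m1_pos hδ
  have hm1 := m1_lt hδ hδ1
  unfold Ins NonDeg
  rw [bq_1 N δ h f _ hh.ne, br_1, bm_1 N δ h f _ hh.ne, bo_1 N δ h f _ hh.ne, sy_1]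
  have hT : (0 : ℝ) < 1 + δ := by linarith
  have hrs : 2 * rs δ = 1 + δ := by unfold rs; ring
  rw [hrs]
  obtain ⟨M, hM⟩ : ∃ M : ℝ, M = 1 + 1 / (1 + δ) := ⟨_, rfl⟩
  have hM1 : 1 < M := by
    rw [hM]
    have : 0 < 1 / (1 + δ) := by positivity
    linarith
  rw [← hM]
  have hMy : ∀ y : ℝ, y ^ 2 / (1 + δ) = (M - 1) * y ^ 2 := by
    intro y
    rw [hM]
    ring
  -- products with `δ`
  have hmul : ∀ {x y : ℕ}, x < y → (x : ℝ) * δ + δ ≤ y * δ := by
    intro x y hxy
    have h1 : (x : ℝ) + 1 ≤ y := by exact_mod_cast hxy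
    nlinarith
  have hle : ∀ {x : ℕ}, x ≤ R → (x : ℝ) * δ < 1 / 2 - δ := by
    intro x hx
    have h1 : (x : ℝ) ≤ R := by exact_mod_cast hx
    nlinarith
  have hnn : ∀ x : ℕ, 0 ≤ (x : ℝ) * δ := fun x => by positivity
  have hhδ := hle hh.le
  have hhn := hnn h
  rcases low_cases ha with ⟨y, rfl⟩ | ⟨g, hg, e, rfl⟩ | ⟨g, hg, e, rfl⟩ | ⟨g, hg, e, rfl⟩
  · -- the points `w y`
    have hrel : ¬ Rel3 (w y : Vtx A R) (c ⟨6 * h + 1, by omega⟩ f) := by
      rintro ⟨h1, -⟩
      have h1' : 6 * h + 1 = 6 * R + 1 := h1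
      omega
    have e1 : ap δ (w y : Vtx A R) = 1 + R * δ := rfl
    rw [e1]
    apply cls
    refine Or.inr (Or.inl ⟨?_, hrel⟩)
    have h2 := hmul hh
    rw [lt_abs]
    left
    linarith
  · -- level `6 g`
    rw [ap_0, ax_0, sy_0, hrs, hMy]
    have hrel : Rel3 (c ⟨6 * g, by omega⟩ e : Vtx A R) (c ⟨6 * h + 1, by omega⟩ f) ↔
        (g < h ∨ (g = h ∧ e = f)) := by
      show crel3 R (6 * g) (6 * h + 1) (e = f) ↔ _
      unfold crel3 J3
      constructor
      · rintro ⟨_, ⟨h1, h2⟩ | h1 | h1 | h1⟩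
        · right
          exact ⟨by omega, h1⟩
        all_goals left; omega
      · rintro (h1 | ⟨h1, h2⟩)
        · exact ⟨by omega, Or.inr (by omega)⟩
        · exact ⟨by omega, Or.inl ⟨h2, by omega⟩⟩
    rw [hrel]
    have hgδ := hle hg
    have hgn := hnn g
    apply cls
    rcases Nat.lt_trichotomy g h with h1 | h1 | h1
    · refine Or.inl ⟨?_, Or.inl h1⟩
      have h2 := hmul h1
      rw [abs_lt]
      constructor <;> linarith
    · refine Or.inr (Or.inr ⟨?_, ?_⟩)
      · rw [h1, abs_of_pos] <;> linarith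
      · have h4 : 2 * (1 + (g : ℝ) * δ - ((h : ℝ) * δ + 1 / 2)) = 1 := by
          rw [h1]
          ring
        rw [h4, h1]
        by_cases hef : e = f
        · left
          refine ⟨?_, Or.inr ⟨rfl, hef⟩⟩
          rw [hef]
          nlinarith
        · right
          refine ⟨?_, ?_⟩
          · have h5 := hP_sq N h hef
            have h6 : M ≤ M * (hP N h e - hP N h f) ^ 2 := le_mul_of_one_le_right (by linarith) h5
            nlinarith
          · rintro (h6 | ⟨_, h6⟩)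
            · omega
            · exact hef h6
    · refine Or.inr (Or.inl ⟨?_, ?_⟩)
      · have h2 := hmul h1
        rw [lt_abs]
        left
        linarith
      · rintro (h6 | ⟨h6, _⟩) <;> omega
  · -- level `6 g + 2`
    rw [ap_2, ax_2, sy_2, hrs, hMy]
    have hrel : Rel3 (c ⟨6 * g + 2, by omega⟩ e : Vtx A R) (c ⟨6 * h + 1, by omega⟩ f) ↔
        (h < g ∨ (g = h ∧ e = f)) := by
      show crel3 R (6 * g + 2) (6 * h + 1) (e = f) ↔ _
      unfold crel3 J3
      constructor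
      · rintro ⟨_, ⟨h1, h2⟩ | h1 | h1 | h1⟩
        · right
          exact ⟨by omega, h1⟩
        all_goals left; omega
      · rintro (h1 | ⟨h1, h2⟩)
        · exact ⟨by omega, Or.inr (by omega)⟩
        · exact ⟨by omega, Or.inl ⟨h2, by omega⟩⟩
    rw [hrel]
    have hgδ := hle hg.le
    have hgn := hnn g
    apply cls
    rcases Nat.lt_trichotomy g h with h1 | h1 | h1
    · refine Or.inr (Or.inl ⟨?_, ?_⟩)
      · have h2 := hmul h1
        rw [lt_abs]
        right
        linarith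
      · rintro (h6 | ⟨h6, _⟩) <;> omega
    · refine Or.inr (Or.inr ⟨?_, ?_⟩)
      · rw [h1, abs_of_neg] <;> linarith
      · have h4 : 2 * ((g : ℝ) * δ - ((h : ℝ) * δ + 1 / 2)) = -1 := by
          rw [h1]
          ring
        rw [h4, h1]
        by_cases hef : e = f
        · left
          refine ⟨?_, Or.inr ⟨rfl, hef⟩⟩
          rw [hef]
          have h7 : (if ta N f = h then m₁ δ / 8 else 0) ≤ m₁ δ / 8 := by
            split_ifs
            · exact le_rfl
            · positivity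
          nlinarith
        · right
          refine ⟨?_, ?_⟩
          · have h5 := hP_sq N h hef
            have h6 : M ≤ M * (hP N h e - hP N h f) ^ 2 := le_mul_of_one_le_right (by linarith) h5
            have h7 : 0 ≤ (if ta N e = h then m₁ δ / 8 else 0) := by
              split_ifs
              · positivity
              · exact le_rfl
            nlinarith
          · rintro (h6 | ⟨_, h6⟩)
            · omega
            · exact hef h6
    · refine Or.inl ⟨?_, Or.inl h1⟩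
      have h2 := hmul h1
      rw [abs_lt]
      constructor <;> linarith
  · -- level `6 g + 4`
    rw [ap_4, ax_4, sy_4, hrs, hMy]
    have hrel : Rel3 (c ⟨6 * g + 4, by omega⟩ e : Vtx A R) (c ⟨6 * h + 1, by omega⟩ f) ↔ h < g := by
      show crel3 R (6 * g + 4) (6 * h + 1) (e = f) ↔ _
      unfold crel3 J3
      constructor
      · rintro ⟨_, ⟨h1, h2⟩ | h1 | h1 | h1⟩ <;> omega
      · intro h1
        exact ⟨by omega, Or.inr (by omega)⟩
    rw [hrel]
    have hgδ := hle hg.le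
    have hgn := hnn g
    apply cls
    rcases Nat.lt_trichotomy g h with h1 | h1 | h1
    · refine Or.inr (Or.inl ⟨?_, by omega⟩)
      have h2 := hmul h1
      rw [lt_abs]
      right
      linarith
    · refine Or.inr (Or.inr ⟨?_, Or.inr ⟨?_, by omega⟩⟩)
      · rw [h1, abs_of_neg] <;> linarith
      · have h4 : 2 * ((g : ℝ) * δ - ((h : ℝ) * δ + 1 / 2)) = -1 := by
          rw [h1]
          ring
        rw [h4, h1]
        have h5 := hP_half N h e f
        have h6 : M * (1 / 4) ≤ M * (hP N (h + 1) e - hP N h f) ^ 2 :=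
          mul_le_mul_of_nonneg_left h5 (by linarith)
        nlinarith
    · refine Or.inl ⟨?_, h1⟩
      have h2 := hmul h1
      rw [abs_lt]
      constructor <;> linarith

end Pool.Agent.J4.H24.DG
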