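import Pool.Agent.J4.H24.DG.Defs3

/-!
# Almost unit disks: the disks of the last level
-/

set_option autoImplicit false

namespace Pool.Agent.J4.H24.DG

open Pool.Agent.NPC Pool.Agent.NPC.R671 Pool.Agent.W125.Dim Pool.Agent.Y815.GI
  Pool.Agent.J4.H79.GI Pool.Agent.W125.Dim.Vtx

variable {U W : Type} {A : U → W → Prop} {R : ℕ} (N : Num U W R)

namespace C2Aux

section
variable (δ : ℝ) (e : Inc A)

theorem bq_last (h : 6 * R + 1 < 6 * R + 2) :
    bq N δ (c ⟨6 * R + 1, h⟩ e : Vtx A R) = 1 + R * δ + 1 / 2 := by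
  show gq N δ ((6 * R + 1) / 6) ((6 * R + 1) % 6) e = _
  rw [(lev R 1 (by norm_num)).1, (lev R 1 (by norm_num)).2]
  exact if_pos rfl

theorem br_last (h : 6 * R + 1 < 6 * R + 2) :
    br N δ (c ⟨6 * R + 1, h⟩ e : Vtx A R) = 1 / 2 := by
  show gr N δ ((6 * R + 1) / 6) ((6 * R + 1) % 6) e = _
  rw [(lev R 1 (by norm_num)).1, (lev R 1 (by norm_num)).2]
  rfl

theorem bm_last (h : 6 * R + 1 < 6 * R + 2) :
    bm N δ (c ⟨6 * R + 1, h⟩ e : Vtx A R) = m₁ δ := by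
  show gm N δ ((6 * R + 1) / 6) ((6 * R + 1) % 6) e = _
  rw [(lev R 1 (by norm_num)).1, (lev R 1 (by norm_num)).2]
  exact if_pos rfl

theorem bo_last (h : 6 * R + 1 < 6 * R + 2) :
    bo N δ (c ⟨6 * R + 1, h⟩ e : Vtx A R) = m₁ δ / 4 := by
  show go N δ ((6 * R + 1) / 6) ((6 * R + 1) % 6) e = _
  rw [(lev R 1 (by norm_num)).1, (lev R 1 (by norm_num)).2]
  exact if_pos rfl

theorem ap_0 (g : ℕ) (h : 6 * g < 6 * R + 2) :
    ap δ (c ⟨6 * g, h⟩ e : Vtx A R) = 1 + g * δ := by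
  show gp δ ((6 * g + 0) / 6) ((6 * g + 0) % 6) = _
  rw [(lev g 0 (by norm_num)).1, (lev g 0 (by norm_num)).2]
  rfl

theorem ax_0 (g : ℕ) (h : 6 * g < 6 * R + 2) :
    ax N δ (c ⟨6 * g, h⟩ e : Vtx A R) = hP N g e ^ 2 / (2 * rs δ) := by
  show gξ N δ ((6 * g + 0) / 6) ((6 * g + 0) % 6) e = _
  rw [(lev g 0 (by norm_num)).1, (lev g 0 (by norm_num)).2]
  rfl

theorem ap_2 (g : ℕ) (h : 6 * g + 2 < 6 * R + 2) :
    ap δ (c ⟨6 * g + 2, h⟩ e : Vtx A R) = g * δ := by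
  show gp δ ((6 * g + 2) / 6) ((6 * g + 2) % 6) = _
  rw [(lev g 2 (by norm_num)).1, (lev g 2 (by norm_num)).2]
  rfl

theorem ap_4 (g : ℕ) (h : 6 * g + 4 < 6 * R + 2) :
    ap δ (c ⟨6 * g + 4, h⟩ e : Vtx A R) = g * δ := by
  show gp δ ((6 * g + 4) / 6) ((6 * g + 4) % 6) = _
  rw [(lev g 4 (by norm_num)).1, (lev g 4 (by norm_num)).2]
  rfl

end

theorem m₁_pos {δ : ℝ} (hδ : 0 < δ) : 0 < m₁ δ := by
  unfold m₁ rs
  rw [sub_pos, div_lt_one (by linarith)]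
  linarith

theorem m₁_mul {δ : ℝ} (hδ : 0 < δ) (z : ℝ) : z ^ 2 / (2 * rs δ) = z ^ 2 - m₁ δ * z ^ 2 := by
  unfold m₁
  have : 2 * rs δ ≠ 0 := by unfold rs; linarith
  field_simp
  ring

/-- outside -/
theorem out_left {δ : ℝ} (a : Vtx A R) (f : Inc A) (h : ap δ a < 1 + R * δ) :
    ¬ Ins N δ a (c ⟨6 * R + 1, by omega⟩ f) ∧ NonDeg N δ a (c ⟨6 * R + 1, by omega⟩ f) := by
  have h1 : 1 / 2 < |ap δ a - (1 + R * δ + 1 / 2)| := by
    refine lt_of_lt_of_le ?_ (neg_le_abs _)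
    linarith
  constructor
  · rintro (h2 | ⟨h2, -⟩)
    · rw [bq_last, br_last] at h2
      linarith
    · rw [bq_last, br_last] at h2
      linarith
  · intro h2
    rw [bq_last, br_last] at h2
    exact absurd h2 h1.ne'

/-- contact -/
theorem contact {δ σ : ℝ} (hδ : 0 < δ) (a : Vtx A R) (f : Inc A) (h : ap δ a = 1 + R * δ)
    (hx : ax N δ a = sy N a ^ 2 / (2 * rs δ) + σ) :
    (Ins N δ a (c ⟨6 * R + 1, by omega⟩ f) ↔
      m₁ δ * (sy N a - hP N R f) ^ 2 - σ < m₁ δ / 4) ∧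
    (NonDeg N δ a (c ⟨6 * R + 1, by omega⟩ f) ↔
      m₁ δ * (sy N a - hP N R f) ^ 2 - σ ≠ m₁ δ / 4) := by
  have hD : ap δ a - (1 + R * δ + 1 / 2) = -(1 / 2) := by rw [h]; ring
  have habs : |(-(1 / 2) : ℝ)| = 1 / 2 := by rw [abs_neg, abs_of_pos (by norm_num)]
  have key : 2 * (-(1 / 2) : ℝ) * ax N δ a + (sy N a - m₁ δ * hP N R f) ^ 2 =
      (m₁ δ * (sy N a - hP N R f) ^ 2 - σ) + m₁ δ * (m₁ δ - 1) * hP N R f ^ 2 := by
    rw [hx, m₁_mul hδ]
    ring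
  constructor
  · unfold Ins
    rw [bq_last, br_last, bm_last, bo_last, sy_last, hD, habs, key]
    constructor
    · rintro (h1 | ⟨-, h1⟩)
      · exact absurd h1 (lt_irrefl _)
      · linarith
    · intro h1
      exact Or.inr ⟨rfl, by linarith⟩
  · unfold NonDeg
    rw [bq_last, br_last, bm_last, bo_last, sy_last, hD, habs, key]
    constructor
    · intro h1 h2
      exact h1 rfl (by rw [h2])
    · intro h1 _ h2
      exact h1 (by linarith)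

end C2Aux

open C2Aux in
theorem ins_last (hR : 2 ≤ R) {δ : ℝ} (hδ : 0 < δ) (hδ' : (R + 1) * δ < 1 / 2) (a : Vtx A R) (ha : Low a)
    (f : Inc A) : (Ins N δ a (c ⟨6 * R + 1, by omega⟩ f) ↔
      Rel3 a (c ⟨6 * R + 1, by omega⟩ f)) ∧ NonDeg N δ a (c ⟨6 * R + 1, by omega⟩ f) := by
  have hm := m₁_pos hδ
  rcases low_cases ha with ⟨y, rfl⟩ | ⟨g, hg, e, rfl⟩ | ⟨g, hg, e, rfl⟩ | ⟨g, hg, e, rfl⟩
  · -- w y
    have hB := BU1 N
    have hc := contact N (σ := m₁ δ * (N.BU : ℝ) ^ 2 / 4) hδ (w y : Vtx A R) f rfl rfl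
    have hy : sy N (w y : Vtx A R) - hP N R f =
        (ta N f : ℝ) - aw N y - ((N.BU : ℝ) - 1) / 2 := by
      rw [hP_last]
      show -((aw N y : ℝ) + ((N.BU : ℝ) - 1) / 2 + 1) + R / 2 - _ = _
      ring
    have hrel : Rel3 (w y : Vtx A R) (c ⟨6 * R + 1, by omega⟩ f) ↔ f.1.2 = y :=
      ⟨fun h => h.2, fun h => ⟨rfl, h⟩⟩
    have hta : ta N f = aw N f.1.2 + N.nu f.1.1 := rfl
    have hnu := N.nu_lt f.1.1
    rw [hc.1, hc.2, hrel, hy]
    by_cases hf : f.1.2 = y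
    · subst hf
      have h2 : (ta N f : ℝ) = aw N f.1.2 + N.nu f.1.1 := by
        rw [hta]
        push_cast
        ring
      have h3 : (N.nu f.1.1 : ℝ) + 1 ≤ N.BU := by exact_mod_cast hnu
      have h4 : (0 : ℝ) ≤ N.nu f.1.1 := Nat.cast_nonneg _
      have h5 : ((ta N f : ℝ) - aw N f.1.2 - ((N.BU : ℝ) - 1) / 2) ^ 2 ≤ ((N.BU : ℝ) - 1) ^ 2 / 4 := by
        rw [h2]
        nlinarith [mul_nonneg h4 (by linarith : (0 : ℝ) ≤ N.BU - 1 - N.nu f.1.1)]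
      have h6 : m₁ δ * ((ta N f : ℝ) - aw N f.1.2 - ((N.BU : ℝ) - 1) / 2) ^ 2 ≤
          m₁ δ * (((N.BU : ℝ) - 1) ^ 2 / 4) := mul_le_mul_of_nonneg_left h5 hm.le
      have h7 : m₁ δ * (((N.BU : ℝ) - 1) ^ 2 / 4) - m₁ δ * (N.BU : ℝ) ^ 2 / 4 =
          m₁ δ / 4 - m₁ δ * N.BU / 2 := by ring
      have h8 : 0 < m₁ δ * N.BU := by positivity
      have h9 : m₁ δ * ((ta N f : ℝ) - aw N f.1.2 - ((N.BU : ℝ) - 1) / 2) ^ 2 -
          m₁ δ * (N.BU : ℝ) ^ 2 / 4 < m₁ δ / 4 := by linarith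
      exact ⟨⟨fun _ => rfl, fun _ => h9⟩, h9.ne⟩
    · have hne' : N.nw f.1.2 ≠ N.nw y := fun h' => hf (N.nw_inj h')
      have h5 : ((N.BU : ℝ) + 1) ^ 2 / 4 ≤ ((ta N f : ℝ) - aw N y - ((N.BU : ℝ) - 1) / 2) ^ 2 := by
        rcases lt_or_gt_of_ne hne' with h2 | h2
        · have h3 := aw_lt N h2
          have h4 : (ta N f : ℝ) + 1 ≤ aw N y := by
            have : ta N f + 1 ≤ aw N y := by omega
            exact_mod_cast this
          nlinarith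
        · have h3 := aw_lt N h2
          have h4 : (aw N y : ℝ) + N.BU ≤ ta N f := by
            have : aw N y + N.BU ≤ ta N f := by omega
            exact_mod_cast this
          nlinarith
      have h6 : m₁ δ * (((N.BU : ℝ) + 1) ^ 2 / 4) ≤
          m₁ δ * ((ta N f : ℝ) - aw N y - ((N.BU : ℝ) - 1) / 2) ^ 2 :=
        mul_le_mul_of_nonneg_left h5 hm.le
      have h7 : m₁ δ * (((N.BU : ℝ) + 1) ^ 2 / 4) - m₁ δ * (N.BU : ℝ) ^ 2 / 4 =
          m₁ δ / 4 + m₁ δ * N.BU / 2 := by ring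
      have h8 : 0 < m₁ δ * N.BU := by positivity
      have h9 : m₁ δ / 4 < m₁ δ * ((ta N f : ℝ) - aw N y - ((N.BU : ℝ) - 1) / 2) ^ 2 -
          m₁ δ * (N.BU : ℝ) ^ 2 / 4 := by linarith
      exact ⟨iff_of_false (not_lt.2 h9.le) hf, h9.ne'⟩
  · -- level 6g
    rcases Nat.lt_or_eq_of_le hg with hgR | rfl
    · have h1 := out_left N (δ := δ) (c ⟨6 * g, by omega⟩ e : Vtx A R) f (by
        rw [ap_0]
        have : (g : ℝ) < R := by exact_mod_cast hgR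
        nlinarith)
      refine ⟨iff_of_false h1.1 ?_, h1.2⟩
      intro h2
      have h3 : crel3 R (6 * g) (6 * R + 1) (e = f) := h2
      unfold crel3 J3 at h3
      omega
    · have hc := contact N (σ := 0) hδ (c ⟨6 * g, by omega⟩ e : Vtx A g) f (ap_0 δ e g _) (by
        rw [ax_0, sy_0, add_zero])
      have hrel : Rel3 (c ⟨6 * g, by omega⟩ e : Vtx A g) (c ⟨6 * g + 1, by omega⟩ f) ↔ e = f := by
        show crel3 g (6 * g) (6 * g + 1) (e = f) ↔ e = f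
        unfold crel3 J3
        constructor
        · rintro ⟨h0, ⟨h3, -⟩ | h3⟩
          · exact h3
          · omega
        · intro h3
          exact ⟨by omega, Or.inl ⟨h3, Or.inl rfl⟩⟩
      rw [hc.1, hc.2, hrel, sy_0, sub_zero]
      by_cases hef : e = f
      · subst hef
        have h9 : m₁ δ * (hP N g e - hP N g e) ^ 2 < m₁ δ / 4 := by
          rw [sub_self]
          norm_num
          exact hm
        exact ⟨⟨fun _ => rfl, fun _ => h9⟩, h9.ne⟩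
      · have h1 := hP_sq N g hef
        have h9 : m₁ δ / 4 < m₁ δ * (hP N g e - hP N g f) ^ 2 := by nlinarith
        exact ⟨iff_of_false (not_lt.2 h9.le) hef, h9.ne'⟩
  · -- level 6g+2
    have h1 := out_left N (δ := δ) (c ⟨6 * g + 2, by omega⟩ e : Vtx A R) f (by
      rw [ap_2]
      have : (g : ℝ) < R := by exact_mod_cast hg
      nlinarith)
    refine ⟨iff_of_false h1.1 ?_, h1.2⟩
    intro h2
    have h3 : crel3 R (6 * g + 2) (6 * R + 1) (e = f) := h2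
    unfold crel3 J3 at h3
    omega
  · -- level 6g+4
    have h1 := out_left N (δ := δ) (c ⟨6 * g + 4, by omega⟩ e : Vtx A R) f (by
      rw [ap_4]
      have : (g : ℝ) < R := by exact_mod_cast hg
      nlinarith)
    refine ⟨iff_of_false h1.1 ?_, h1.2⟩
    intro h2
    have h3 : crel3 R (6 * g + 4) (6 * R + 1) (e = f) := h2
    unfold crel3 J3 at h3
    omega

end Pool.Agent.J4.H24.DG
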