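import Pool.Agent.J4.H24.DG.Defs3

/-!
# Almost unit disks: the disks of the levels `6 h + 3`
-/

set_option autoImplicit false

namespace Pool.Agent.J4.H24.DG

open Pool.Agent.NPC Pool.Agent.NPC.R671 Pool.Agent.W125.Dim Pool.Agent.Y815.GI
  Pool.Agent.J4.H79.GI Pool.Agent.W125.Dim.Vtx

variable {U W : Type} {A : U → W → Prop} {R : ℕ} (N : Num U W R)

namespace C3

/-! ### general lemmas -/

theorem of_in {δ : ℝ} {a b : Vtx A R} {P : Prop} (h : |ap δ a - bq N δ b| < br N δ b) (hP : P) :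
    (Ins N δ a b ↔ P) ∧ NonDeg N δ a b :=
  ⟨iff_of_true (Or.inl h) hP, fun h1 => absurd h1 h.ne⟩

theorem of_out {δ : ℝ} {a b : Vtx A R} {P : Prop} (h : br N δ b < |ap δ a - bq N δ b|)
    (hP : ¬ P) : (Ins N δ a b ↔ P) ∧ NonDeg N δ a b := by
  refine ⟨iff_of_false ?_ hP, fun h1 => absurd h1 h.ne'⟩
  rintro (h1 | ⟨h1, -⟩)
  · exact absurd h1 (not_lt.2 h.le)
  · exact absurd h1 h.ne'

theorem of_lt {δ : ℝ} {a b : Vtx A R} {P : Prop} (h : |ap δ a - bq N δ b| = br N δ b)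
    (h2 : 2 * (ap δ a - bq N δ b) * ax N δ a + (sy N a - bm N δ b * sy N b) ^ 2 <
      bo N δ b + bm N δ b * (bm N δ b - 1) * sy N b ^ 2) (hP : P) :
    (Ins N δ a b ↔ P) ∧ NonDeg N δ a b :=
  ⟨iff_of_true (Or.inr ⟨h, h2⟩) hP, fun _ => h2.ne⟩

theorem of_gt {δ : ℝ} {a b : Vtx A R} {P : Prop} (h : |ap δ a - bq N δ b| = br N δ b)
    (h2 : bo N δ b + bm N δ b * (bm N δ b - 1) * sy N b ^ 2 <
      2 * (ap δ a - bq N δ b) * ax N δ a + (sy N a - bm N δ b * sy N b) ^ 2) (hP : ¬ P) :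
    (Ins N δ a b ↔ P) ∧ NonDeg N δ a b := by
  refine ⟨iff_of_false ?_ hP, fun _ => h2.ne'⟩
  rintro (h1 | ⟨-, h1⟩)
  · exact absurd h h1.ne
  · exact absurd h1 (not_lt.2 h2.le)

theorem excess {r t M y s σ : ℝ} (ht : 0 < t) (hM : M = 1 - r / t) :
    2 * r * (-(y ^ 2 / (2 * t)) - σ) + (y - M * s) ^ 2 =
      M * (y - s) ^ 2 - 2 * r * σ + M * (M - 1) * s ^ 2 := by
  have h1 : r = t * (1 - M) := by
    rw [hM]
    field_simp
    ring
  rw [h1]
  field_simp
  ring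

/-! ### the constants -/

section
variable {δ : ℝ} (hδ : 0 < δ)

include hδ in
theorem rs_pos : 0 < rs δ := by
  unfold rs
  linarith

include hδ in
theorem m₁_mul : m₁ δ * (1 + δ) = δ := by
  unfold m₁ rs
  field_simp
  ring

include hδ in
theorem m₁_pos : 0 < m₁ δ := by
  have h := m₁_mul hδ
  by_contra h1
  push Not at h1
  nlinarith

include hδ in
theorem rs_m₁ : rs δ * (1 - m₁ δ) = 1 / 2 := by
  have h := m₁_mul hδ
  unfold rs
  linarith

omit hδ in
theorem m₂_mul (hR : 2 ≤ R) : m₂ N δ * (16 * Lh N ^ 2) = m₁ δ := by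
  have hL := Lh_ge N hR
  have h1 : (16 * Lh N ^ 2) ≠ 0 := by
    have : 0 < Lh N := by linarith
    positivity
  unfold m₂
  field_simp

include hδ in
theorem m₂_pos (hR : 2 ≤ R) : 0 < m₂ N δ := by
  have hL := Lh_ge N hR
  have h1 := m₁_pos hδ
  have : 0 < Lh N := by linarith
  unfold m₂
  positivity

include hδ in
theorem m₂_le (hR : 2 ≤ R) : m₂ N δ ≤ m₁ δ := by
  have hL := Lh_ge N hR
  have h1 := m₂_mul N (δ := δ) hR
  have h2 := m₂_pos N hδ hR
  have h3 : 1 ≤ 16 * Lh N ^ 2 := by nlinarith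
  calc m₂ N δ = m₂ N δ * 1 := (mul_one _).symm
    _ ≤ m₂ N δ * (16 * Lh N ^ 2) := mul_le_mul_of_nonneg_left h3 h2.le
    _ = m₁ δ := h1

end

/-! ### the coordinates of the levels -/

section
variable (δ : ℝ) (g : ℕ) (e : Inc A)

theorem ap_0 (h : 6 * g < 6 * R + 2) : ap δ (c ⟨6 * g, h⟩ e : Vtx A R) = 1 + g * δ := by
  show gp δ ((6 * g + 0) / 6) ((6 * g + 0) % 6) = _
  rw [(lev g 0 (by norm_num)).1, (lev g 0 (by norm_num)).2]
  rfl

theorem ap_2 (h : 6 * g + 2 < 6 * R + 2) : ap δ (c ⟨6 * g + 2, h⟩ e : Vtx A R) = g * δ := by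
  show gp δ ((6 * g + 2) / 6) ((6 * g + 2) % 6) = _
  rw [(lev g 2 (by norm_num)).1, (lev g 2 (by norm_num)).2]
  rfl

theorem ap_4 (h : 6 * g + 4 < 6 * R + 2) : ap δ (c ⟨6 * g + 4, h⟩ e : Vtx A R) = g * δ := by
  show gp δ ((6 * g + 4) / 6) ((6 * g + 4) % 6) = _
  rw [(lev g 4 (by norm_num)).1, (lev g 4 (by norm_num)).2]
  rfl

open Classical in
theorem ax_2 (h : 6 * g + 2 < 6 * R + 2) : ax N δ (c ⟨6 * g + 2, h⟩ e : Vtx A R) =
    -(hP N g e ^ 2 / (2 * rs δ)) - (if ta N e = g then m₁ δ / 8 else 0) := by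
  show gξ N δ ((6 * g + 2) / 6) ((6 * g + 2) % 6) e = _
  rw [(lev g 2 (by norm_num)).1, (lev g 2 (by norm_num)).2]
  rfl

theorem ax_4 (h : 6 * g + 4 < 6 * R + 2) : ax N δ (c ⟨6 * g + 4, h⟩ e : Vtx A R) =
    -(hP N (g + 1) e ^ 2 / (2 * rs δ)) - 0 := by
  rw [sub_zero]
  show gξ N δ ((6 * g + 4) / 6) ((6 * g + 4) % 6) e = _
  rw [(lev g 4 (by norm_num)).1, (lev g 4 (by norm_num)).2]
  rfl

theorem bq_3 (h : 6 * g + 3 < 6 * R + 2) : bq N δ (c ⟨6 * g + 3, h⟩ e : Vtx A R) =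
    g * δ - br N δ (c ⟨6 * g + 3, h⟩ e : Vtx A R) := by
  show gq N δ ((6 * g + 3) / 6) ((6 * g + 3) % 6) e =
    g * δ - gr N δ ((6 * g + 3) / 6) ((6 * g + 3) % 6) e
  rw [(lev g 3 (by norm_num)).1, (lev g 3 (by norm_num)).2]
  rfl

theorem br_3 (h : 6 * g + 3 < 6 * R + 2) (hm : ta N e ≠ g) :
    br N δ (c ⟨6 * g + 3, h⟩ e : Vtx A R) = 1 / 2 := by
  show gr N δ ((6 * g + 3) / 6) ((6 * g + 3) % 6) e = _
  rw [(lev g 3 (by norm_num)).1, (lev g 3 (by norm_num)).2]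
  exact if_neg hm

theorem br_3m (h : 6 * g + 3 < 6 * R + 2) (hm : ta N e = g) :
    br N δ (c ⟨6 * g + 3, h⟩ e : Vtx A R) = rs δ * (1 - m₂ N δ) := by
  show gr N δ ((6 * g + 3) / 6) ((6 * g + 3) % 6) e = _
  rw [(lev g 3 (by norm_num)).1, (lev g 3 (by norm_num)).2]
  exact if_pos hm

theorem bm_3 (h : 6 * g + 3 < 6 * R + 2) (hm : ta N e ≠ g) :
    bm N δ (c ⟨6 * g + 3, h⟩ e : Vtx A R) = m₁ δ := by
  show gm N δ ((6 * g + 3) / 6) ((6 * g + 3) % 6) e = _
  rw [(lev g 3 (by norm_num)).1, (lev g 3 (by norm_num)).2]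
  exact if_neg hm

theorem bm_3m (h : 6 * g + 3 < 6 * R + 2) (hm : ta N e = g) :
    bm N δ (c ⟨6 * g + 3, h⟩ e : Vtx A R) = m₂ N δ := by
  show gm N δ ((6 * g + 3) / 6) ((6 * g + 3) % 6) e = _
  rw [(lev g 3 (by norm_num)).1, (lev g 3 (by norm_num)).2]
  exact if_pos hm

theorem bo_3 (h : 6 * g + 3 < 6 * R + 2) (hm : ta N e ≠ g) :
    bo N δ (c ⟨6 * g + 3, h⟩ e : Vtx A R) = m₁ δ / 4 := by
  show go N δ ((6 * g + 3) / 6) ((6 * g + 3) % 6) e = _
  rw [(lev g 3 (by norm_num)).1, (lev g 3 (by norm_num)).2]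
  exact if_neg hm

theorem bo_3m (h : 6 * g + 3 < 6 * R + 2) (hm : ta N e = g) :
    bo N δ (c ⟨6 * g + 3, h⟩ e : Vtx A R) = m₂ N δ / 8 := by
  show go N δ ((6 * g + 3) / 6) ((6 * g + 3) % 6) e = _
  rw [(lev g 3 (by norm_num)).1, (lev g 3 (by norm_num)).2]
  exact if_pos hm

end

/-- the radii -/
theorem br_mem (hR : 2 ≤ R) {δ : ℝ} (hδ : 0 < δ) (h : ℕ) (hh : 6 * h + 3 < 6 * R + 2) (f : Inc A) :
    1 / 2 ≤ br N δ (c ⟨6 * h + 3, hh⟩ f : Vtx A R) ∧
      bm N δ (c ⟨6 * h + 3, hh⟩ f : Vtx A R) =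
        1 - br N δ (c ⟨6 * h + 3, hh⟩ f : Vtx A R) / rs δ := by
  have ht := rs_pos hδ
  have h1 := rs_m₁ hδ
  have h2 := m₂_le N hδ hR
  by_cases hm : ta N f = h
  · rw [br_3m N δ h f hh hm, bm_3m N δ h f hh hm]
    constructor
    · nlinarith
    · field_simp
      ring
  · rw [br_3 N δ h f hh hm, bm_3 N δ h f hh hm]
    constructor
    · exact le_rfl
    · unfold m₁
      field_simp

end C3

theorem ins_b3 (hR : 2 ≤ R) {δ : ℝ} (hδ : 0 < δ) (hδ' : (R + 1) * δ < 1 / 2) (a : Vtx A R) (ha : Low a)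
    (h : ℕ) (hh : h < R) (f : Inc A) : (Ins N δ a (c ⟨6 * h + 3, by omega⟩ f) ↔
      Rel3 a (c ⟨6 * h + 3, by omega⟩ f)) ∧ NonDeg N δ a (c ⟨6 * h + 3, by omega⟩ f) := by
  have ht := C3.rs_pos hδ
  have hm1 := C3.m₁_pos hδ
  have hm2 := C3.m₂_pos N hδ hR
  have hm12 := C3.m₂_mul N (δ := δ) hR
  have hL := Lh_ge N hR
  obtain ⟨hr, hM⟩ := C3.br_mem N hR hδ h (by omega) f
  have hhR : (h : ℝ) + 1 ≤ R := by exact_mod_cast hh
  have h0 : (0 : ℝ) ≤ h := Nat.cast_nonneg h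
  have hhδ : (h : ℝ) * δ < 1 / 2 := by nlinarith
  have hbq := C3.bq_3 N δ h f (by omega)
  rcases low_cases ha with ⟨y, rfl⟩ | ⟨g, hg, e, rfl⟩ | ⟨g, hg, e, rfl⟩ | ⟨g, hg, e, rfl⟩
  · -- `w y`
    refine C3.of_out N ?_ ?_
    · rw [hbq]
      refine lt_of_lt_of_le ?_ (le_abs_self _)
      show _ < (1 : ℝ) + R * δ - _
      have h1 : 0 ≤ (R : ℝ) * δ := by positivity
      linarith
    · rintro ⟨h1, -⟩
      simp only at h1
      omega
  · -- level `6 g`
    refine C3.of_out N ?_ ?_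
    · rw [hbq, C3.ap_0]
      refine lt_of_lt_of_le ?_ (le_abs_self _)
      have h1 : 0 ≤ (g : ℝ) * δ := by positivity
      linarith
    · show ¬ crel3 R (6 * g) (6 * h + 3) (e = f)
      rintro ⟨h0, ⟨-, h1⟩ | ⟨h1, h2⟩ | ⟨h1, h2, h3⟩ | ⟨h1, h2⟩⟩ <;> omega
  · -- level `6 g + 2`
    rcases lt_trichotomy g h with hgh | hgh | hgh
    · refine C3.of_in N ?_ ?_
      · rw [hbq, C3.ap_2, abs_lt]
        have h1 : (g : ℝ) + 1 ≤ h := by exact_mod_cast hgh
        have h2 : (0 : ℝ) ≤ g := Nat.cast_nonneg g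
        constructor <;> nlinarith
      · show crel3 R (6 * g + 2) (6 * h + 3) (e = f)
        exact ⟨by omega, Or.inr (Or.inr (Or.inl ⟨by omega, by omega, by omega⟩))⟩
    · subst hgh
      have hrel : Rel3 (c ⟨6 * g + 2, by omega⟩ e : Vtx A R) (c ⟨6 * g + 3, by omega⟩ f) ↔ e = f := by
        show crel3 R (6 * g + 2) (6 * g + 3) (e = f) ↔ e = f
        constructor
        · rintro ⟨h0, ⟨h1, -⟩ | ⟨h1, h2⟩ | ⟨h1, h2, h3⟩ | ⟨h1, h2⟩⟩
          · exact h1
          · omega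
          · omega
          · omega
        · intro h1
          exact ⟨by omega, Or.inl ⟨h1, by omega⟩⟩
      rw [hrel]
      have hD : ap δ (c ⟨6 * g + 2, by omega⟩ e : Vtx A R) -
          bq N δ (c ⟨6 * g + 3, by omega⟩ f : Vtx A R) =
            br N δ (c ⟨6 * g + 3, by omega⟩ f : Vtx A R) := by
        rw [hbq, C3.ap_2]
        ring
      have hDa : |ap δ (c ⟨6 * g + 2, by omega⟩ e : Vtx A R) -
          bq N δ (c ⟨6 * g + 3, by omega⟩ f : Vtx A R)| =
            br N δ (c ⟨6 * g + 3, by omega⟩ f : Vtx A R) := by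
        rw [hD]
        exact abs_of_nonneg (by linarith)
      have hE := fun σ : ℝ => C3.excess (r := br N δ (c ⟨6 * g + 3, by omega⟩ f : Vtx A R))
        (M := bm N δ (c ⟨6 * g + 3, by omega⟩ f : Vtx A R)) (t := rs δ)
        (y := sy N (c ⟨6 * g + 2, by omega⟩ e : Vtx A R))
        (s := sy N (c ⟨6 * g + 3, by omega⟩ f : Vtx A R)) (σ := σ) ht hM
      by_cases hm : ta N f = g
      · by_cases hef : e = f
        · subst hef
          refine C3.of_lt N hDa ?_ rfl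
          have hE1 := hE (m₁ δ / 8)
          rw [hD, C3.ax_2, if_pos hm]
          rw [sy_2] at hE1 ⊢
          rw [hE1]
          have hy := sy_abs N hR (c ⟨6 * g + 2, by omega⟩ e : Vtx A R) (c ⟨6 * g + 3, by omega⟩ e)
          rw [sy_2] at hy
          have hy2 : (hP N g e - sy N (c ⟨6 * g + 3, by omega⟩ e : Vtx A R)) ^ 2 ≤ Lh N ^ 2 := by
            rw [← sq_abs (hP N g e - sy N (c ⟨6 * g + 3, by omega⟩ e : Vtx A R))]
            exact pow_le_pow_left₀ (abs_nonneg _) hy 2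
          rw [C3.bo_3m N δ g e (by omega) hm]
          have h5 : bm N δ (c ⟨6 * g + 3, by omega⟩ e : Vtx A R) = m₂ N δ :=
            C3.bm_3m N δ g e (by omega) hm
          rw [h5]
          have h6 : m₂ N δ * (hP N g e - sy N (c ⟨6 * g + 3, by omega⟩ e : Vtx A R)) ^ 2 ≤
              m₂ N δ * Lh N ^ 2 := mul_le_mul_of_nonneg_left hy2 hm2.le
          have h7 : m₂ N δ * Lh N ^ 2 = m₁ δ / 16 := by linarith
          have h8 : m₁ δ / 8 ≤ 2 * br N δ (c ⟨6 * g + 3, by omega⟩ e : Vtx A R) * (m₁ δ / 8) := by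
            nlinarith
          linarith
        · refine C3.of_gt N hDa ?_ hef
          have hE1 := hE 0
          have hme : ta N e ≠ g := fun h1 => hef ((ta_inj N e f).1 (h1.trans hm.symm))
          rw [hD, C3.ax_2, if_neg hme]
          rw [sy_2] at hE1 ⊢
          rw [hE1, C3.bo_3m N δ g f (by omega) hm, C3.bm_3m N δ g f (by omega) hm,
            sy_3m N g f (by omega) hm]
          have := hP_half' N g e f
          nlinarith
      · by_cases hef : e = f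
        · subst hef
          refine C3.of_lt N hDa ?_ rfl
          have hE1 := hE 0
          rw [hD, C3.ax_2, if_neg hm]
          rw [sy_2] at hE1 ⊢
          rw [hE1, C3.bo_3 N δ g e (by omega) hm, C3.bm_3 N δ g e (by omega) hm,
            sy_3 N g e (by omega) hm]
          nlinarith
        · refine C3.of_gt N hDa ?_ hef
          obtain ⟨z, hz, hz'⟩ := hP_ne N g hef
          have h9 := (quarter z hz).1
          have hy : hP N g e - (hP N g f + 1 / 4) = z - 1 / 4 := by linarith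
          have hr2 := C3.br_3 N δ g f (by omega) hm
          by_cases hme : ta N e = g
          · have hE1 := hE (m₁ δ / 8)
            rw [hD, C3.ax_2, if_pos hme]
            rw [sy_2] at hE1 ⊢
            rw [hE1, C3.bo_3 N δ g f (by omega) hm, C3.bm_3 N δ g f (by omega) hm,
              sy_3 N g f (by omega) hm, hy, hr2]
            nlinarith
          · have hE1 := hE 0
            rw [hD, C3.ax_2, if_neg hme]
            rw [sy_2] at hE1 ⊢
            rw [hE1, C3.bo_3 N δ g f (by omega) hm, C3.bm_3 N δ g f (by omega) hm,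
              sy_3 N g f (by omega) hm, hy]
            nlinarith
    · refine C3.of_out N ?_ ?_
      · rw [hbq, C3.ap_2]
        refine lt_of_lt_of_le ?_ (le_abs_self _)
        have h1 : (h : ℝ) + 1 ≤ g := by exact_mod_cast hgh
        nlinarith
      · show ¬ crel3 R (6 * g + 2) (6 * h + 3) (e = f)
        rintro ⟨h0, ⟨-, h1⟩ | ⟨h1, h2⟩ | ⟨h1, h2, h3⟩ | ⟨h1, h2⟩⟩ <;> omega
  · -- level `6 g + 4`
    rcases lt_trichotomy g h with hgh | hgh | hgh
    · refine C3.of_in N ?_ ?_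
      · rw [hbq, C3.ap_4, abs_lt]
        have h1 : (g : ℝ) + 1 ≤ h := by exact_mod_cast hgh
        have h2 : (0 : ℝ) ≤ g := Nat.cast_nonneg g
        constructor <;> nlinarith
      · show crel3 R (6 * g + 4) (6 * h + 3) (e = f)
        exact ⟨by omega, Or.inr (Or.inr (Or.inl ⟨by omega, by omega, by omega⟩))⟩
    · subst hgh
      have hrel : Rel3 (c ⟨6 * g + 4, by omega⟩ e : Vtx A R) (c ⟨6 * g + 3, by omega⟩ f) ↔ e = f := by
        show crel3 R (6 * g + 4) (6 * g + 3) (e = f) ↔ e = f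
        constructor
        · rintro ⟨h0, ⟨h1, -⟩ | ⟨h1, h2⟩ | ⟨h1, h2, h3⟩ | ⟨h1, h2⟩⟩
          · exact h1
          · omega
          · omega
          · omega
        · intro h1
          exact ⟨by omega, Or.inl ⟨h1, by omega⟩⟩
      rw [hrel]
      have hD : ap δ (c ⟨6 * g + 4, by omega⟩ e : Vtx A R) -
          bq N δ (c ⟨6 * g + 3, by omega⟩ f : Vtx A R) =
            br N δ (c ⟨6 * g + 3, by omega⟩ f : Vtx A R) := by
        rw [hbq, C3.ap_4]
        ring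
      have hDa : |ap δ (c ⟨6 * g + 4, by omega⟩ e : Vtx A R) -
          bq N δ (c ⟨6 * g + 3, by omega⟩ f : Vtx A R)| =
            br N δ (c ⟨6 * g + 3, by omega⟩ f : Vtx A R) := by
        rw [hD]
        exact abs_of_nonneg (by linarith)
      have hE1 := C3.excess (r := br N δ (c ⟨6 * g + 3, by omega⟩ f : Vtx A R))
        (M := bm N δ (c ⟨6 * g + 3, by omega⟩ f : Vtx A R)) (t := rs δ)
        (y := sy N (c ⟨6 * g + 4, by omega⟩ e : Vtx A R))
        (s := sy N (c ⟨6 * g + 3, by omega⟩ f : Vtx A R)) (σ := 0) ht hM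
      rw [sy_4] at hE1
      by_cases hm : ta N f = g
      · by_cases hef : e = f
        · subst hef
          refine C3.of_lt N hDa ?_ rfl
          rw [hD, C3.ax_4, sy_4, hE1, C3.bo_3m N δ g e (by omega) hm,
            C3.bm_3m N δ g e (by omega) hm, sy_3m N g e (by omega) hm]
          nlinarith
        · refine C3.of_gt N hDa ?_ hef
          rw [hD, C3.ax_4, sy_4, hE1, C3.bo_3m N δ g f (by omega) hm,
            C3.bm_3m N δ g f (by omega) hm, sy_3m N g f (by omega) hm]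
          have := hP_sq N (g + 1) hef
          nlinarith
      · have hst := hP_step N g f hm
        by_cases hef : e = f
        · subst hef
          refine C3.of_lt N hDa ?_ rfl
          rw [hD, C3.ax_4, sy_4, hE1, C3.bo_3 N δ g e (by omega) hm,
            C3.bm_3 N δ g e (by omega) hm, sy_3 N g e (by omega) hm, hst]
          nlinarith
        · refine C3.of_gt N hDa ?_ hef
          obtain ⟨z, hz, hz'⟩ := hP_ne N (g + 1) hef
          have h9 := (quarter z hz).2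
          have hy : hP N (g + 1) e - (hP N g f + 1 / 4) = z + 1 / 4 := by linarith
          rw [hD, C3.ax_4, sy_4, hE1, C3.bo_3 N δ g f (by omega) hm,
            C3.bm_3 N δ g f (by omega) hm, sy_3 N g f (by omega) hm, hy]
          nlinarith
    · refine C3.of_out N ?_ ?_
      · rw [hbq, C3.ap_4]
        refine lt_of_lt_of_le ?_ (le_abs_self _)
        have h1 : (h : ℝ) + 1 ≤ g := by exact_mod_cast hgh
        nlinarith
      · show ¬ crel3 R (6 * g + 4) (6 * h + 3) (e = f)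
        rintro ⟨h0, ⟨-, h1⟩ | ⟨h1, h2⟩ | ⟨h1, h2, h3⟩ | ⟨h1, h2⟩⟩ <;> omega

end Pool.Agent.J4.H24.DG
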