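import Pool.Agent.J4.H24.DG.Defs3

/-!
# Almost unit disks: the levels `6 h + 5`
-/

set_option autoImplicit false

namespace Pool.Agent.J4.H24.DG

open Pool.Agent.NPC Pool.Agent.NPC.R671 Pool.Agent.W125.Dim Pool.Agent.Y815.GI
  Pool.Agent.J4.H79.GI Pool.Agent.W125.Dim.Vtx

variable {U W : Type} {A : U → W → Prop} {R : ℕ}

namespace C5Aux

theorem cls {D T L S : ℝ} {Rel : Prop} (h : (|D| < T ∧ Rel) ∨ (T < |D| ∧ ¬ Rel) ∨
    (|D| = T ∧ ((L < S ∧ Rel) ∨ (S < L ∧ ¬ Rel)))) :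
    ((|D| < T ∨ (|D| = T ∧ L < S)) ↔ Rel) ∧ (|D| = T → L ≠ S) := by
  rcases h with ⟨h1, h2⟩ | ⟨h1, h2⟩ | ⟨h1, ⟨h2, h3⟩ | ⟨h2, h3⟩⟩
  · exact ⟨⟨fun _ => h2, fun _ => Or.inl h1⟩, fun h => absurd h h1.ne⟩
  · refine ⟨⟨fun h => ?_, fun h => absurd h h2⟩, fun h => absurd h h1.ne'⟩
    rcases h with h | ⟨h, _⟩
    · exact absurd h h1.not_gt
    · exact absurd h h1.ne'
  · exact ⟨⟨fun _ => h3, fun _ => Or.inr ⟨h1, h2⟩⟩, fun _ => h2.ne⟩
  · refine ⟨⟨fun h => ?_, fun h => absurd h h3⟩, fun _ => h2.ne'⟩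
    rcases h with h | ⟨_, h⟩
    · exact absurd h1 h.ne
    · exact absurd h h2.not_gt

variable (N : Num U W R) (δ : ℝ) (g : ℕ) (e : Inc A)

theorem ap_0 (h : 6 * g < 6 * R + 2) : ap δ (c ⟨6 * g, h⟩ e : Vtx A R) = 1 + g * δ := by
  show gp δ ((6 * g + 0) / 6) ((6 * g + 0) % 6) = _
  rw [(lev g 0 (by norm_num)).1, (lev g 0 (by norm_num)).2]
  rfl

theorem ap_2 (h : 6 * g + 2 < 6 * R + 2) : ap δ (c ⟨6 * g + 2, h⟩ e : Vtx A R) = g * δ := by
  show gp δ ((6 * g + 2) / 6) ((6 * g + 2) % 6) = _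
  rw [(lev g 2 (by norm_num)).1, (lev g 2 (by norm_num)).2]
  rfl

theorem ap_4 (h : 6 * g + 4 < 6 * R + 2) : ap δ (c ⟨6 * g + 4, h⟩ e : Vtx A R) = g * δ := by
  show gp δ ((6 * g + 4) / 6) ((6 * g + 4) % 6) = _
  rw [(lev g 4 (by norm_num)).1, (lev g 4 (by norm_num)).2]
  rfl

theorem ax_0 (h : 6 * g < 6 * R + 2) :
    ax N δ (c ⟨6 * g, h⟩ e : Vtx A R) = hP N g e ^ 2 / (2 * rs δ) := by
  show gξ N δ ((6 * g + 0) / 6) ((6 * g + 0) % 6) e = _
  rw [(lev g 0 (by norm_num)).1, (lev g 0 (by norm_num)).2]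
  rfl

open Classical in
theorem ax_2 (h : 6 * g + 2 < 6 * R + 2) :
    ax N δ (c ⟨6 * g + 2, h⟩ e : Vtx A R) =
      -(hP N g e ^ 2 / (2 * rs δ)) - (if ta N e = g then m₁ δ / 8 else 0) := by
  show gξ N δ ((6 * g + 2) / 6) ((6 * g + 2) % 6) e = _
  rw [(lev g 2 (by norm_num)).1, (lev g 2 (by norm_num)).2]
  unfold gξ
  show -(gy N g 2 e ^ 2 / (2 * rs δ)) - _ = _
  congr

theorem ax_4 (h : 6 * g + 4 < 6 * R + 2) :
    ax N δ (c ⟨6 * g + 4, h⟩ e : Vtx A R) = -(hP N (g + 1) e ^ 2 / (2 * rs δ)) := by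
  show gξ N δ ((6 * g + 4) / 6) ((6 * g + 4) % 6) e = _
  rw [(lev g 4 (by norm_num)).1, (lev g 4 (by norm_num)).2]
  rfl

theorem bq_5 (h : 6 * g + 5 < 6 * R + 2) :
    bq N δ (c ⟨6 * g + 5, h⟩ e : Vtx A R) = g * δ + (1 + δ) / 2 := by
  show gq N δ ((6 * g + 5) / 6) ((6 * g + 5) % 6) e = _
  rw [(lev g 5 (by norm_num)).1, (lev g 5 (by norm_num)).2]
  rfl

theorem br_5 (h : 6 * g + 5 < 6 * R + 2) :
    br N δ (c ⟨6 * g + 5, h⟩ e : Vtx A R) = (1 + δ) / 2 := by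
  show gr N δ ((6 * g + 5) / 6) ((6 * g + 5) % 6) e = _
  rw [(lev g 5 (by norm_num)).1, (lev g 5 (by norm_num)).2]
  rfl

theorem bm_5 (h : 6 * g + 5 < 6 * R + 2) :
    bm N δ (c ⟨6 * g + 5, h⟩ e : Vtx A R) = 2 := by
  show gm N δ ((6 * g + 5) / 6) ((6 * g + 5) % 6) e = _
  rw [(lev g 5 (by norm_num)).1, (lev g 5 (by norm_num)).2]
  rfl

theorem bo_5 (h : 6 * g + 5 < 6 * R + 2) :
    bo N δ (c ⟨6 * g + 5, h⟩ e : Vtx A R) = m₁ δ / 8 := by
  show go N δ ((6 * g + 5) / 6) ((6 * g + 5) % 6) e = _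
  rw [(lev g 5 (by norm_num)).1, (lev g 5 (by norm_num)).2]
  rfl

theorem m1_eq {δ : ℝ} (hδ : 0 < δ) : m₁ δ = δ / (1 + δ) := by
  unfold m₁ rs
  field_simp
  ring

theorem m1_pos {δ : ℝ} (hδ : 0 < δ) : 0 < m₁ δ := by
  rw [m1_eq hδ]
  positivity

theorem m1_lt {δ : ℝ} (hδ : 0 < δ) (h1 : δ < 1) : m₁ δ < 1 / 2 := by
  rw [m1_eq hδ, div_lt_div_iff₀ (by linarith) (by norm_num)]
  linarith

end C5Aux

open C5Aux in
theorem ins_b5 (N : Num U W R) (hR : 2 ≤ R) {δ : ℝ} (hδ : 0 < δ) (hδ' : (R + 1) * δ < 1 / 2)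
    (a : Vtx A R) (ha : Low a)
    (h : ℕ) (hh : h < R) (f : Inc A) : (Ins N δ a (c ⟨6 * h + 5, by omega⟩ f) ↔
      Rel3 a (c ⟨6 * h + 5, by omega⟩ f)) ∧ NonDeg N δ a (c ⟨6 * h + 5, by omega⟩ f) := by
  have hRr : (2 : ℝ) ≤ R := by exact_mod_cast hR
  have hhR : (h : ℝ) + 1 ≤ R := by exact_mod_cast hh
  have hh0 : (0 : ℝ) ≤ h := Nat.cast_nonneg _
  have hδ1 : δ < 1 := by nlinarith
  have hm0 := m1_pos hδ
  have hm1 := m1_lt hδ hδ1
  unfold Ins NonDeg
  rw [bq_5, br_5, bm_5, bo_5, sy_5]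
  have hT : (0 : ℝ) < 1 + δ := by linarith
  have hrs : 2 * rs δ = 1 + δ := by unfold rs; ring
  -- products with `δ`
  have hmul : ∀ {x y : ℕ}, x < y → (x : ℝ) * δ + δ ≤ y * δ := by
    intro x y hxy
    have h1 : (x : ℝ) + 1 ≤ y := by exact_mod_cast hxy
    nlinarith
  have hle : ∀ {x : ℕ}, x ≤ R → (x : ℝ) * δ < 1 / 2 - δ := by
    intro x hx
    have h1 : (x : ℝ) ≤ R := by exact_mod_cast hx
    nlinarith
  have hnn : ∀ x : ℕ, 0 ≤ (x : ℝ) * δ := fun x => by positivity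
  have hhδ := hle hh.le
  have hhn := hnn h
  rcases low_cases ha with ⟨y, rfl⟩ | ⟨g, hg, e, rfl⟩ | ⟨g, hg, e, rfl⟩ | ⟨g, hg, e, rfl⟩
  · -- the points `w y`
    have hrel : ¬ Rel3 (w y : Vtx A R) (c ⟨6 * h + 5, by omega⟩ f) := by
      rintro ⟨h1, -⟩
      have h1' : 6 * h + 5 = 6 * R + 1 := h1
      omega
    have e1 : ap δ (w y : Vtx A R) = 1 + R * δ := rfl
    have e2 : ax N δ (w y : Vtx A R) = sy N (w y : Vtx A R) ^ 2 / (2 * rs δ) +
      m₁ δ * (N.BU : ℝ) ^ 2 / 4 := rfl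
    rw [e1, e2, hrs]
    have hBU := BU1 N
    apply cls
    rcases Nat.lt_or_ge (h + 1) R with h1 | h1
    · refine Or.inr (Or.inl ⟨?_, hrel⟩)
      have h2 := hmul h1
      push_cast at h2
      rw [lt_abs]
      left
      linarith
    · have h2 : h + 1 = R := by omega
      have h3 : (R : ℝ) = h + 1 := by rw [← h2]; push_cast; ring
      refine Or.inr (Or.inr ⟨?_, Or.inr ⟨?_, hrel⟩⟩)
      · rw [h3, abs_of_pos] <;> linarith
      · set s := sy N (w y : Vtx A R) with hs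
        set k := hP N (h + 1) f with hk
        have h4 : 2 * (1 + (R : ℝ) * δ - ((h : ℝ) * δ + (1 + δ) / 2)) = 1 + δ := by
          rw [h3]
          ring
        have h5 : 2 * (1 + (R : ℝ) * δ - ((h : ℝ) * δ + (1 + δ) / 2)) *
            (s ^ 2 / (1 + δ) + m₁ δ * (N.BU : ℝ) ^ 2 / 4) =
            s ^ 2 + (1 + δ) * (m₁ δ * (N.BU : ℝ) ^ 2 / 4) := by
          rw [h4]
          field_simp
        rw [h5]
        have h6 : m₁ δ ≤ m₁ δ * (N.BU : ℝ) ^ 2 := le_mul_of_one_le_right hm0.le (one_le_pow₀ hBU)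
        nlinarith [sq_nonneg (s - k), mul_pos hδ hm0]
  · -- level `6 g`
    rw [ap_0, ax_0, sy_0, hrs]
    have hrel : Rel3 (c ⟨6 * g, by omega⟩ e : Vtx A R) (c ⟨6 * h + 5, by omega⟩ f) ↔
        (g ≤ h ∨ (g = h + 1 ∧ e = f)) := by
      show crel3 R (6 * g) (6 * h + 5) (e = f) ↔ _
      unfold crel3 J3
      constructor
      · rintro ⟨_, ⟨h1, h2⟩ | h1 | h1 | h1⟩
        · right
          exact ⟨by omega, h1⟩
        all_goals left; omega
      · rintro (h1 | ⟨h1, h2⟩)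
        · exact ⟨by omega, Or.inr (by omega)⟩
        · exact ⟨by omega, Or.inl ⟨h2, by omega⟩⟩
    rw [hrel]
    have hgδ := hle hg
    have hgn := hnn g
    apply cls
    rcases Nat.lt_trichotomy g (h + 1) with h1 | h1 | h1
    · refine Or.inl ⟨?_, Or.inl (by omega)⟩
      have h2 := hmul h1
      push_cast at h2
      rw [abs_lt]
      constructor <;> linarith
    · refine Or.inr (Or.inr ⟨?_, ?_⟩)
      · rw [h1]
        push_cast
        rw [abs_of_pos] <;> linarith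
      · have h4 : 2 * (1 + (g : ℝ) * δ - ((h : ℝ) * δ + (1 + δ) / 2)) = 1 + δ := by
          rw [h1]
          push_cast
          ring
        have h5 : 2 * (1 + (g : ℝ) * δ - ((h : ℝ) * δ + (1 + δ) / 2)) *
            (hP N g e ^ 2 / (1 + δ)) = hP N g e ^ 2 := by
          rw [h4]
          field_simp
        rw [h5, h1]
        by_cases hef : e = f
        · left
          refine ⟨?_, Or.inr ⟨rfl, hef⟩⟩
          rw [hef]
          nlinarith
        · right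
          refine ⟨?_, ?_⟩
          · have := hP_sq N (h + 1) hef
            nlinarith
          · rintro (h6 | ⟨_, h6⟩)
            · omega
            · exact hef h6
    · refine Or.inr (Or.inl ⟨?_, ?_⟩)
      · have h2 := hmul h1
        push_cast at h2
        rw [lt_abs]
        left
        linarith
      · rintro (h6 | ⟨h6, _⟩) <;> omega
  · -- level `6 g + 2`
    rw [ap_2, ax_2, sy_2, hrs]
    have hrel : Rel3 (c ⟨6 * g + 2, by omega⟩ e : Vtx A R) (c ⟨6 * h + 5, by omega⟩ f) ↔ h < g := by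
      show crel3 R (6 * g + 2) (6 * h + 5) (e = f) ↔ _
      unfold crel3 J3
      constructor
      · rintro ⟨_, ⟨h1, h2⟩ | h1 | h1 | h1⟩ <;> omega
      · intro h1
        exact ⟨by omega, Or.inr (by omega)⟩
    rw [hrel]
    have hgδ := hle hg.le
    have hgn := hnn g
    apply cls
    rcases Nat.lt_trichotomy g h with h1 | h1 | h1
    · refine Or.inr (Or.inl ⟨?_, by omega⟩)
      have h2 := hmul h1
      rw [lt_abs]
      right
      linarith
    · refine Or.inr (Or.inr ⟨?_, Or.inr ⟨?_, by omega⟩⟩)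
      · rw [h1, abs_of_neg] <;> linarith
      · have h4 : 2 * ((g : ℝ) * δ - ((h : ℝ) * δ + (1 + δ) / 2)) = -(1 + δ) := by
          rw [h1]
          ring
        rw [h4, h1]
        have h5 := hP_half' N h e f
        have h6 : -(1 + δ) * (-(hP N h e ^ 2 / (1 + δ)) - (if ta N e = h then m₁ δ / 8 else 0)) =
            hP N h e ^ 2 + (1 + δ) * (if ta N e = h then m₁ δ / 8 else 0) := by
          field_simp
          ring
        rw [h6]
        have h7 : 0 ≤ (1 + δ) * (if ta N e = h then m₁ δ / 8 else 0) := by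
          split_ifs
          · positivity
          · simp
        nlinarith
    · refine Or.inl ⟨?_, h1⟩
      have h2 := hmul h1
      rw [abs_lt]
      constructor <;> linarith
  · -- level `6 g + 4`
    rw [ap_4, ax_4, sy_4, hrs]
    have hrel : Rel3 (c ⟨6 * g + 4, by omega⟩ e : Vtx A R) (c ⟨6 * h + 5, by omega⟩ f) ↔
        (h < g ∨ (g = h ∧ e = f)) := by
      show crel3 R (6 * g + 4) (6 * h + 5) (e = f) ↔ _
      unfold crel3 J3
      constructor
      · rintro ⟨_, ⟨h1, h2⟩ | h1 | h1 | h1⟩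
        · right
          exact ⟨by omega, h1⟩
        all_goals left; omega
      · rintro (h1 | ⟨h1, h2⟩)
        · exact ⟨by omega, Or.inr (by omega)⟩
        · exact ⟨by omega, Or.inl ⟨h2, by omega⟩⟩
    rw [hrel]
    have hgδ := hle hg.le
    have hgn := hnn g
    apply cls
    rcases Nat.lt_trichotomy g h with h1 | h1 | h1
    · refine Or.inr (Or.inl ⟨?_, ?_⟩)
      · have h2 := hmul h1
        rw [lt_abs]
        right
        linarith
      · rintro (h6 | ⟨h6, _⟩) <;> omega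
    · refine Or.inr (Or.inr ⟨?_, ?_⟩)
      · rw [h1, abs_of_neg] <;> linarith
      · have h4 : 2 * ((g : ℝ) * δ - ((h : ℝ) * δ + (1 + δ) / 2)) = -(1 + δ) := by
          rw [h1]
          ring
        rw [h4, h1]
        have h6 : -(1 + δ) * (-(hP N (h + 1) e ^ 2 / (1 + δ))) = hP N (h + 1) e ^ 2 := by
          field_simp
        rw [h6]
        by_cases hef : e = f
        · left
          refine ⟨?_, Or.inr ⟨rfl, hef⟩⟩
          rw [hef]
          nlinarith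
        · right
          refine ⟨?_, ?_⟩
          · have := hP_sq N (h + 1) hef
            nlinarith
          · rintro (h6 | ⟨_, h6⟩)
            · omega
            · exact hef h6
    · refine Or.inl ⟨?_, Or.inl h1⟩
      have h2 := hmul h1
      rw [abs_lt]
      constructor <;> linarith

end Pool.Agent.J4.H24.DG
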