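import Pool.Agent.J4.H24.DG.Defs

/-!
# Two cliques instead of two independent sets, for the modified gadgets
-/

set_option autoImplicit false

namespace Pool.Agent.J4.H24.DG

open Pool.Agent.NPC Pool.Agent.NPC.R671 Pool.Agent.W125.Dim Pool.Agent.Y815.GI
  Pool.Agent.J4.H79.GI Pool.Agent.W125.Dim.Vtx

variable {U W U' W' : Type} {A : U → W → Prop} {A' : U' → W' → Prop} {R : ℕ}

namespace Cb

theorem adj_not_same {x y : Vtx A R} (h : (XG2 A R).Adj x y) : ¬ (Low x ↔ Low y) := by
  rcases h with h | h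
  · have := Rel2_low h; tauto
  · have := Rel2_low h; tauto

theorem adj_iff (x y : Vtx A R) :
    (XG2 A R).Adj x y ↔ (BG2 A R).Adj x y ∧ ¬ (Low x ↔ Low y) := by
  constructor
  · intro h
    exact ⟨⟨h.ne, Or.inr h⟩, adj_not_same h⟩
  · rintro ⟨⟨-, h⟩, h'⟩
    exact h.resolve_left h'

/-- a lower vertex is adjacent to at most one of the vertices `c 1 f` -/
theorem low_one {x : Vtx A R} (hx : Low x) (hR : 0 < R) {f g : Inc A}
    (h1 : (XG2 A R).Adj x (c ⟨1, by omega⟩ f)) (h2 : (XG2 A R).Adj x (c ⟨1, by omega⟩ g)) :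
    f = g := by
  have h1' : Rel2 x (c ⟨1, by omega⟩ f) := h1.resolve_right fun h => (Rel2_low h).2 hx
  have h2' : Rel2 x (c ⟨1, by omega⟩ g) := h2.resolve_right fun h => (Rel2_low h).2 hx
  match x, h1', h2' with
  | c l e, h1', h2' =>
    rcases h1' with ⟨-, ⟨h, -⟩ | ⟨h, -⟩ | ⟨h, -⟩⟩
    · rcases h2' with ⟨-, ⟨h', -⟩ | ⟨h', -⟩ | ⟨h', -⟩⟩
      · rw [← h, ← h']
      · simp only at h'; omega
      · simp only at h'; omega
    · simp only at h; omega
    · simp only at h; omega
  | w y, ⟨h0, _⟩, _ => simp only at h0; omega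

/-- an upper vertex is adjacent to at most one of the vertices `c (6 R) f` -/
theorem up_top {x : Vtx A R} (hx : ¬ Low x) (hR : 0 < R) {f g : Inc A}
    (h1 : (XG2 A R).Adj (c ⟨6 * R, by omega⟩ f) x) (h2 : (XG2 A R).Adj (c ⟨6 * R, by omega⟩ g) x) :
    f = g := by
  have h1' : Rel2 (c ⟨6 * R, by omega⟩ f) x := h1.resolve_right fun h => hx (Rel2_low h).1
  have h2' : Rel2 (c ⟨6 * R, by omega⟩ g) x := h2.resolve_right fun h => hx (Rel2_low h).1
  match x, h1', h2' with
  | c l e, h1', h2' =>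
    have hl := l.2
    rcases h1' with ⟨-, ⟨h, -⟩ | ⟨h, h3⟩ | ⟨h, h3⟩⟩
    · rcases h2' with ⟨-, ⟨h', -⟩ | ⟨h', h4⟩ | ⟨h', h4⟩⟩
      · rw [h, h']
      · simp only at h4; omega
      · simp only at h4; omega
    · simp only at h3; omega
    · simp only at h3; omega
  | u y, ⟨h0, _⟩, _ => simp only at h0; omega

/-- The two parts are determined by the graph. -/
theorem same_iff (hR : 0 < R) (h3 : Three A) (x y : Vtx A R) (hne : x ≠ y) :
    (Low x ↔ Low y) ↔ ∃ z, z ≠ x ∧ z ≠ y ∧ ¬ (BG2 A R).Adj z x ∧ ¬ (BG2 A R).Adj z y := by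
  constructor
  · intro h
    obtain ⟨e, f, g, hef, heg, hfg⟩ := h3
    -- a vertex of the other part which is adjacent to neither of them
    have key : ∃ z : Vtx A R, ¬ (Low z ↔ Low x) ∧ ¬ (XG2 A R).Adj z x ∧ ¬ (XG2 A R).Adj z y := by
      by_cases hx : Low x
      · have hy := h.1 hx
        have hz : ∀ f : Inc A, ¬ (Low (c ⟨1, by omega⟩ f : Vtx A R) ↔ Low x) := fun f hh =>
          absurd (hh.2 hx) (by show ¬ (1 : ℕ) % 2 = 0; omega)
        by_contra hc
        have k : ∀ f : Inc A, (XG2 A R).Adj x (c ⟨1, by omega⟩ f) ∨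
            (XG2 A R).Adj y (c ⟨1, by omega⟩ f) := by
          intro f
          by_contra h1
          rw [not_or] at h1
          exact hc ⟨_, hz f, fun h => h1.1 h.symm, fun h => h1.2 h.symm⟩
        rcases k e with a | a <;> rcases k f with b | b <;> rcases k g with d | d
        · exact hef (low_one hx hR a b)
        · exact hef (low_one hx hR a b)
        · exact heg (low_one hx hR a d)
        · exact hfg (low_one hy hR b d)
        · exact hfg (low_one hx hR b d)
        · exact heg (low_one hy hR a d)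
        · exact hef (low_one hy hR a b)
        · exact hef (low_one hy hR a b)
      · have hy : ¬ Low y := fun hy => hx (h.2 hy)
        have hz : ∀ f : Inc A, ¬ (Low (c ⟨6 * R, by omega⟩ f : Vtx A R) ↔ Low x) := fun f hh =>
          hx (hh.1 (show (6 * R) % 2 = 0 by omega))
        by_contra hc
        have k : ∀ f : Inc A, (XG2 A R).Adj (c ⟨6 * R, by omega⟩ f) x ∨
            (XG2 A R).Adj (c ⟨6 * R, by omega⟩ f) y := by
          intro f
          by_contra h1
          rw [not_or] at h1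
          exact hc ⟨_, hz f, h1.1, h1.2⟩
        rcases k e with a | a <;> rcases k f with b | b <;> rcases k g with d | d
        · exact hef (up_top hx hR a b)
        · exact hef (up_top hx hR a b)
        · exact heg (up_top hx hR a d)
        · exact hfg (up_top hy hR b d)
        · exact hfg (up_top hx hR b d)
        · exact heg (up_top hy hR a d)
        · exact hef (up_top hy hR a b)
        · exact hef (up_top hy hR a b)
    obtain ⟨z, h1, h2, h3⟩ := key
    refine ⟨z, ?_, ?_, ?_, ?_⟩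
    · rintro rfl; exact h1 Iff.rfl
    · rintro rfl; exact h1 h.symm
    · rintro ⟨-, h4 | h4⟩
      · exact h1 h4
      · exact h2 h4
    · rintro ⟨-, h4 | h4⟩
      · exact h1 (h4.trans h.symm)
      · exact h3 h4
  · rintro ⟨z, h1, h2, h4, h5⟩
    by_contra hc
    by_cases h6 : Low z ↔ Low x
    · exact h4 ⟨h1, Or.inl h6⟩
    · exact h5 ⟨h2, Or.inl (by tauto)⟩

/-- An isomorphism of the graphs with cliques is an isomorphism of the bipartite graphs. -/
def toXG2 (hR : 0 < R) (h : Three A) (h' : Three A') (φ : BG2 A R ≃g BG2 A' R) :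
    XG2 A R ≃g XG2 A' R where
  toEquiv := φ.toEquiv
  map_rel_iff' := by
    intro x y
    show (XG2 A' R).Adj (φ x) (φ y) ↔ (XG2 A R).Adj x y
    by_cases hxy : x = y
    · subst hxy
      simp
    · rw [adj_iff, adj_iff, φ.map_adj_iff, same_iff hR h x y hxy,
        same_iff hR h' (φ x) (φ y) (fun hc => hxy (φ.injective hc))]
      refine and_congr Iff.rfl (not_congr ?_)
      constructor
      · rintro ⟨z, h1, h2, h3, h4⟩
        refine ⟨φ.symm z, ?_, ?_, ?_, ?_⟩
        · rintro rfl; exact h1 (φ.apply_symm_apply z).symm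
        · rintro rfl; exact h2 (φ.apply_symm_apply z).symm
        · rw [← φ.map_adj_iff, φ.apply_symm_apply]; exact h3
        · rw [← φ.map_adj_iff, φ.apply_symm_apply]; exact h4
      · rintro ⟨z, h1, h2, h3, h4⟩
        refine ⟨φ z, fun hc => h1 (φ.injective hc), fun hc => h2 (φ.injective hc), ?_, ?_⟩
        · rw [φ.map_adj_iff]; exact h3
        · rw [φ.map_adj_iff]; exact h4

theorem crel2_mono {l k : ℕ} {p q : Prop} (h : p → q) : crel2 l k p → crel2 l k q := by
  rintro ⟨h0, ⟨h1, h2⟩ | h1⟩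
  · exact ⟨h0, Or.inl ⟨h h1, h2⟩⟩
  · exact ⟨h0, Or.inr h1⟩

theorem Rel2_map (α : U → U') (β : W → W') (h : ∀ x y, A x y → A' (α x) (β y))
    (v v' : Vtx A R) (hv : Rel2 v v') : Rel2 (mapV α β h v) (mapV α β h v') := by
  match v, v', hv with
  | c l e, c k f, hv =>
    exact crel2_mono (by rintro rfl; rfl) hv
  | c l e, u x, ⟨h0, hx⟩ => exact ⟨h0, by rw [← hx]⟩
  | w y, c l e, ⟨h0, hy⟩ => exact ⟨h0, by rw [← hy]⟩

theorem Rel2_map_iff (α : U ≃ U') (β : W ≃ W') (h : ∀ x y, A x y ↔ A' (α x) (β y)) (v v' : Vtx A R) :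
    Rel2 (mapV α β (fun x y => (h x y).1) v) (mapV α β (fun x y => (h x y).1) v') ↔ Rel2 v v' := by
  refine ⟨fun hv => ?_, Rel2_map _ _ _ _ _⟩
  match v, v', hv with
  | c l e, c k f, hv =>
    refine crel2_mono ?_ hv
    intro he
    have h1 := congrArg (fun z => z.1.1) he
    have h2 := congrArg (fun z => z.1.2) he
    exact Subtype.ext (Prod.ext (α.injective h1) (β.injective h2))
  | c l e, u x, ⟨h0, hx⟩ => exact ⟨h0, α.injective hx⟩
  | w y, c l e, ⟨h0, hy⟩ => exact ⟨h0, β.injective hy⟩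

/-- The converse for the isomorphisms which come from the incidence relations. -/
def ofXG2 (α : U ≃ U') (β : W ≃ W') (h : ∀ x y, A x y ↔ A' (α x) (β y)) :
    BG2 A R ≃g BG2 A' R where
  toEquiv := (mapIso α β h).toEquiv
  map_rel_iff' := by
    intro x y
    have h1 : (XG2 A' R).Adj (mapV α β (fun x y => (h x y).1) x) (mapV α β (fun x y => (h x y).1) y) ↔
        (XG2 A R).Adj x y := or_congr (Rel2_map_iff α β h x y) (Rel2_map_iff α β h y x)
    have h2 : mapV α β (fun x y => (h x y).1) x = mapV α β (fun x y => (h x y).1) y ↔ x = y :=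
      (mapIso α β h : XG A R ≃g XG A' R).injective.eq_iff
    show (mapV α β (fun x y => (h x y).1) x ≠ mapV α β (fun x y => (h x y).1) y ∧ _) ↔ _
    exact and_congr (not_congr h2) (or_congr (iff_congr (low_mapV α β (fun x y => (h x y).1) x)
      (low_mapV α β (fun x y => (h x y).1) y)) h1)

end Cb

theorem exists_toXG2 (hR : 0 < R) (h : Three A) (h' : Three A')
    (hφ : Nonempty (BG2 A R ≃g BG2 A' R)) : Nonempty (XG2 A R ≃g XG2 A' R) := by
  obtain ⟨φ⟩ := hφ
  exact ⟨Cb.toXG2 hR h h' φ⟩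

theorem exists_ofXG2 (α : U ≃ U') (β : W ≃ W') (h : ∀ x y, A x y ↔ A' (α x) (β y)) :
    Nonempty (BG2 A R ≃g BG2 A' R) := ⟨Cb.ofXG2 α β h⟩

end Pool.Agent.J4.H24.DG
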