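import Pool.Agent.J4.H24.DG.Defs3

/-!
# Almost unit disks: the disks of the elements of `U`, and the size of the radii
-/

set_option autoImplicit false

namespace Pool.Agent.J4.H24.DG

open Pool.Agent.NPC Pool.Agent.NPC.R671 Pool.Agent.W125.Dim Pool.Agent.Y815.GI
  Pool.Agent.J4.H79.GI Pool.Agent.W125.Dim.Vtx

variable {U W : Type} {A : U → W → Prop} {R : ℕ} (N : Num U W R)

namespace CuAux

/-- a point which is macroscopically outside -/
theorem outside {δ : ℝ} {a b : Vtx A R} (h : br N δ b < |ap δ a - bq N δ b|) :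
    ¬ Ins N δ a b ∧ NonDeg N δ a b := by
  refine ⟨?_, fun h1 => absurd h1 h.ne'⟩
  rintro (h1 | ⟨h1, -⟩)
  · exact absurd h1 (not_lt.2 h.le)
  · exact absurd h1 h.ne'

theorem ap_6 (δ : ℝ) (g : ℕ) (e : Inc A) (h : 6 * g < 6 * R + 2) :
    ap δ (c ⟨6 * g, h⟩ e : Vtx A R) = 1 + g * δ := by
  show gp δ ((6 * g + 0) / 6) ((6 * g + 0) % 6) = _
  rw [(lev g 0 (by norm_num)).1, (lev g 0 (by norm_num)).2]
  rfl

theorem ap_2 (δ : ℝ) (g : ℕ) (e : Inc A) (h : 6 * g + 2 < 6 * R + 2) :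
    ap δ (c ⟨6 * g + 2, h⟩ e : Vtx A R) = g * δ := by
  show gp δ ((6 * g + 2) / 6) ((6 * g + 2) % 6) = _
  rw [(lev g 2 (by norm_num)).1, (lev g 2 (by norm_num)).2]
  rfl

theorem ap_4 (δ : ℝ) (g : ℕ) (e : Inc A) (h : 6 * g + 4 < 6 * R + 2) :
    ap δ (c ⟨6 * g + 4, h⟩ e : Vtx A R) = g * δ := by
  show gp δ ((6 * g + 4) / 6) ((6 * g + 4) % 6) = _
  rw [(lev g 4 (by norm_num)).1, (lev g 4 (by norm_num)).2]
  rfl

theorem ax_6 (δ : ℝ) (g : ℕ) (e : Inc A) (h : 6 * g < 6 * R + 2) :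
    ax N δ (c ⟨6 * g, h⟩ e : Vtx A R) = hP N g e ^ 2 / (2 * rs δ) := by
  show gξ N δ ((6 * g + 0) / 6) ((6 * g + 0) % 6) e = _
  rw [(lev g 0 (by norm_num)).1, (lev g 0 (by norm_num)).2]
  rfl

/-- the excess at a contact from the right -/
theorem excess {δ r y h o : ℝ} (hδ : 0 < δ) :
    2 * r * (y ^ 2 / (2 * rs δ)) + (y - (1 + 2 * r / (1 + δ)) * h) ^ 2 -
      ((1 + 2 * r / (1 + δ)) * o +
        (1 + 2 * r / (1 + δ)) * ((1 + 2 * r / (1 + δ)) - 1) * h ^ 2) =
      (1 + 2 * r / (1 + δ)) * ((y - h) ^ 2 - o) := by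
  unfold rs
  have h1 : (1 + δ) ≠ 0 := by positivity
  field_simp
  ring

theorem gr_close {δ : ℝ} (hδ : 0 < δ) (g i : ℕ) (e : Inc A) :
    |gr N δ g i e - 1 / 2| ≤ δ := by
  have hL : 4 ≤ Lh N := by
    have h1 := BU1 N
    have h2 := BW1 N
    have h3 : (0 : ℝ) ≤ R := Nat.cast_nonneg _
    unfold Lh
    nlinarith
  have hL2 : 1 ≤ 16 * Lh N ^ 2 := by nlinarith
  have h1 : rs δ * m₁ δ = δ / 2 := by
    unfold m₁ rs
    field_simp
    ring
  have hrs : 0 < rs δ := by
    unfold rs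
    positivity
  have h2 : 0 ≤ rs δ * m₂ N δ ∧ rs δ * m₂ N δ ≤ δ / 2 := by
    have h3 : rs δ * m₂ N δ = (δ / 2) / (16 * Lh N ^ 2) := by
      unfold m₂
      rw [← h1]
      ring
    rw [h3]
    exact ⟨by positivity, div_le_self (by positivity) hL2⟩
  unfold gr
  split
  · simp
    exact hδ.le
  · split_ifs
    · have h4 : rs δ * (1 - m₂ N δ) - 1 / 2 = δ / 2 - rs δ * m₂ N δ := by
        unfold rs
        ring
      rw [h4, abs_le]
      constructor <;> linarith [h2.1, h2.2]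
    · simp
      exact hδ.le
  · have h4 : (1 + δ) / 2 - 1 / 2 = δ / 2 := by ring
    rw [h4, abs_of_nonneg (by positivity)]
    linarith

end CuAux

open CuAux

theorem br_close {δ : ℝ} (hδ : 0 < δ) (hδ' : (R + 1) * δ < 1 / 2) (b : Vtx A R) :
    |br N δ b - 1 / 2| ≤ (R + 1) * δ := by
  have hR : (0 : ℝ) ≤ R := Nat.cast_nonneg _
  have h0 : 0 ≤ (R : ℝ) * δ := by positivity
  match b with
  | u x =>
    show |(1 - R * δ) / 2 - 1 / 2| ≤ _
    rw [abs_le]
    constructor <;> linarith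
  | w y =>
    show |(1 : ℝ) / 2 - 1 / 2| ≤ _
    rw [sub_self, abs_zero]
    linarith
  | c l e =>
    refine (gr_close N hδ _ _ e).trans ?_
    linarith

theorem ins_u (hR : 2 ≤ R) {δ : ℝ} (hδ : 0 < δ) (hδ' : (R + 1) * δ < 1 / 2) (a : Vtx A R) (ha : Low a)
    (x : U) : (Ins N δ a (u x) ↔ Rel3 a (u x)) ∧ NonDeg N δ a (u x) := by
  have hR' : (2 : ℝ) ≤ R := by exact_mod_cast hR
  have h0 : 0 < (R : ℝ) * δ := by positivity
  have hbr : br N δ (u x : Vtx A R) = (1 - R * δ) / 2 := rfl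
  have hbq : bq N δ (u x : Vtx A R) = 1 - (1 - R * δ) / 2 := rfl
  have hr : 0 < (1 - R * δ) / 2 := by linarith
  rcases low_cases ha with ⟨y, rfl⟩ | ⟨g, hg, e, rfl⟩ | ⟨g, hg, e, rfl⟩ | ⟨g, hg, e, rfl⟩
  · obtain ⟨h1, h2⟩ := outside N (δ := δ) (a := (w y : Vtx A R)) (b := u x) (by
      rw [hbr, hbq]
      show _ < |1 + R * δ - _|
      refine lt_of_lt_of_le ?_ (le_abs_self _)
      linarith)
    exact ⟨iff_of_false h1 id, h2⟩
  · rcases Nat.eq_zero_or_pos g with rfl | hg0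
    · have hD : ap δ (c ⟨6 * 0, by omega⟩ e : Vtx A R) - bq N δ (u x : Vtx A R) =
          (1 - R * δ) / 2 := by
        rw [ap_6, hbq]
        push_cast
        ring
      have hk := excess (δ := δ) (r := (1 - R * δ) / 2) (y := hP N 0 e)
        (h := sy N (u x : Vtx A R)) (o := (N.BW : ℝ) ^ 2 / 4) hδ
      have hM : 1 + 2 * ((1 - R * δ) / 2) / (1 + δ) = bm N δ (u x : Vtx A R) := by
        show _ = 1 + (1 - R * δ) / (1 + δ)
        congr 1
        ring
      have hMpos : 0 < bm N δ (u x : Vtx A R) := by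
        rw [← hM]
        positivity
      have hbo : bo N δ (u x : Vtx A R) = bm N δ (u x : Vtx A R) * ((N.BW : ℝ) ^ 2 / 4) := by
        show (1 + (1 - R * δ) / (1 + δ)) * (N.BW : ℝ) ^ 2 / 4 =
          (1 + (1 - R * δ) / (1 + δ)) * ((N.BW : ℝ) ^ 2 / 4)
        ring
      rw [hM] at hk
      have hsy : sy N (c ⟨6 * 0, by omega⟩ e : Vtx A R) = hP N 0 e := sy_0 N 0 e _
      have hax : ax N δ (c ⟨6 * 0, by omega⟩ e : Vtx A R) = hP N 0 e ^ 2 / (2 * rs δ) :=
        ax_6 N δ 0 e _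
      have hsu : sy N (u x : Vtx A R) = (au N x : ℝ) + ((N.BW : ℝ) - 1) / 2 := rfl
      have hfst := hP_first N e
      have hB := BW1 N
      have hn := N.nw_lt e.1.2
      have hio : io N e = au N e.1.1 + N.nw e.1.2 := rfl
      have hrel : Rel3 (c ⟨6 * 0, by omega⟩ e : Vtx A R) (u x) ↔ e.1.1 = x := by
        show (6 * 0 = 0 ∧ e.1.1 = x) ↔ _
        simp
      have habs : |ap δ (c ⟨6 * 0, by omega⟩ e : Vtx A R) - bq N δ (u x : Vtx A R)| =
          br N δ (u x : Vtx A R) := by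
        rw [hD, hbr, abs_of_pos hr]
      by_cases hex : e.1.1 = x
      · have hin : (hP N 0 e - sy N (u x : Vtx A R)) ^ 2 - (N.BW : ℝ) ^ 2 / 4 < 0 := by
          have h1 : (io N e : ℝ) = au N e.1.1 + N.nw e.1.2 := by
            rw [hio]
            push_cast
            ring
          have h2 : (N.nw e.1.2 : ℝ) + 1 ≤ N.BW := by exact_mod_cast hn
          have h3 : (0 : ℝ) ≤ N.nw e.1.2 := Nat.cast_nonneg _
          rw [hfst, hsu, h1, ← hex]
          nlinarith
        have hneg := mul_neg_of_pos_of_neg hMpos hin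
        rw [← hk] at hneg
        have hlt : 2 * (ap δ (c ⟨6 * 0, by omega⟩ e : Vtx A R) - bq N δ (u x : Vtx A R)) *
            ax N δ (c ⟨6 * 0, by omega⟩ e : Vtx A R) +
            (sy N (c ⟨6 * 0, by omega⟩ e : Vtx A R) -
              bm N δ (u x : Vtx A R) * sy N (u x : Vtx A R)) ^ 2 <
            bo N δ (u x : Vtx A R) + bm N δ (u x : Vtx A R) * (bm N δ (u x : Vtx A R) - 1) *
              sy N (u x : Vtx A R) ^ 2 := by
          rw [hD, hax, hsy, hbo]
          linarith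
        exact ⟨iff_of_true (Or.inr ⟨habs, hlt⟩) (hrel.2 hex), fun _ => hlt.ne⟩
      · have hout : 0 < (hP N 0 e - sy N (u x : Vtx A R)) ^ 2 - (N.BW : ℝ) ^ 2 / 4 := by
          have hne' : N.nu e.1.1 ≠ N.nu x := fun h' => hex (N.nu_inj h')
          rw [hfst, hsu]
          rcases lt_or_gt_of_ne hne' with h1 | h1
          · have h2 := au_lt N h1
            have h3 : (io N e : ℝ) + 1 ≤ au N x := by
              have : io N e + 1 ≤ au N x := by omega
              exact_mod_cast this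
            nlinarith
          · have h2 := au_lt N h1
            have h3 : (au N x : ℝ) + N.BW ≤ io N e := by
              have : au N x + N.BW ≤ io N e := by omega
              exact_mod_cast this
            nlinarith
        have hpos := mul_pos hMpos hout
        rw [← hk] at hpos
        have hgt : bo N δ (u x : Vtx A R) +
            bm N δ (u x : Vtx A R) * (bm N δ (u x : Vtx A R) - 1) * sy N (u x : Vtx A R) ^ 2 <
            2 * (ap δ (c ⟨6 * 0, by omega⟩ e : Vtx A R) - bq N δ (u x : Vtx A R)) *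
            ax N δ (c ⟨6 * 0, by omega⟩ e : Vtx A R) +
            (sy N (c ⟨6 * 0, by omega⟩ e : Vtx A R) -
              bm N δ (u x : Vtx A R) * sy N (u x : Vtx A R)) ^ 2 := by
          rw [hD, hax, hsy, hbo]
          linarith
        refine ⟨iff_of_false ?_ (fun h => hex (hrel.1 h)), fun _ => hgt.ne'⟩
        rintro (h | ⟨-, h⟩)
        · exact absurd habs h.ne
        · exact absurd h (not_lt.2 hgt.le)
    · obtain ⟨h1, h2⟩ := outside N (δ := δ) (a := (c ⟨6 * g, by omega⟩ e : Vtx A R)) (b := u x) (by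
        rw [hbr, hbq, ap_6]
        have h3 : (1 : ℝ) ≤ g := by exact_mod_cast hg0
        have h4 : 0 < (g : ℝ) * δ := by positivity
        refine lt_of_lt_of_le ?_ (le_abs_self _)
        linarith)
      refine ⟨iff_of_false h1 ?_, h2⟩
      show ¬ (6 * g = 0 ∧ e.1.1 = x)
      omega
  · obtain ⟨h1, h2⟩ := outside N (δ := δ) (a := (c ⟨6 * g + 2, by omega⟩ e : Vtx A R)) (b := u x) (by
      rw [hbr, hbq, ap_2]
      have h3 : (g : ℝ) + 1 ≤ R := by exact_mod_cast hg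
      have h4 : (g : ℝ) * δ < R * δ := by nlinarith
      refine lt_of_lt_of_le ?_ (neg_le_abs _)
      linarith)
    refine ⟨iff_of_false h1 ?_, h2⟩
    show ¬ (6 * g + 2 = 0 ∧ e.1.1 = x)
    omega
  · obtain ⟨h1, h2⟩ := outside N (δ := δ) (a := (c ⟨6 * g + 4, by omega⟩ e : Vtx A R)) (b := u x) (by
      rw [hbr, hbq, ap_4]
      have h3 : (g : ℝ) + 1 ≤ R := by exact_mod_cast hg
      have h4 : (g : ℝ) * δ < R * δ := by nlinarith
      refine lt_of_lt_of_le ?_ (neg_le_abs _)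
      linarith)
    refine ⟨iff_of_false h1 ?_, h2⟩
    show ¬ (6 * g + 4 = 0 ∧ e.1.1 = x)
    omega

end Pool.Agent.J4.H24.DG
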