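import Pool.Agent.J4.H79.GI.BallRed

/-!
# Disk graphs: definitions

Intersection graphs of closed balls of arbitrary radii; the modified gadgets; the coordinates.
-/

set_option autoImplicit false

namespace Pool.Agent.J4.H24.DG

open Pool.Agent.NPC Pool.Agent.NPC.R671 Pool.Agent.W125.Dim Pool.Agent.Y815.GI
  Pool.Agent.J4.H79.GI Pool.Agent.W125.Dim.Vtx

/-- `X` is the intersection graph of a family of closed balls of positive radii of the metric space
`E`: the vertices can be given centres and radii such that two different vertices are adjacent iff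
their balls meet.  For the Euclidean plane these are the disk graphs; for the plane with the
maximum norm these are the intersection graphs of axis-parallel squares. -/
def IsBallGraph (E : Type) [PseudoMetricSpace E] {V : Type} (X : SimpleGraph V) : Prop :=
  ∃ (z : V → E) (r : V → ℝ), (∀ v, 0 < r v) ∧ ∀ u v : V, X.Adj u v ↔
    u ≠ v ∧ (Metric.closedBall (z u) (r u) ∩ Metric.closedBall (z v) (r v)).Nonempty

/-! ### The order of height two -/

/-- level `l` of a strand lies below level `k` of a strand (`same`: the same strand) -/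
def crel2 (l k : ℕ) (same : Prop) : Prop :=
  l % 2 = 0 ∧ ((same ∧ (k = l + 1 ∨ l = k + 1)) ∨ (k % 6 = 3 ∧ l + 3 < k) ∨
    (k % 6 = 5 ∧ (k = l + 5 ∨ l = k + 3 ∨ l = k + 5)))

variable {U W : Type} {A : U → W → Prop} {R : ℕ}

/-- the strict order of the construction -/
def Rel2 : Vtx A R → Vtx A R → Prop
  | c l e, c k f => crel2 l k (e = f)
  | c l e, u x => (l : ℕ) = 0 ∧ e.1.1 = x
  | w y, c l e => (l : ℕ) = 6 * R + 1 ∧ e.1.2 = y
  | _, _ => False

theorem Rel2_low {x y : Vtx A R} (h : Rel2 x y) : Low x ∧ ¬ Low y := by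
  match x, y, h with
  | c l e, c k f, h =>
    show (l : ℕ) % 2 = 0 ∧ ¬ (k : ℕ) % 2 = 0
    rcases h with ⟨h0, ⟨_, h3⟩ | ⟨h1, h2⟩ | ⟨h1, h2⟩⟩ <;> omega
  | c l e, u x, ⟨h0, h1⟩ =>
    refine ⟨?_, id⟩
    show (l : ℕ) % 2 = 0
    omega
  | w y, c l e, ⟨h0, h1⟩ =>
    refine ⟨trivial, ?_⟩
    show ¬ (l : ℕ) % 2 = 0
    omega

/-- the bipartite graph -/
def XG2 (A : U → W → Prop) (R : ℕ) : SimpleGraph (Vtx A R) where
  Adj x y := Rel2 x y ∨ Rel2 y x
  symm := ⟨fun _ _ h => Or.symm h⟩
  loopless := ⟨fun _ h => h.elim (fun h => (Rel2_low h).2 (Rel2_low h).1)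
    (fun h => (Rel2_low h).2 (Rel2_low h).1)⟩

/-- the graph with two cliques -/
def BG2 (A : U → W → Prop) (R : ℕ) : SimpleGraph (Vtx A R) where
  Adj x y := x ≠ y ∧ ((Low x ↔ Low y) ∨ (XG2 A R).Adj x y)
  symm := ⟨fun _ _ h => ⟨h.1.symm, h.2.imp Iff.symm SimpleGraph.Adj.symm⟩⟩
  loopless := ⟨fun _ h => h.1 rfl⟩

/-- at least three neighbours -/
def Big2 (v : Vtx A R) : Prop :=
  ∃ a b c, a ≠ b ∧ a ≠ c ∧ b ≠ c ∧ (XG2 A R).Adj v a ∧ (XG2 A R).Adj v b ∧ (XG2 A R).Adj v c

/-- the hypotheses on the incidence relation: three strands; every element is incident to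
something; no element of `W` is incident to three elements of `U`; the strands do not all have the
same first (second) element -/
structure Hyp (A : U → W → Prop) : Prop where
  three : Three A
  left : ∀ x, ∃ y, A x y
  right : ∀ y, ∃ x, A x y
  two : ∀ y, ¬ ∃ x₁ x₂ x₃, x₁ ≠ x₂ ∧ x₁ ≠ x₃ ∧ x₂ ≠ x₃ ∧ A x₁ y ∧ A x₂ y ∧ A x₃ y
  left_ne : ∀ x, ∃ e : Inc A, e.1.1 ≠ x
  right_ne : ∀ y, ∃ e : Inc A, e.1.2 ≠ y

/-! ### The coordinates: points for the lower vertices, disks for the others -/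

section coordinates

variable (N : Num U W R)

/-- a bound of all differences of heights -/
noncomputable def Lh : ℝ := 2 * ((N.BU : ℝ) * N.BW) + 2 * R + 2
/-- the width of a gadget -/
noncomputable def wd : ℝ := 8 * Lh N ^ 2
/-- the large radius -/
noncomputable def cb : ℝ := (R + 1) * wd N
/-- the very large radius -/
noncomputable def cc : ℝ := 8 * cb N * Lh N ^ 2
/-- the small shift -/
noncomputable def et : ℝ := 1 / (8 * cb N)

/-- height of the strand before gadget `g` -/
noncomputable def hP (g : ℕ) (e : Inc A) : ℝ := ((pos (ta N e) (io N e) g : ℤ) : ℝ) + g / 2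

open Classical in
/-- first coordinate, level `i` of gadget `g` -/
noncomputable def gx (g i : ℕ) (e : Inc A) : ℝ :=
  match i with
  | 0 => g * wd N
  | 1 => if g = R then g * wd N + Lh N ^ 2 else g * wd N - (wd N - 1) / 2
  | 2 => (g - 1) * wd N + 1 - (if ta N e = g then et N else 0)
  | 3 => (g - 1) * wd N + 1 - (if ta N e = g then cc N else cb N)
  | 4 => (g - 1) * wd N + 1
  | _ => g * wd N + 1 / 2

open Classical in
/-- second coordinate, level `i` of gadget `g` -/
noncomputable def gy (g i : ℕ) (e : Inc A) : ℝ :=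
  match i with
  | 0 => hP N g e
  | 1 => hP N g e
  | 2 => hP N g e
  | 3 => if ta N e = g then hP N (g + 1) e else hP N g e + 1 / 4
  | 4 => hP N (g + 1) e
  | _ => hP N (g + 1) e

open Classical in
/-- square of the radius, level `i` of gadget `g` -/
noncomputable def gs (g i : ℕ) (e : Inc A) : ℝ :=
  match i with
  | 1 => if g = R then (Lh N ^ 2) ^ 2 + 1 / 4 else ((wd N - 1) / 2) ^ 2 + 1 / 8
  | 3 => if ta N e = g then cc N ^ 2 + 1 / 16 else cb N ^ 2 + 1 / 4
  | _ => (wd N - 1 / 2) ^ 2 + 1 / 8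

/-- first coordinate -/
noncomputable def sx : Vtx A R → ℝ
  | u _ => -Lh N ^ 2
  | w _ => R * wd N + (N.BU : ℝ) ^ 2 / (8 * Lh N ^ 2)
  | c l e => gx N (l / 6) (l % 6) e

/-- second coordinate -/
noncomputable def sy : Vtx A R → ℝ
  | u x => (au N x : ℝ) + ((N.BW : ℝ) - 1) / 2
  | w y => -((aw N y : ℝ) + ((N.BU : ℝ) - 1) / 2 + 1) + R / 2
  | c l e => gy N (l / 6) (l % 6) e

/-- square of the radius -/
noncomputable def ss : Vtx A R → ℝ
  | u _ => (Lh N ^ 2) ^ 2 + (N.BW : ℝ) ^ 2 / 4
  | w _ => 1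
  | c l e => gs N (l / 6) (l % 6) e

/-- the point lies in the disk -/
def Inside (a b : Vtx A R) : Prop := (sx N a - sx N b) ^ 2 + (sy N a - sy N b) ^ 2 ≤ ss N b

end coordinates

end Pool.Agent.J4.H24.DG
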