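import Pool.Agent.J4.H24.DG.Defs

/-!
# Common lemmas for the coordinates
-/

set_option autoImplicit false

namespace Pool.Agent.J4.H24.DG

open Pool.Agent.NPC Pool.Agent.NPC.R671 Pool.Agent.W125.Dim Pool.Agent.Y815.GI
  Pool.Agent.J4.H79.GI Pool.Agent.W125.Dim.Vtx

variable {U W : Type} {A : U → W → Prop} {R : ℕ} (N : Num U W R)

/-! ### circles -/

theorem out_of {D r δ s y : ℝ} (hr : 0 ≤ r) (hδ : 0 ≤ δ) (hD : r + δ ≤ |D|) (h : s < 2 * r * δ) :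
    ¬ (D ^ 2 + y ^ 2 ≤ r ^ 2 + s) := by
  intro h1
  have h2 : (r + δ) ^ 2 ≤ D ^ 2 := by
    rw [← sq_abs D]
    exact pow_le_pow_left₀ (by linarith) hD 2
  nlinarith [sq_nonneg y, sq_nonneg δ]

theorem in_of {D r δ s y L : ℝ} (hD : |D| ≤ r - δ) (hy : |y| ≤ L)
    (h : L ^ 2 + δ ^ 2 ≤ 2 * r * δ + s) : D ^ 2 + y ^ 2 ≤ r ^ 2 + s := by
  have h1 : D ^ 2 ≤ (r - δ) ^ 2 := by
    rw [← sq_abs D]
    exact pow_le_pow_left₀ (abs_nonneg _) hD 2
  have h2 : y ^ 2 ≤ L ^ 2 := by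
    rw [← sq_abs y]
    exact pow_le_pow_left₀ (abs_nonneg _) hy 2
  nlinarith

theorem eq_of {D r s y : ℝ} (hD : D ^ 2 = r ^ 2) : D ^ 2 + y ^ 2 ≤ r ^ 2 + s ↔ y ^ 2 ≤ s := by
  rw [hD]
  constructor <;> intro h <;> linarith

/-! ### the constants -/

theorem BU1 : (1 : ℝ) ≤ N.BU := by exact_mod_cast N.BU_pos
theorem BW1 : (1 : ℝ) ≤ N.BW := by exact_mod_cast N.BW_pos

theorem Lh_ge (hR : 2 ≤ R) : 8 ≤ Lh N := by
  have h1 := BU1 N
  have h2 := BW1 N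
  have h3 : (2 : ℝ) ≤ R := by exact_mod_cast hR
  unfold Lh
  nlinarith

theorem BU_le (hR : 2 ≤ R) : (N.BU : ℝ) ≤ Lh N / 2 := by
  have h1 := BU1 N
  have h2 := BW1 N
  have h3 : (2 : ℝ) ≤ R := by exact_mod_cast hR
  unfold Lh
  nlinarith

theorem BW_le (hR : 2 ≤ R) : (N.BW : ℝ) ≤ Lh N / 2 := by
  have h1 := BU1 N
  have h2 := BW1 N
  have h3 : (2 : ℝ) ≤ R := by exact_mod_cast hR
  unfold Lh
  nlinarith

theorem wd_eq : wd N = 8 * Lh N ^ 2 := rfl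

theorem wd_ge (hR : 2 ≤ R) : 512 ≤ wd N := by
  have := Lh_ge N hR
  rw [wd_eq]
  nlinarith

theorem cb_eq : cb N = (R + 1) * wd N := rfl

theorem cb_ge (hR : 2 ≤ R) : 3 * wd N ≤ cb N := by
  have h3 : (2 : ℝ) ≤ R := by exact_mod_cast hR
  have := wd_ge N hR
  rw [cb_eq]
  nlinarith

theorem cc_eq : cc N = 8 * cb N * Lh N ^ 2 := rfl

theorem cc_ge (hR : 2 ≤ R) : 512 * cb N ≤ cc N := by
  have h1 := wd_ge N hR
  have h2 := cb_ge N hR
  have h3 := Lh_ge N hR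
  rw [cc_eq]
  have h4 : 64 ≤ Lh N ^ 2 := by nlinarith
  have h5 : 0 ≤ cb N := by linarith
  nlinarith

theorem cb_et (hR : 2 ≤ R) : cb N * et N = 1 / 8 := by
  have h1 := wd_ge N hR
  have h2 := cb_ge N hR
  have h3 : cb N ≠ 0 := by
    have : 0 < cb N := by linarith
    exact this.ne'
  unfold et
  field_simp

theorem cc_et (hR : 2 ≤ R) : cc N * et N = Lh N ^ 2 := by
  have h := cb_et N hR
  rw [cc_eq]
  linear_combination (8 * Lh N ^ 2) * h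

theorem et_pos (hR : 2 ≤ R) : 0 < et N := by
  have h1 := wd_ge N hR
  have h2 := cb_ge N hR
  have h3 : 0 < cb N := by linarith
  unfold et
  positivity

theorem et_le (hR : 2 ≤ R) : et N ≤ 1 / 1000 := by
  have h1 := wd_ge N hR
  have h2 := cb_ge N hR
  have h3 := cb_et N hR
  have h4 := et_pos N hR
  nlinarith

/-- the products with the width -/
theorem mul_lt_wd (hR : 2 ≤ R) {g h : ℕ} (hg : g < h) : (g : ℝ) * wd N + wd N ≤ h * wd N := by
  have h1 := wd_ge N hR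
  have h2 : (g : ℝ) + 1 ≤ h := by exact_mod_cast hg
  nlinarith

theorem mul_le_cb (hR : 2 ≤ R) {g : ℕ} (hg : g ≤ R) : (g : ℝ) * wd N + wd N ≤ cb N := by
  have h1 := wd_ge N hR
  have h2 : (g : ℝ) ≤ R := by exact_mod_cast hg
  rw [cb_eq]
  nlinarith

theorem mul_wd_nonneg (hR : 2 ≤ R) (g : ℕ) : 0 ≤ (g : ℝ) * wd N := by
  have h1 := wd_ge N hR
  positivity

/-! ### heights -/

theorem hP_sub (g h : ℕ) (e f : Inc A) :
    ∃ z : ℤ, hP N g e - hP N h f = z + ((g : ℝ) - h) / 2 := by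
  refine ⟨pos (ta N e) (io N e) g - pos (ta N f) (io N f) h, ?_⟩
  unfold hP
  push_cast
  ring

theorem hP_ne (g : ℕ) {e f : Inc A} (hne : e ≠ f) : ∃ z : ℤ, z ≠ 0 ∧ hP N g e - hP N g f = z := by
  refine ⟨pos (ta N e) (io N e) g - pos (ta N f) (io N f) g, ?_, ?_⟩
  · have h1 : ta N e ≠ ta N f := fun h => hne ((ta_inj N e f).1 h)
    have h2 : io N e ≠ io N f := fun h => hne ((io_inj N e f).1 h)
    have := pos_ne (ta N e) (io N e) (ta N f) (io N f) g h1 h2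
    omega
  · unfold hP
    push_cast
    ring

/-- different strands have different integral heights -/
theorem hP_sq (g : ℕ) {e f : Inc A} (hne : e ≠ f) : 1 ≤ (hP N g e - hP N g f) ^ 2 := by
  obtain ⟨z, hz, h⟩ := hP_ne N g hne
  rw [h]
  have : 1 ≤ z ^ 2 := by
    have := Int.one_le_abs hz
    nlinarith [sq_abs z]
  exact_mod_cast this

/-- heights of consecutive gadgets differ by half-integers -/
theorem hP_half (g : ℕ) (e f : Inc A) : 1 / 4 ≤ (hP N (g + 1) e - hP N g f) ^ 2 := by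
  obtain ⟨z, h⟩ := hP_sub N (g + 1) g e f
  rw [h]
  push_cast
  have h1 : 0 ≤ z * (z + 1) := by
    rcases le_or_gt 0 z with h | h
    · positivity
    · nlinarith
  have h2 : (0 : ℝ) ≤ z * (z + 1) := by exact_mod_cast h1
  nlinarith

theorem hP_half' (g : ℕ) (e f : Inc A) : 1 / 4 ≤ (hP N g e - hP N (g + 1) f) ^ 2 := by
  have := hP_half N g f e
  nlinarith

/-- a strand which does not move -/
theorem hP_step (g : ℕ) (e : Inc A) (h : ta N e ≠ g) : hP N (g + 1) e = hP N g e + 1 / 2 := by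
  unfold hP pos
  have h1 : ta N e < g + 1 ↔ ta N e < g := by omega
  simp only [h1]
  push_cast
  ring

/-- integers with an offset of a quarter -/
theorem quarter (z : ℤ) (hz : z ≠ 0) : 9 / 16 ≤ ((z : ℝ) - 1 / 4) ^ 2 ∧
    9 / 16 ≤ ((z : ℝ) + 1 / 4) ^ 2 := by
  rcases lt_or_gt_of_ne hz with h | h
  · have h1 : (z : ℝ) ≤ -1 := by exact_mod_cast (by omega : z ≤ -1)
    constructor <;> nlinarith
  · have h1 : (1 : ℝ) ≤ z := by exact_mod_cast (by omega : 1 ≤ z)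
    constructor <;> nlinarith

theorem io_lt (e : Inc A) : (io N e : ℝ) + 1 ≤ N.BU * N.BW := by
  have h1 := N.nu_lt e.1.1
  have h2 := N.nw_lt e.1.2
  have h3 : io N e + 1 ≤ N.BU * N.BW := by
    unfold io au
    calc N.nu e.1.1 * N.BW + N.nw e.1.2 + 1 ≤ N.nu e.1.1 * N.BW + N.BW := by omega
      _ = (N.nu e.1.1 + 1) * N.BW := by ring
      _ ≤ N.BU * N.BW := Nat.mul_le_mul_right _ h1
  exact_mod_cast h3

theorem hP_mem (g : ℕ) (hg : g ≤ R) (e : Inc A) :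
    -(R : ℝ) ≤ hP N g e ∧ hP N g e ≤ N.BU * N.BW - 1 + R / 2 := by
  have h1 := io_lt N e
  have h2 : (g : ℝ) ≤ R := by exact_mod_cast hg
  have h3 : (0 : ℝ) ≤ g := Nat.cast_nonneg _
  have h4 : (ta N e : ℝ) + 1 ≤ R := by exact_mod_cast ta_lt N e
  have h5 : (0 : ℝ) ≤ ta N e := Nat.cast_nonneg _
  have h6 : (0 : ℝ) ≤ io N e := Nat.cast_nonneg _
  have h7 := BU1 N
  have h8 := BW1 N
  unfold hP pos
  split_ifs <;> push_cast <;> constructor <;> nlinarith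

/-! ### the levels -/

theorem lev (g i : ℕ) (hi : i < 6) : (6 * g + i) / 6 = g ∧ (6 * g + i) % 6 = i := by omega

section
variable (g : ℕ) (e : Inc A)

theorem sx_0 (h : 6 * g < 6 * R + 2) : sx N (c ⟨6 * g, h⟩ e : Vtx A R) = g * wd N := by
  show gx N ((6 * g + 0) / 6) ((6 * g + 0) % 6) e = _
  rw [(lev g 0 (by norm_num)).1, (lev g 0 (by norm_num)).2]
  rfl

theorem sy_0 (h : 6 * g < 6 * R + 2) : sy N (c ⟨6 * g, h⟩ e : Vtx A R) = hP N g e := by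
  show gy N ((6 * g + 0) / 6) ((6 * g + 0) % 6) e = _
  rw [(lev g 0 (by norm_num)).1, (lev g 0 (by norm_num)).2]
  rfl

theorem sx_1 (h : 6 * g + 1 < 6 * R + 2) (hg : g ≠ R) :
    sx N (c ⟨6 * g + 1, h⟩ e : Vtx A R) = g * wd N - (wd N - 1) / 2 := by
  show gx N ((6 * g + 1) / 6) ((6 * g + 1) % 6) e = _
  rw [(lev g 1 (by norm_num)).1, (lev g 1 (by norm_num)).2]
  exact if_neg hg

theorem sy_1 (h : 6 * g + 1 < 6 * R + 2) : sy N (c ⟨6 * g + 1, h⟩ e : Vtx A R) = hP N g e := by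
  show gy N ((6 * g + 1) / 6) ((6 * g + 1) % 6) e = _
  rw [(lev g 1 (by norm_num)).1, (lev g 1 (by norm_num)).2]
  rfl

theorem ss_1 (h : 6 * g + 1 < 6 * R + 2) (hg : g ≠ R) :
    ss N (c ⟨6 * g + 1, h⟩ e : Vtx A R) = ((wd N - 1) / 2) ^ 2 + 1 / 8 := by
  show gs N ((6 * g + 1) / 6) ((6 * g + 1) % 6) e = _
  rw [(lev g 1 (by norm_num)).1, (lev g 1 (by norm_num)).2]
  exact if_neg hg

theorem sx_last (h : 6 * R + 1 < 6 * R + 2) :
    sx N (c ⟨6 * R + 1, h⟩ e : Vtx A R) = R * wd N + Lh N ^ 2 := by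
  show gx N ((6 * R + 1) / 6) ((6 * R + 1) % 6) e = _
  rw [(lev R 1 (by norm_num)).1, (lev R 1 (by norm_num)).2]
  exact if_pos rfl

theorem sy_last (h : 6 * R + 1 < 6 * R + 2) :
    sy N (c ⟨6 * R + 1, h⟩ e : Vtx A R) = hP N R e := by
  show gy N ((6 * R + 1) / 6) ((6 * R + 1) % 6) e = _
  rw [(lev R 1 (by norm_num)).1, (lev R 1 (by norm_num)).2]
  rfl

theorem ss_last (h : 6 * R + 1 < 6 * R + 2) :
    ss N (c ⟨6 * R + 1, h⟩ e : Vtx A R) = (Lh N ^ 2) ^ 2 + 1 / 4 := by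
  show gs N ((6 * R + 1) / 6) ((6 * R + 1) % 6) e = _
  rw [(lev R 1 (by norm_num)).1, (lev R 1 (by norm_num)).2]
  exact if_pos rfl

/-- the height of the last level in terms of the moving time -/
theorem hP_last : hP N R e = -((ta N e : ℝ) + 1) + R / 2 := by
  unfold hP pos
  rw [if_pos (ta_lt N e)]
  push_cast
  ring

/-- the height of the first level -/
theorem hP_first : hP N 0 e = (io N e : ℝ) := by
  unfold hP pos
  rw [if_neg (Nat.not_lt_zero _)]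
  push_cast
  ring

theorem sx_2 (h : 6 * g + 2 < 6 * R + 2) (hm : ta N e ≠ g) :
    sx N (c ⟨6 * g + 2, h⟩ e : Vtx A R) = (g - 1) * wd N + 1 := by
  show gx N ((6 * g + 2) / 6) ((6 * g + 2) % 6) e = _
  rw [(lev g 2 (by norm_num)).1, (lev g 2 (by norm_num)).2]
  show ((g : ℝ) - 1) * wd N + 1 - (if ta N e = g then et N else 0) = _
  rw [if_neg hm, sub_zero]

theorem sx_2m (h : 6 * g + 2 < 6 * R + 2) (hm : ta N e = g) :
    sx N (c ⟨6 * g + 2, h⟩ e : Vtx A R) = (g - 1) * wd N + 1 - et N := by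
  show gx N ((6 * g + 2) / 6) ((6 * g + 2) % 6) e = _
  rw [(lev g 2 (by norm_num)).1, (lev g 2 (by norm_num)).2]
  show ((g : ℝ) - 1) * wd N + 1 - (if ta N e = g then et N else 0) = _
  rw [if_pos hm]

/-- both cases together -/
theorem sx_2' (hR : 2 ≤ R) (h : 6 * g + 2 < 6 * R + 2) :
    (g - 1) * wd N + 1 - et N ≤ sx N (c ⟨6 * g + 2, h⟩ e : Vtx A R) ∧
      sx N (c ⟨6 * g + 2, h⟩ e : Vtx A R) ≤ (g - 1) * wd N + 1 := by
  have := et_pos N hR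
  by_cases hm : ta N e = g
  · rw [sx_2m N g e h hm]
    constructor <;> linarith
  · rw [sx_2 N g e h hm]
    constructor <;> linarith

theorem sy_2 (h : 6 * g + 2 < 6 * R + 2) : sy N (c ⟨6 * g + 2, h⟩ e : Vtx A R) = hP N g e := by
  show gy N ((6 * g + 2) / 6) ((6 * g + 2) % 6) e = _
  rw [(lev g 2 (by norm_num)).1, (lev g 2 (by norm_num)).2]
  rfl

theorem sx_3 (h : 6 * g + 3 < 6 * R + 2) (hm : ta N e ≠ g) :
    sx N (c ⟨6 * g + 3, h⟩ e : Vtx A R) = (g - 1) * wd N + 1 - cb N := by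
  show gx N ((6 * g + 3) / 6) ((6 * g + 3) % 6) e = _
  rw [(lev g 3 (by norm_num)).1, (lev g 3 (by norm_num)).2]
  show ((g : ℝ) - 1) * wd N + 1 - (if ta N e = g then cc N else cb N) = _
  rw [if_neg hm]

theorem sx_3m (h : 6 * g + 3 < 6 * R + 2) (hm : ta N e = g) :
    sx N (c ⟨6 * g + 3, h⟩ e : Vtx A R) = (g - 1) * wd N + 1 - cc N := by
  show gx N ((6 * g + 3) / 6) ((6 * g + 3) % 6) e = _
  rw [(lev g 3 (by norm_num)).1, (lev g 3 (by norm_num)).2]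
  show ((g : ℝ) - 1) * wd N + 1 - (if ta N e = g then cc N else cb N) = _
  rw [if_pos hm]

theorem sy_3 (h : 6 * g + 3 < 6 * R + 2) (hm : ta N e ≠ g) :
    sy N (c ⟨6 * g + 3, h⟩ e : Vtx A R) = hP N g e + 1 / 4 := by
  show gy N ((6 * g + 3) / 6) ((6 * g + 3) % 6) e = _
  rw [(lev g 3 (by norm_num)).1, (lev g 3 (by norm_num)).2]
  exact if_neg hm

theorem sy_3m (h : 6 * g + 3 < 6 * R + 2) (hm : ta N e = g) :
    sy N (c ⟨6 * g + 3, h⟩ e : Vtx A R) = hP N (g + 1) e := by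
  show gy N ((6 * g + 3) / 6) ((6 * g + 3) % 6) e = _
  rw [(lev g 3 (by norm_num)).1, (lev g 3 (by norm_num)).2]
  exact if_pos hm

theorem ss_3 (h : 6 * g + 3 < 6 * R + 2) (hm : ta N e ≠ g) :
    ss N (c ⟨6 * g + 3, h⟩ e : Vtx A R) = cb N ^ 2 + 1 / 4 := by
  show gs N ((6 * g + 3) / 6) ((6 * g + 3) % 6) e = _
  rw [(lev g 3 (by norm_num)).1, (lev g 3 (by norm_num)).2]
  exact if_neg hm

theorem ss_3m (h : 6 * g + 3 < 6 * R + 2) (hm : ta N e = g) :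
    ss N (c ⟨6 * g + 3, h⟩ e : Vtx A R) = cc N ^ 2 + 1 / 16 := by
  show gs N ((6 * g + 3) / 6) ((6 * g + 3) % 6) e = _
  rw [(lev g 3 (by norm_num)).1, (lev g 3 (by norm_num)).2]
  exact if_pos hm

theorem sx_4 (h : 6 * g + 4 < 6 * R + 2) :
    sx N (c ⟨6 * g + 4, h⟩ e : Vtx A R) = (g - 1) * wd N + 1 := by
  show gx N ((6 * g + 4) / 6) ((6 * g + 4) % 6) e = _
  rw [(lev g 4 (by norm_num)).1, (lev g 4 (by norm_num)).2]
  rfl

theorem sy_4 (h : 6 * g + 4 < 6 * R + 2) :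
    sy N (c ⟨6 * g + 4, h⟩ e : Vtx A R) = hP N (g + 1) e := by
  show gy N ((6 * g + 4) / 6) ((6 * g + 4) % 6) e = _
  rw [(lev g 4 (by norm_num)).1, (lev g 4 (by norm_num)).2]
  rfl

theorem sx_5 (h : 6 * g + 5 < 6 * R + 2) :
    sx N (c ⟨6 * g + 5, h⟩ e : Vtx A R) = g * wd N + 1 / 2 := by
  show gx N ((6 * g + 5) / 6) ((6 * g + 5) % 6) e = _
  rw [(lev g 5 (by norm_num)).1, (lev g 5 (by norm_num)).2]
  rfl

theorem sy_5 (h : 6 * g + 5 < 6 * R + 2) :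
    sy N (c ⟨6 * g + 5, h⟩ e : Vtx A R) = hP N (g + 1) e := by
  show gy N ((6 * g + 5) / 6) ((6 * g + 5) % 6) e = _
  rw [(lev g 5 (by norm_num)).1, (lev g 5 (by norm_num)).2]
  rfl

theorem ss_5 (h : 6 * g + 5 < 6 * R + 2) :
    ss N (c ⟨6 * g + 5, h⟩ e : Vtx A R) = (wd N - 1 / 2) ^ 2 + 1 / 8 := by
  show gs N ((6 * g + 5) / 6) ((6 * g + 5) % 6) e = _
  rw [(lev g 5 (by norm_num)).1, (lev g 5 (by norm_num)).2]
  rfl

end

/-- the lower vertices -/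
theorem low_cases {a : Vtx A R} (ha : Low a) : (∃ y, a = w y) ∨
    (∃ (g : ℕ) (h : g ≤ R) (e : Inc A), a = c ⟨6 * g, by omega⟩ e) ∨
    (∃ (g : ℕ) (h : g < R) (e : Inc A), a = c ⟨6 * g + 2, by omega⟩ e) ∨
    (∃ (g : ℕ) (h : g < R) (e : Inc A), a = c ⟨6 * g + 4, by omega⟩ e) := by
  match a, ha with
  | w y, _ => exact Or.inl ⟨y, rfl⟩
  | c l e, ha =>
    right
    have h0 : (l : ℕ) % 2 = 0 := ha
    have hl := l.2
    have h1 : (l : ℕ) % 6 = 0 ∨ (l : ℕ) % 6 = 2 ∨ (l : ℕ) % 6 = 4 := by omega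
    rcases h1 with h1 | h1 | h1
    · exact Or.inl ⟨l / 6, by omega, e, by congr 1; apply Fin.ext; show (l : ℕ) = 6 * (l / 6); omega⟩
    · exact Or.inr (Or.inl ⟨l / 6, by omega, e, by
        congr 1; apply Fin.ext; show (l : ℕ) = 6 * (l / 6) + 2; omega⟩)
    · exact Or.inr (Or.inr ⟨l / 6, by omega, e, by
        congr 1; apply Fin.ext; show (l : ℕ) = 6 * (l / 6) + 4; omega⟩)

/-- bounds of the heights -/
theorem sy_mem (hR : 2 ≤ R) (a : Vtx A R) :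
    -(R : ℝ) - N.BU * N.BW ≤ sy N a ∧ sy N a ≤ N.BU * N.BW + R / 2 + 1 / 4 := by
  have hR' : (2 : ℝ) ≤ R := by exact_mod_cast hR
  have h7 := BU1 N
  have h8 := BW1 N
  have h9 : (1 : ℝ) ≤ N.BU * N.BW := by nlinarith
  match a with
  | u x =>
    have h1 := N.nu_lt x
    have h2 : (au N x : ℝ) + N.BW ≤ N.BU * N.BW := by
      have : au N x + N.BW ≤ N.BU * N.BW := by
        unfold au
        calc N.nu x * N.BW + N.BW = (N.nu x + 1) * N.BW := by ring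
          _ ≤ N.BU * N.BW := Nat.mul_le_mul_right _ h1
      exact_mod_cast this
    have h3 : (0 : ℝ) ≤ au N x := Nat.cast_nonneg _
    show _ ≤ (au N x : ℝ) + ((N.BW : ℝ) - 1) / 2 ∧ (au N x : ℝ) + ((N.BW : ℝ) - 1) / 2 ≤ _
    constructor <;> linarith
  | w y =>
    have h1 := N.nw_lt y
    have h2 : (aw N y : ℝ) + N.BU ≤ N.BU * N.BW := by
      have : aw N y + N.BU ≤ N.BU * N.BW := by
        unfold aw
        calc N.nw y * N.BU + N.BU = (N.nw y + 1) * N.BU := by ring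
          _ ≤ N.BW * N.BU := Nat.mul_le_mul_right _ h1
          _ = N.BU * N.BW := Nat.mul_comm _ _
      exact_mod_cast this
    have h3 : (0 : ℝ) ≤ aw N y := Nat.cast_nonneg _
    show _ ≤ -((aw N y : ℝ) + ((N.BU : ℝ) - 1) / 2 + 1) + R / 2 ∧
      -((aw N y : ℝ) + ((N.BU : ℝ) - 1) / 2 + 1) + R / 2 ≤ _
    constructor <;> linarith
  | c l e =>
    have hl := l.2
    show _ ≤ gy N ((l : ℕ) / 6) ((l : ℕ) % 6) e ∧ gy N ((l : ℕ) / 6) ((l : ℕ) % 6) e ≤ _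
    have h1 := hP_mem N ((l : ℕ) / 6) (by omega) e
    have h2 : 2 ≤ (l : ℕ) % 6 → _ := fun h => hP_mem N ((l : ℕ) / 6 + 1) (by omega) e
    have h3 : (l : ℕ) % 6 = 0 ∨ (l : ℕ) % 6 = 1 ∨ (l : ℕ) % 6 = 2 ∨ (l : ℕ) % 6 = 3 ∨
      (l : ℕ) % 6 = 4 ∨ (l : ℕ) % 6 = 5 := by omega
    rcases h3 with h3 | h3 | h3 | h3 | h3 | h3
    · rw [h3]
      show _ ≤ hP N _ e ∧ hP N _ e ≤ _
      constructor <;> linarith
    · rw [h3]
      show _ ≤ hP N _ e ∧ hP N _ e ≤ _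
      constructor <;> linarith
    · rw [h3]
      show _ ≤ hP N _ e ∧ hP N _ e ≤ _
      constructor <;> linarith
    · have h4 := h2 (by omega)
      rw [h3]
      show _ ≤ (if ta N e = _ then hP N _ e else hP N _ e + 1 / 4) ∧
        (if ta N e = _ then hP N _ e else hP N _ e + 1 / 4) ≤ _
      split_ifs
      · constructor <;> linarith
      · constructor <;> linarith
    · have h4 := h2 (by omega)
      rw [h3]
      show _ ≤ hP N _ e ∧ hP N _ e ≤ _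
      constructor <;> linarith
    · have h4 := h2 (by omega)
      rw [h3]
      show _ ≤ hP N _ e ∧ hP N _ e ≤ _
      constructor <;> linarith

/-- all differences of heights -/
theorem sy_abs (hR : 2 ≤ R) (a b : Vtx A R) : |sy N a - sy N b| ≤ Lh N := by
  have h1 := sy_mem N hR a
  have h2 := sy_mem N hR b
  unfold Lh
  rw [abs_le]
  constructor <;> linarith [(Nat.cast_nonneg R : (0 : ℝ) ≤ R)]

/-- the upper vertices -/
theorem up_cases {a : Vtx A R} (ha : ¬ Low a) : (∃ x, a = u x) ∨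
    (∃ e : Inc A, a = c ⟨6 * R + 1, by omega⟩ e) ∨
    (∃ (g : ℕ) (h : g < R) (e : Inc A), a = c ⟨6 * g + 1, by omega⟩ e) ∨
    (∃ (g : ℕ) (h : g < R) (e : Inc A), a = c ⟨6 * g + 3, by omega⟩ e) ∨
    (∃ (g : ℕ) (h : g < R) (e : Inc A), a = c ⟨6 * g + 5, by omega⟩ e) := by
  match a, ha with
  | u y, _ => exact Or.inl ⟨y, rfl⟩
  | w y, ha => exact absurd trivial ha
  | c l e, ha =>
    right
    have h0 : ¬ (l : ℕ) % 2 = 0 := ha
    have hl := l.2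
    have h1 : ((l : ℕ) = 6 * R + 1) ∨ ((l : ℕ) % 6 = 1 ∧ (l : ℕ) ≠ 6 * R + 1) ∨ (l : ℕ) % 6 = 3 ∨
      (l : ℕ) % 6 = 5 := by omega
    rcases h1 with h1 | h1 | h1 | h1
    · exact Or.inl ⟨e, by congr 1; exact Fin.ext h1⟩
    · exact Or.inr (Or.inl ⟨l / 6, by omega, e, by
        congr 1; apply Fin.ext; show (l : ℕ) = 6 * (l / 6) + 1; omega⟩)
    · exact Or.inr (Or.inr (Or.inl ⟨l / 6, by omega, e, by
        congr 1; apply Fin.ext; show (l : ℕ) = 6 * (l / 6) + 3; omega⟩))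
    · exact Or.inr (Or.inr (Or.inr ⟨l / 6, by omega, e, by
        congr 1; apply Fin.ext; show (l : ℕ) = 6 * (l / 6) + 5; omega⟩))

end Pool.Agent.J4.H24.DG
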