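import Pool.Agent.J4.H24.DG.Pierce
import Pool.Agent.J4.H24.DG.Geo0

/-!
# Almost unit disk graphs: definitions

Disks whose radii are in `[1, 1 + ε]`; the second version of the gadgets; the coordinates.
-/

set_option autoImplicit false

namespace Pool.Agent.J4.H24.DG

open Pool.Agent.NPC Pool.Agent.NPC.R671 Pool.Agent.W125.Dim Pool.Agent.Y815.GI
  Pool.Agent.J4.H79.GI Pool.Agent.W125.Dim.Vtx

/-- `X` is the intersection graph of a family of closed balls of the metric space `E` with radii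
between `1` and `1 + ε`, each of which contains one of two given points. -/
def IsAlmostUnit (E : Type) [PseudoMetricSpace E] (ε : ℝ) {V : Type} (X : SimpleGraph V) : Prop :=
  ∃ (z : V → E) (r : V → ℝ) (p q : E), (∀ v, 1 ≤ r v ∧ r v ≤ 1 + ε) ∧
    (∀ v, p ∈ Metric.closedBall (z v) (r v) ∨ q ∈ Metric.closedBall (z v) (r v)) ∧
    ∀ u v : V, X.Adj u v ↔
      u ≠ v ∧ (Metric.closedBall (z u) (r u) ∩ Metric.closedBall (z v) (r v)).Nonempty

/-! ### The order of height two -/

/-- the joins: level `l` of any strand lies below level `k` of any strand -/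
def J3 (R l k : ℕ) : Prop :=
  (k % 6 = 1 ∧ k ≠ 6 * R + 1 ∧ ((l % 6 ≠ 0 ∧ k + 3 < l) ∨ (l % 6 = 0 ∧ l + 1 < k))) ∨
  (k % 6 = 3 ∧ l % 6 ≠ 0 ∧ l + 1 < k) ∨
  (k % 6 = 5 ∧ ((l % 6 ≠ 0 ∧ k < l) ∨ (l % 6 = 0 ∧ l < k)))

/-- level `l` of a strand lies below level `k` of a strand (`same`: the same strand) -/
def crel3 (R l k : ℕ) (same : Prop) : Prop :=
  l % 2 = 0 ∧ ((same ∧ (k = l + 1 ∨ l = k + 1)) ∨ J3 R l k)

variable {U W : Type} {A : U → W → Prop} {R : ℕ}

/-- the strict order of the construction -/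
def Rel3 : Vtx A R → Vtx A R → Prop
  | c l e, c k f => crel3 R l k (e = f)
  | c l e, u x => (l : ℕ) = 0 ∧ e.1.1 = x
  | w y, c l e => (l : ℕ) = 6 * R + 1 ∧ e.1.2 = y
  | _, _ => False

theorem Rel3_low {x y : Vtx A R} (h : Rel3 x y) : Low x ∧ ¬ Low y := by
  match x, y, h with
  | c l e, c k f, h =>
    show (l : ℕ) % 2 = 0 ∧ ¬ (k : ℕ) % 2 = 0
    rcases h with ⟨h0, ⟨_, h3⟩ | ⟨h1, h2⟩ | ⟨h1, h2⟩ | ⟨h1, h2⟩⟩ <;> omega
  | c l e, u x, ⟨h0, h1⟩ =>
    refine ⟨?_, id⟩
    show (l : ℕ) % 2 = 0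
    omega
  | w y, c l e, ⟨h0, h1⟩ =>
    refine ⟨trivial, ?_⟩
    show ¬ (l : ℕ) % 2 = 0
    omega

/-- the bipartite graph -/
def XG3 (A : U → W → Prop) (R : ℕ) : SimpleGraph (Vtx A R) where
  Adj x y := Rel3 x y ∨ Rel3 y x
  symm := ⟨fun _ _ h => Or.symm h⟩
  loopless := ⟨fun _ h => h.elim (fun h => (Rel3_low h).2 (Rel3_low h).1)
    (fun h => (Rel3_low h).2 (Rel3_low h).1)⟩

/-- the graph with two cliques -/
def BG3 (A : U → W → Prop) (R : ℕ) : SimpleGraph (Vtx A R) where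
  Adj x y := x ≠ y ∧ ((Low x ↔ Low y) ∨ (XG3 A R).Adj x y)
  symm := ⟨fun _ _ h => ⟨h.1.symm, h.2.imp Iff.symm SimpleGraph.Adj.symm⟩⟩
  loopless := ⟨fun _ h => h.1 rfl⟩

/-- at least three neighbours -/
def Big3 (v : Vtx A R) : Prop :=
  ∃ a b c, a ≠ b ∧ a ≠ c ∧ b ≠ c ∧ (XG3 A R).Adj v a ∧ (XG3 A R).Adj v b ∧ (XG3 A R).Adj v c

/-! ### The coordinates

A lower vertex `a` is the point `(D p + x / D, y)`, an upper vertex `b` the disk with centre
`(D q, m h)` and radius `ρ`, `ρ ^ 2 = (D r) ^ 2 + o + m (m - 1) h ^ 2`, for a large number `D`. -/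

section coordinates

variable (N : Num U W R) (δ : ℝ)

/-- the radius of the base circles -/
noncomputable def rs : ℝ := (1 + δ) / 2
/-- the factor for the normal disks which touch a column from the left -/
noncomputable def m₁ : ℝ := 1 - 1 / (2 * rs δ)
/-- the factor for the special disks -/
noncomputable def m₂ : ℝ := m₁ δ / (16 * Lh N ^ 2)

open Classical in
/-- macroscopic first coordinate of a point, level `i` of gadget `g` -/
noncomputable def gp (g i : ℕ) : ℝ :=
  match i with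
  | 0 => 1 + g * δ
  | _ => g * δ

open Classical in
/-- microscopic first coordinate of a point, level `i` of gadget `g` -/
noncomputable def gξ (g i : ℕ) (e : Inc A) : ℝ :=
  match i with
  | 0 => gy N g 0 e ^ 2 / (2 * rs δ)
  | 2 => -(gy N g 2 e ^ 2 / (2 * rs δ)) - (if ta N e = g then m₁ δ / 8 else 0)
  | _ => -(gy N g 4 e ^ 2 / (2 * rs δ))

/-- macroscopic first coordinate of a point -/
noncomputable def ap : Vtx A R → ℝ
  | c l _ => gp δ (l / 6) (l % 6)
  | _ => 1 + R * δ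

/-- microscopic first coordinate of a point -/
noncomputable def ax : Vtx A R → ℝ
  | c l e => gξ N δ (l / 6) (l % 6) e
  | w y => sy N (w y : Vtx A R) ^ 2 / (2 * rs δ) + m₁ δ * (N.BU : ℝ) ^ 2 / 4
  | u _ => 0

open Classical in
/-- macroscopic radius, level `i` of gadget `g` -/
noncomputable def gr (g i : ℕ) (e : Inc A) : ℝ :=
  match i with
  | 1 => 1 / 2
  | 3 => if ta N e = g then rs δ * (1 - m₂ N δ) else 1 / 2
  | _ => (1 + δ) / 2

open Classical in
/-- macroscopic first coordinate of the centre, level `i` of gadget `g` -/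
noncomputable def gq (g i : ℕ) (e : Inc A) : ℝ :=
  match i with
  | 1 => if g = R then 1 + g * δ + 1 / 2 else g * δ + 1 / 2
  | 3 => g * δ - gr N δ g 3 e
  | _ => g * δ + (1 + δ) / 2

open Classical in
/-- factor, level `i` of gadget `g` -/
noncomputable def gm (g i : ℕ) (e : Inc A) : ℝ :=
  match i with
  | 1 => if g = R then m₁ δ else 1 + 1 / (2 * rs δ)
  | 3 => if ta N e = g then m₂ N δ else m₁ δ
  | _ => 2

open Classical in
/-- window, level `i` of gadget `g` -/
noncomputable def go (g i : ℕ) (e : Inc A) : ℝ :=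
  match i with
  | 1 => if g = R then m₁ δ / 4 else (1 + 1 / (2 * rs δ)) / 8
  | 3 => if ta N e = g then m₂ N δ / 8 else m₁ δ / 4
  | _ => m₁ δ / 8

/-- macroscopic radius -/
noncomputable def br : Vtx A R → ℝ
  | c l e => gr N δ (l / 6) (l % 6) e
  | u _ => (1 - R * δ) / 2
  | w _ => 1 / 2

/-- macroscopic first coordinate of the centre -/
noncomputable def bq : Vtx A R → ℝ
  | c l e => gq N δ (l / 6) (l % 6) e
  | _ => 1 - (1 - R * δ) / 2

/-- factor -/
noncomputable def bm : Vtx A R → ℝ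
  | c l e => gm N δ (l / 6) (l % 6) e
  | _ => 1 + (1 - R * δ) / (1 + δ)

/-- window -/
noncomputable def bo : Vtx A R → ℝ
  | c l e => go N δ (l / 6) (l % 6) e
  | _ => (1 + (1 - R * δ) / (1 + δ)) * (N.BW : ℝ) ^ 2 / 4

/-- The point `a` lies in the disk `b` for all large `D` (the height of `a` is `sy N a`, the
height of the centre of `b` is `bm b * sy N b`). -/
def Ins (a b : Vtx A R) : Prop :=
  |ap δ a - bq N δ b| < br N δ b ∨ (|ap δ a - bq N δ b| = br N δ b ∧
    2 * (ap δ a - bq N δ b) * ax N δ a + (sy N a - bm N δ b * sy N b) ^ 2 <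
      bo N δ b + bm N δ b * (bm N δ b - 1) * sy N b ^ 2)

/-- The position is not degenerate. -/
def NonDeg (a b : Vtx A R) : Prop :=
  |ap δ a - bq N δ b| = br N δ b →
    2 * (ap δ a - bq N δ b) * ax N δ a + (sy N a - bm N δ b * sy N b) ^ 2 ≠
      bo N δ b + bm N δ b * (bm N δ b - 1) * sy N b ^ 2

end coordinates

end Pool.Agent.J4.H24.DG
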