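import Pool.Agent.J4.H24.DG.Defs

/-! # Piece DISK of project DG (helper56): from points and disks to intersections of disks (Lorentz boost) -/

set_option autoImplicit false

namespace Pool.Agent.J4.H24.DG

open Filter Topology

namespace Disk

/-- two closed balls meet iff the distance of the centres is at most the sum of the radii -/
lemma meet_iff {E : Type} [NormedAddCommGroup E] [NormedSpace ℝ E] {z z' : E} {r r' : ℝ}
    (hr : 0 < r) (hr' : 0 < r') :
    (Metric.closedBall z r ∩ Metric.closedBall z' r').Nonempty ↔ dist z z' ≤ r + r' := by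
  constructor
  · rintro ⟨y, h1, h2⟩
    rw [Metric.mem_closedBall] at h1 h2
    calc dist z z' ≤ dist z y + dist y z' := dist_triangle _ _ _
      _ ≤ r + r' := by rw [dist_comm z y]; linarith
  · intro h
    obtain ⟨y, h1, h2⟩ := exists_dist_le_le hr.le hr'.le (by rw [add_comm r' r]; exact h)
    exact ⟨y, by rw [Metric.mem_closedBall, dist_comm]; exact h1, by
      rw [Metric.mem_closedBall]; exact h2⟩

lemma dist_le_iff {a b a' b' s : ℝ} (hs : 0 ≤ s) :
    dist (!₂[a, b] : EuclideanSpace ℝ (Fin 2)) !₂[a', b'] ≤ s ↔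
      (a - a') ^ 2 + (b - b') ^ 2 ≤ s ^ 2 := by
  rw [EuclideanSpace.dist_eq, Fin.sum_univ_two, Real.sqrt_le_left hs, Real.dist_eq, Real.dist_eq,
    sq_abs, sq_abs]
  simp

lemma tend {c : ℝ} (hc : 0 < c) (d : ℝ) : Tendsto (fun l : ℝ => l * c + d / l) atTop atTop :=
  Filter.Tendsto.atTop_add (tendsto_id.atTop_mul_const hc) (tendsto_const_nhds.div_atTop tendsto_id)

/-- the radius after the boost -/
noncomputable def Ra (σ u v l : ℝ) : ℝ := σ * (u / l + l * v) / 2

/-- the second coordinate after the boost -/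
noncomputable def Sa (u v l : ℝ) : ℝ := (l * v - u / l) / 2

lemma same (σ u v u' v' l : ℝ) (hσ : σ ^ 2 = 1) :
    (Ra σ u v l + Ra σ u' v' l) ^ 2 - (Sa u v l - Sa u' v' l) ^ 2 =
      (l * (σ * v) + (σ * u') / l) * (l * (σ * v') + (σ * u) / l) := by
  unfold Ra Sa
  have e : σ ^ 2 * ((u / l + l * v) / 2 + (u' / l + l * v') / 2) ^ 2 -
      ((l * v - u / l) / 2 - (l * v' - u' / l) / 2) ^ 2 =
      σ ^ 2 * ((l * v + u' / l) * (l * v' + u / l)) := by
    rw [hσ]
    ring
  linear_combination e

lemma cross {u v u' v' l : ℝ} (hl : 0 < l) :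
    (Ra (-1) u v l + Ra 1 u' v' l) ^ 2 - (Sa u v l - Sa u' v' l) ^ 2 = (u' - u) * (v' - v) := by
  unfold Ra Sa
  field_simp
  ring

end Disk

open Disk in
theorem disk_of_strip {V : Type} [Finite V] (X : SimpleGraph V) (low : V → Prop)
    (hs : ∀ u v, u ≠ v → (low u ↔ low v) → X.Adj u v) (x y r : V → ℝ)
    (hc : ∀ a b, low a → ¬ low b → (X.Adj a b ↔ (x a - x b) ^ 2 + (y a - y b) ^ 2 ≤ r b ^ 2))
    (hf : ∀ a b, low a → ¬ low b → y a - y b < r b) :
    IsBallGraph (EuclideanSpace ℝ (Fin 2)) X := by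
  classical
  cases nonempty_fintype V
  set t : V → ℝ := fun v => if low v then 0 else r v with ht
  set σ : V → ℝ := fun v => if low v then -1 else 1 with hσ
  obtain ⟨m, hm1, hm2⟩ := Order.exists_between_finsets
    ((Finset.univ.filter low).image fun v => t v + y v)
    ((Finset.univ.filter fun v => ¬ low v).image fun v => t v + y v) (by
      intro a ha b hb
      rw [Finset.mem_image] at ha hb
      obtain ⟨a, ha, rfl⟩ := ha
      obtain ⟨b, hb, rfl⟩ := hb
      rw [Finset.mem_filter] at ha hb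
      have h1 := hf a b ha.2 hb.2
      simp only [ht, if_pos ha.2, if_neg hb.2]
      linarith)
  set U : V → ℝ := fun v => t v - y v with hU
  set W : V → ℝ := fun v => t v + y v - m with hW
  have hσ2 : ∀ v, σ v ^ 2 = 1 := by
    intro v
    simp only [hσ]
    split_ifs <;> norm_num
  have hpos : ∀ v, 0 < σ v * W v := by
    intro v
    by_cases h : low v
    · have h1 := hm1 (t v + y v) (Finset.mem_image.2 ⟨v, by simp [h], rfl⟩)
      simp only [hσ, hW, if_pos h]
      linarith
    · have h1 := hm2 (t v + y v) (Finset.mem_image.2 ⟨v, by simp [h], rfl⟩)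
      simp only [hσ, hW, if_neg h]
      linarith
  have hR : ∀ v, ∀ᶠ l : ℝ in atTop, 0 < Ra (σ v) (U v) (W v) l := by
    intro v
    have h1 := (tend (hpos v) (σ v * U v)).eventually_gt_atTop 0
    filter_upwards [h1] with l h2
    unfold Ra
    have h3 : σ v * (U v / l + l * W v) = l * (σ v * W v) + σ v * U v / l := by ring
    rw [h3]
    linarith
  have hS : ∀ p : V × V, ∀ᶠ l : ℝ in atTop, (low p.1 ↔ low p.2) → (x p.1 - x p.2) ^ 2 ≤
      (Ra (σ p.1) (U p.1) (W p.1) l + Ra (σ p.2) (U p.2) (W p.2) l) ^ 2 -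
        (Sa (U p.1) (W p.1) l - Sa (U p.2) (W p.2) l) ^ 2 := by
    intro p
    by_cases h : low p.1 ↔ low p.2
    · have h1 : σ p.1 = σ p.2 := by
        simp only [hσ]
        by_cases h2 : low p.1
        · rw [if_pos h2, if_pos (h.1 h2)]
        · rw [if_neg h2, if_neg (fun h3 => h2 (h.2 h3))]
      have h2 := ((tend (hpos p.1) (σ p.1 * U p.2)).atTop_mul_atTop₀
        (tend (hpos p.2) (σ p.1 * U p.1))).eventually_ge_atTop ((x p.1 - x p.2) ^ 2)
      filter_upwards [h2] with l h3 _
      rw [← h1, same _ _ _ _ _ _ (hσ2 p.1)]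
      rw [← h1] at h3
      exact h3
    · filter_upwards with l h3
      exact absurd h3 h
  obtain ⟨l, h1, h2, hl⟩ := ((eventually_all.2 hR).and ((eventually_all.2 hS).and
    (eventually_gt_atTop 0))).exists
  refine ⟨fun v => !₂[x v, Sa (U v) (W v) l], fun v => Ra (σ v) (U v) (W v) l, h1, fun a b => ?_⟩
  rw [meet_iff (h1 a) (h1 b), dist_le_iff (add_pos (h1 a) (h1 b)).le]
  -- the mixed case
  have key : ∀ a b, low a → ¬ low b → (X.Adj a b ↔ (x a - x b) ^ 2 +
      (Sa (U a) (W a) l - Sa (U b) (W b) l) ^ 2 ≤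
      (Ra (σ a) (U a) (W a) l + Ra (σ b) (U b) (W b) l) ^ 2) := by
    intro a b ha hb
    rw [hc a b ha hb]
    have h3 := cross (u := U a) (v := W a) (u' := U b) (v' := W b) hl
    have h4 : σ a = -1 := by simp only [hσ, if_pos ha]
    have h5 : σ b = 1 := by simp only [hσ, if_neg hb]
    have h6 : (U b - U a) * (W b - W a) = r b ^ 2 - (y a - y b) ^ 2 := by
      simp only [hU, hW, ht, if_pos ha, if_neg hb]
      ring
    rw [h4, h5]
    constructor <;> intro h <;> linarith
  by_cases h : low a ↔ low b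
  · constructor
    · intro hab
      refine ⟨hab.ne, ?_⟩
      have := h2 (a, b) h
      dsimp only at this
      linarith
    · rintro ⟨hne, _⟩
      exact hs a b hne h
  · by_cases ha : low a
    · have hb : ¬ low b := fun hb => h ⟨fun _ => hb, fun _ => ha⟩
      rw [key a b ha hb]
      constructor
      · intro h3
        exact ⟨fun h4 => hb (h4 ▸ ha), h3⟩
      · exact fun h3 => h3.2
    · have hb : low b := by
        by_contra hb
        exact h ⟨fun h3 => absurd h3 ha, fun h3 => absurd h3 hb⟩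
      rw [X.adj_comm, key b a hb ha]
      constructor
      · intro h3
        refine ⟨fun h4 => ha (h4 ▸ hb), ?_⟩
        linarith
      · intro h3
        linarith [h3.2]

end Pool.Agent.J4.H24.DG
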