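import Pool.Agent.J4.H24.DG.Final

/-!
# Isomorphism of disk graphs in the plane is GI-complete

The graph isomorphism problem for arbitrary finite graphs reduces, by a polynomial-time many-one
reduction (a Turing machine in the sense of Mathlib, working on bit strings), to the isomorphism
problem of disk graphs, the intersection graphs of closed disks of arbitrary radii in the Euclidean
plane; even for families of disks each of which contains one of two given points (so that the
graph is covered by two cliques).

The proof: an incidence relation is encoded by strands which run in parallel through a long strip
and are moved one after the other to the bottom of the strip; the reduction must not see the order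
of the strands.  The vertices of one side are points, the vertices of the other side disks, whose
boundaries touch only columns in which the strands have pairwise different heights, or which cover
all strands of a level.  A Lorentz boost of `ℝ^{2,1}` (the space of the disks of the plane, two
disks meet iff the difference of one and the reversed other is causal) turns the points into disks
such that all disks of one side have a common point.
-/

set_option autoImplicit false

namespace Pool.Agent.J4.H24.DG.DiskGraphsFirst

open Pool.Agent.NPC Pool.Agent.NPC.R671 Pool.Agent.Y815.GI Pool.Agent.J4.H79.GI
  Pool.Agent.J4.H24.DG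

/-- **The isomorphism problem for disk graphs in the plane is GI-complete, even for families of
disks pierced by two points.**

* There is a polynomial-time computable function `f` on bit strings such that, for *every* bit
  string `x`, the value `f x` codes a pair of adjacency matrices of graphs `X'`, `Y'` of
  `DiskClass` (intersection graphs of closed disks of positive radii in the Euclidean plane, each
  disk containing one of two points), and `x` is a yes-instance of the graph isomorphism problem
  iff `X'` and `Y'` are isomorphic.
* Every graph of `DiskClass` is a disk graph and is covered by two cliques.
* So the graph isomorphism problem is polynomial-time many-one reducible to the isomorphism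
  problem of every class of graphs which contains `DiskClass`, in particular of the disk graphs,
  and of the disk graphs covered by two cliques.
* Graph isomorphism is in `P` iff some language in `P` decides isomorphism correctly on the pairs
  of graphs of `DiskClass`. -/
theorem result :
    (∃ f : List Bool → List Bool, PolyTime f ∧ ∀ x : List Bool,
      ∃ (N M : ℕ) (X' : SimpleGraph (Fin N)) (Y' : SimpleGraph (Fin M)),
        f x = bits (adjMatrix X', adjMatrix Y') ∧ DiskClass N X' ∧ DiskClass M Y' ∧
          (x ∈ lang GraphIso ↔ Nonempty (X' ≃g Y'))) ∧
    (∀ (n : ℕ) (X : SimpleGraph (Fin n)), DiskClass n X →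
      CoBipartite X ∧ IsBallGraph (EuclideanSpace ℝ (Fin 2)) X) ∧
    (∀ C : ∀ n : ℕ, SimpleGraph (Fin n) → Prop,
      (∀ (n : ℕ) (X : SimpleGraph (Fin n)), DiskClass n X → C n X) →
        Reduces (lang GraphIso) (lang (ClassIso C))) ∧
    Reduces (lang GraphIso)
      (lang (ClassIso fun _ X => IsBallGraph (EuclideanSpace ℝ (Fin 2)) X)) ∧
    Reduces (lang GraphIso)
      (lang (ClassIso fun _ X => CoBipartite X ∧ IsBallGraph (EuclideanSpace ℝ (Fin 2)) X)) ∧
    (InP (lang GraphIso) ↔ ∃ L : Set (List Bool), InP L ∧
      ∀ (N M : ℕ) (X : SimpleGraph (Fin N)) (Y : SimpleGraph (Fin M)), DiskClass N X →
        DiskClass M Y → (bits (adjMatrix X, adjMatrix Y) ∈ L ↔ Nonempty (X ≃g Y))) :=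
  ⟨diskConstr.main,
    fun _ _ h => ⟨IsPiercedBallGraph.coBipartite h, IsPiercedBallGraph.isBallGraph h⟩,
    fun C hC => diskConstr.reduces C hC,
    diskConstr.reduces _ fun _ _ h => IsPiercedBallGraph.isBallGraph h,
    diskConstr.reduces _ fun _ _ h =>
      ⟨IsPiercedBallGraph.coBipartite h, IsPiercedBallGraph.isBallGraph h⟩,
    diskConstr.inP_iff⟩

end Pool.Agent.J4.H24.DG.DiskGraphsFirst
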