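import Pool.Agent.J4.H24.DG.Defs

/-!
# The isomorphisms of the graphs `XG2` preserve the levels
-/

set_option autoImplicit false

namespace Pool.Agent.J4.H24.DG

open Pool.Agent.NPC Pool.Agent.NPC.R671 Pool.Agent.W125.Dim Pool.Agent.Y815.GI
  Pool.Agent.J4.H79.GI Pool.Agent.W125.Dim.Vtx

variable {U W U' W' : Type} {A : U → W → Prop} {A' : U' → W' → Prop} {R : ℕ}

namespace Lev

/-- neighbours of `u x` -/
theorem adj_u (x : U) (v : Vtx A R) :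
    (XG2 A R).Adj (u x) v ↔ ∃ (l : Fin (6 * R + 2)) (e : Inc A), v = c l e ∧ (l : ℕ) = 0 ∧ e.1.1 = x := by
  match v with
  | u y => simp [XG2, Rel2]
  | w y => simp [XG2, Rel2]
  | c l e =>
    constructor
    · rintro (h | h)
      · exact h.elim
      · exact ⟨l, e, rfl, h⟩
    · rintro ⟨l', e', h1, h2⟩
      obtain ⟨rfl, rfl⟩ := Vtx.c.inj h1
      exact Or.inr h2

/-- neighbours of `w y` -/
theorem adj_w (y : W) (v : Vtx A R) :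
    (XG2 A R).Adj (w y) v ↔ ∃ (l : Fin (6 * R + 2)) (e : Inc A),
      v = c l e ∧ (l : ℕ) = 6 * R + 1 ∧ e.1.2 = y := by
  match v with
  | u y => simp [XG2, Rel2]
  | w y => simp [XG2, Rel2]
  | c l e =>
    constructor
    · rintro (h | h)
      · exact ⟨l, e, rfl, h⟩
      · exact h.elim
    · rintro ⟨l', e', h1, h2⟩
      obtain ⟨rfl, rfl⟩ := Vtx.c.inj h1
      exact Or.inl h2

/-- adjacency of two levels -/
theorem adj_cc (l k : Fin (6 * R + 2)) (e f : Inc A) :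
    (XG2 A R).Adj (c l e) (c k f) ↔ crel2 l k (e = f) ∨ crel2 k l (f = e) := Iff.rfl

theorem adj_step (l k : Fin (6 * R + 2)) (e : Inc A) (h : (k : ℕ) = l + 1) :
    (XG2 A R).Adj (c l e) (c k e) := by
  rw [adj_cc]
  rcases Nat.mod_two_eq_zero_or_one (l : ℕ) with hl | hl
  · exact Or.inl ⟨hl, Or.inl ⟨rfl, Or.inl h⟩⟩
  · exact Or.inr ⟨by omega, Or.inl ⟨rfl, Or.inr h⟩⟩

/-- neighbouring levels of different strands are not adjacent -/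
theorem not_adj_step (l k : Fin (6 * R + 2)) (e f : Inc A) (hef : e ≠ f)
    (h : (k : ℕ) = l + 1 ∨ (l : ℕ) = k + 1) : ¬ (XG2 A R).Adj (c l e) (c k f) := by
  rw [adj_cc]
  rintro (⟨h0, ⟨h1, -⟩ | ⟨h1, h2⟩ | ⟨h1, h2⟩⟩ | ⟨h0, ⟨h1, -⟩ | ⟨h1, h2⟩ | ⟨h1, h2⟩⟩)
  · exact hef h1
  · omega
  · omega
  · exact hef h1.symm
  · omega
  · omega

/-- private neighbours -/
theorem priv (v : Vtx A R) (l : Fin (6 * R + 2)) (e f : Inc A) (h : (XG2 A R).Adj v (c l e))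
    (h' : ¬ (XG2 A R).Adj v (c l f)) :
    (∃ k : Fin (6 * R + 2), v = c k e ∧ ((k : ℕ) = l + 1 ∨ (l : ℕ) = k + 1)) ∨
      (v = u e.1.1 ∧ (l : ℕ) = 0) ∨ (v = w e.1.2 ∧ (l : ℕ) = 6 * R + 1) := by
  match v with
  | u x =>
    rw [adj_u] at h
    obtain ⟨l', e', h1, h2, h3⟩ := h
    obtain ⟨rfl, rfl⟩ := Vtx.c.inj h1
    exact Or.inr (Or.inl ⟨by rw [h3], h2⟩)
  | w x =>
    rw [adj_w] at h
    obtain ⟨l', e', h1, h2, h3⟩ := h
    obtain ⟨rfl, rfl⟩ := Vtx.c.inj h1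
    exact Or.inr (Or.inr ⟨by rw [h3], h2⟩)
  | c k g =>
    rw [adj_cc] at h h'
    rcases h with ⟨h0, ⟨h1, h2⟩ | h1⟩ | ⟨h0, ⟨h1, h2⟩ | h1⟩
    · subst h1
      exact Or.inl ⟨k, rfl, h2.symm⟩
    · exact absurd (Or.inl ⟨h0, Or.inr h1⟩) h'
    · subst h1
      exact Or.inl ⟨k, rfl, h2⟩
    · exact absurd (Or.inr ⟨h0, Or.inr h1⟩) h'

theorem exists_ne (h : Three A) (e : Inc A) : ∃ f : Inc A, f ≠ e := by
  obtain ⟨a, b, -, hab, -, -⟩ := h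
  by_cases ha : a = e
  · exact ⟨b, fun hb => hab (ha.trans hb.symm)⟩
  · exact ⟨a, ha⟩

/-- all levels are preserved -/
theorem levels (h : Hyp A) (φ : XG2 A R ≃g XG2 A' R) (σ : Inc A → Inc A')
    (hσ : ∀ e, φ (c ⟨6 * R + 1, by omega⟩ e) = c ⟨6 * R + 1, by omega⟩ (σ e))
    (hf : ∀ (e : Inc A) (y : W'), φ (c ⟨6 * R, by omega⟩ e) ≠ w y) :
    ∀ (l : ℕ) (hl : l < 6 * R + 2) (e : Inc A), φ (c ⟨l, hl⟩ e) = c ⟨l, hl⟩ (σ e) := by
  have step : ∀ (l m : ℕ) (hl : l < 6 * R + 2) (hm : m < 6 * R + 2), m = l + 1 →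
      (∀ e : Inc A, φ (c ⟨m, hm⟩ e) = c ⟨m, hm⟩ (σ e)) → ∀ e : Inc A,
      (∃ k : Fin (6 * R + 2), φ (c ⟨l, hl⟩ e) = c k (σ e) ∧ ((k : ℕ) = m + 1 ∨ m = (k : ℕ) + 1)) ∨
      (φ (c ⟨l, hl⟩ e) = w (σ e).1.2 ∧ m = 6 * R + 1) := by
    intro l m hl hm hml hP e
    obtain ⟨f, hfe⟩ := exists_ne h.three e
    have h1 : (XG2 A' R).Adj (φ (c ⟨l, hl⟩ e)) (c ⟨m, hm⟩ (σ e)) := by
      rw [← hP, φ.map_adj_iff]
      exact adj_step _ _ _ hml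
    have h2 : ¬ (XG2 A' R).Adj (φ (c ⟨l, hl⟩ e)) (c ⟨m, hm⟩ (σ f)) := by
      rw [← hP, φ.map_adj_iff]
      exact not_adj_step _ _ _ _ hfe.symm (Or.inl hml)
    rcases priv _ _ _ _ h1 h2 with h3 | ⟨-, h3⟩ | ⟨h3, h4⟩
    · exact Or.inl h3
    · exfalso
      simp only at h3
      omega
    · exact Or.inr ⟨h3, h4⟩
  have base : ∀ e : Inc A, φ (c ⟨6 * R, by omega⟩ e) = c ⟨6 * R, by omega⟩ (σ e) := by
    intro e
    rcases step (6 * R) (6 * R + 1) (by omega) (by omega) rfl hσ e with ⟨k, h1, h2 | h2⟩ | ⟨h1, h2⟩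
    · exact absurd k.2 (by omega)
    · rw [h1]
      congr 1
      exact Fin.ext (show (k : ℕ) = 6 * R by omega)
    · exact absurd h1 (hf e _)
  have main : ∀ m : ℕ, m ≤ 6 * R → (∀ (hl : 6 * R - m < 6 * R + 2) (e : Inc A),
      φ (c ⟨6 * R - m, hl⟩ e) = c ⟨6 * R - m, hl⟩ (σ e)) ∧
      (∀ (hl : 6 * R - m + 1 < 6 * R + 2) (e : Inc A),
      φ (c ⟨6 * R - m + 1, hl⟩ e) = c ⟨6 * R - m + 1, hl⟩ (σ e)) := by
    intro m
    induction m with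
    | zero => exact fun _ => ⟨fun _ e => base e, fun _ e => hσ e⟩
    | succ m ih =>
      intro hm
      obtain ⟨ih1, ih2⟩ := ih (by omega)
      obtain ⟨l, hl⟩ : ∃ l, l = 6 * R - (m + 1) := ⟨_, rfl⟩
      have hl1 : 6 * R - m = l + 1 := by omega
      rw [hl1] at ih1 ih2
      rw [← hl]
      refine ⟨fun hl2 e => ?_, ih1⟩
      rcases step l (l + 1) hl2 (by omega) rfl (ih1 (by omega)) e with ⟨k, h1, h2 | h2⟩ | ⟨h1, h2⟩
      · exfalso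
        have h3 := ih2 (by omega) e
        have h4 : φ (c ⟨l, hl2⟩ e) = φ (c ⟨l + 1 + 1, by omega⟩ e) := by
          rw [h1, h3]
          congr 1
          exact Fin.ext h2
        have h5 := congrArg Fin.val (Vtx.c.inj (φ.injective h4)).1
        simp only at h5
        omega
      · rw [h1]
        congr 1
        exact Fin.ext (show (k : ℕ) = l by omega)
      · exfalso
        omega
  intro l hl e
  rcases Nat.lt_or_ge l (6 * R + 1) with h1 | h1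
  · have h2 := (main (6 * R - l) (by omega)).1
    rw [show 6 * R - (6 * R - l) = l by omega] at h2
    exact h2 hl e
  · have h2 : l = 6 * R + 1 := by omega
    subst h2
    exact hσ e

theorem map_u (h : Hyp A) (φ : XG2 A R ≃g XG2 A' R) (σ : Inc A → Inc A')
    (hl : ∀ (l : ℕ) (hl : l < 6 * R + 2) (e : Inc A), φ (c ⟨l, hl⟩ e) = c ⟨l, hl⟩ (σ e)) (x : U) :
    ∃ x', φ (u x) = u x' := by
  obtain ⟨y, hy⟩ := h.left x
  obtain ⟨f, hf⟩ := h.left_ne x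
  have h1 : (XG2 A' R).Adj (φ (u x)) (c ⟨0, by omega⟩ (σ ⟨(x, y), hy⟩)) := by
    rw [← hl, φ.map_adj_iff, adj_u]
    exact ⟨_, _, rfl, rfl, rfl⟩
  have h2 : ¬ (XG2 A' R).Adj (φ (u x)) (c ⟨0, by omega⟩ (σ f)) := by
    rw [← hl, φ.map_adj_iff, adj_u]
    rintro ⟨l', e', h3, h4, h5⟩
    rw [← (Vtx.c.inj h3).2] at h5
    exact hf h5
  rcases priv _ _ _ _ h1 h2 with ⟨k, h3, h4 | h4⟩ | ⟨h3, h4⟩ | ⟨h3, h4⟩
  · exfalso
    have h5 : φ (u x) = φ (c ⟨k, k.2⟩ ⟨(x, y), hy⟩) := by rw [hl]; exact h3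
    cases φ.injective h5
  · simp only at h4
    omega
  · exact ⟨_, h3⟩
  · simp only at h4
    omega

theorem map_w (h : Hyp A) (φ : XG2 A R ≃g XG2 A' R) (σ : Inc A → Inc A')
    (hl : ∀ (l : ℕ) (hl : l < 6 * R + 2) (e : Inc A), φ (c ⟨l, hl⟩ e) = c ⟨l, hl⟩ (σ e)) (y : W) :
    ∃ y', φ (w y) = w y' := by
  obtain ⟨x, hx⟩ := h.right y
  obtain ⟨f, hf⟩ := h.right_ne y
  have h1 : (XG2 A' R).Adj (φ (w y)) (c ⟨6 * R + 1, by omega⟩ (σ ⟨(x, y), hx⟩)) := by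
    rw [← hl, φ.map_adj_iff, adj_w]
    exact ⟨_, _, rfl, rfl, rfl⟩
  have h2 : ¬ (XG2 A' R).Adj (φ (w y)) (c ⟨6 * R + 1, by omega⟩ (σ f)) := by
    rw [← hl, φ.map_adj_iff, adj_w]
    rintro ⟨l', e', h3, h4, h5⟩
    rw [← (Vtx.c.inj h3).2] at h5
    exact hf h5
  rcases priv _ _ _ _ h1 h2 with ⟨k, h3, h4⟩ | ⟨h3, h4⟩ | ⟨h3, h4⟩
  · exfalso
    have h5 : φ (w y) = φ (c ⟨k, k.2⟩ ⟨(x, y), hx⟩) := by rw [hl]; exact h3
    cases φ.injective h5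
  · simp only at h4
    omega
  · exact ⟨_, h3⟩

theorem map_e1 (φ : XG2 A R ≃g XG2 A' R) (σ : Inc A → Inc A')
    (hl : ∀ (l : ℕ) (hl : l < 6 * R + 2) (e : Inc A), φ (c ⟨l, hl⟩ e) = c ⟨l, hl⟩ (σ e))
    (α : U → U') (hα : ∀ x, φ (u x) = u (α x)) (e : Inc A) : (σ e).1.1 = α e.1.1 := by
  have h8 : (XG2 A R).Adj (u e.1.1) (c ⟨0, by omega⟩ e) := by
    rw [adj_u]; exact ⟨_, _, rfl, rfl, rfl⟩
  rw [← φ.map_adj_iff, hα, hl, adj_u] at h8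
  obtain ⟨l', e', h9, h10, h11⟩ := h8
  rw [(Vtx.c.inj h9).2, h11]

theorem map_e2 (φ : XG2 A R ≃g XG2 A' R) (σ : Inc A → Inc A')
    (hl : ∀ (l : ℕ) (hl : l < 6 * R + 2) (e : Inc A), φ (c ⟨l, hl⟩ e) = c ⟨l, hl⟩ (σ e))
    (β : W → W') (hβ : ∀ x, φ (w x) = w (β x)) (e : Inc A) : (σ e).1.2 = β e.1.2 := by
  have h8 : (XG2 A R).Adj (w e.1.2) (c ⟨6 * R + 1, by omega⟩ e) := by
    rw [adj_w]; exact ⟨_, _, rfl, rfl, rfl⟩
  rw [← φ.map_adj_iff, hβ, hl, adj_w] at h8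
  obtain ⟨l', e', h9, h10, h11⟩ := h8
  rw [(Vtx.c.inj h9).2, h11]

end Lev

theorem struct_of_top (hR : 2 ≤ R) (h : Hyp A) (h' : Hyp A') (φ : XG2 A R ≃g XG2 A' R)
    (ht : ∀ e : Inc A, ∃ e' : Inc A',
      φ (c ⟨6 * R + 1, by omega⟩ e) = c ⟨6 * R + 1, by omega⟩ e')
    (ht' : ∀ e : Inc A', ∃ e' : Inc A,
      φ.symm (c ⟨6 * R + 1, by omega⟩ e) = c ⟨6 * R + 1, by omega⟩ e')
    (hf : ∀ (e : Inc A) (y : W'), φ (c ⟨6 * R, by omega⟩ e) ≠ w y)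
    (hf' : ∀ (e : Inc A') (y : W), φ.symm (c ⟨6 * R, by omega⟩ e) ≠ w y) :
    ∃ (α : U ≃ U') (β : W ≃ W'), ∀ x y, A x y ↔ A' (α x) (β y) := by
  choose σ hσ using ht
  choose σ' hσ' using ht'
  have hl := Lev.levels h φ σ hσ hf
  have hl' := Lev.levels h' φ.symm σ' hσ' hf'
  choose α hα using fun x => Lev.map_u h φ σ hl x
  choose α' hα' using fun x => Lev.map_u h' φ.symm σ' hl' x
  choose β hβ using fun x => Lev.map_w h φ σ hl x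
  choose β' hβ' using fun x => Lev.map_w h' φ.symm σ' hl' x
  have e1 := Lev.map_e1 φ σ hl α hα
  have e2 := Lev.map_e2 φ σ hl β hβ
  have e1' := Lev.map_e1 φ.symm σ' hl' α' hα'
  have e2' := Lev.map_e2 φ.symm σ' hl' β' hβ'
  have a1 : ∀ x, α' (α x) = x := by
    intro x
    have h1 := congrArg φ.symm (hα x)
    rw [RelIso.symm_apply_apply, hα'] at h1
    exact (Vtx.u.inj h1).symm
  have a2 : ∀ x, α (α' x) = x := by
    intro x
    have h1 := congrArg φ (hα' x)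
    rw [RelIso.apply_symm_apply, hα] at h1
    exact (Vtx.u.inj h1).symm
  have b1 : ∀ y, β' (β y) = y := by
    intro x
    have h1 := congrArg φ.symm (hβ x)
    rw [RelIso.symm_apply_apply, hβ'] at h1
    exact (Vtx.w.inj h1).symm
  have b2 : ∀ y, β (β' y) = y := by
    intro x
    have h1 := congrArg φ (hβ' x)
    rw [RelIso.apply_symm_apply, hβ] at h1
    exact (Vtx.w.inj h1).symm
  have hA : ∀ x y, A x y → A' (α x) (β y) := by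
    intro x y hxy
    have h1 := (σ ⟨(x, y), hxy⟩).2
    rwa [e1, e2] at h1
  have hA' : ∀ x y, A' x y → A (α' x) (β' y) := by
    intro x y hxy
    have h1 := (σ' ⟨(x, y), hxy⟩).2
    rwa [e1', e2'] at h1
  refine ⟨⟨α, α', a1, a2⟩, ⟨β, β', b1, b2⟩, fun x y => ⟨hA x y, fun h => ?_⟩⟩
  have := hA' _ _ h
  simp only [Equiv.coe_fn_mk] at this
  rwa [a1, b1] at this

end Pool.Agent.J4.H24.DG
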