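import Pool.Agent.J4.H24.DG.Defs

/-!
# The polynomial-time reduction for an abstract construction
-/

set_option autoImplicit false

namespace Pool.Agent.J4.H24.DG

open Pool.Agent.NPC Pool.Agent.NPC.R671 Pool.Agent.W125.Dim Pool.Agent.Y815.GI
  Pool.Agent.J4.H79.GI Pool.Agent.W125.Dim.Vtx

/-- an abstract construction on the vertex set `Vtx (AX X) (RR n)` -/
structure Constr (C : ∀ n : ℕ, SimpleGraph (Fin n) → Prop) where
  ad : ℕ → Lb → Lb → Bool
  symm : ∀ R a b, ad R a b = ad R b a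
  irrefl : ∀ R a, ad R a a = false
  poly : ∀ {α : Type} [TEnc α] {R : α → ℕ} {a b : α → Lb}, Poly R → Poly a → Poly b →
    Poly (fun x => ad (R x) (a x) (b x))
  G : ∀ {n : ℕ} (X : SimpleGraph (Fin n)), SimpleGraph (Vtx (AX X) (RR n))
  code : ∀ {n : ℕ} (X : SimpleGraph (Fin n)) (a b : Vtx (AX X) (RR n)),
    ad (RR n) (Y815.GI.code X (RR n) a) (Y815.GI.code X (RR n) b) = true ↔ (G X).Adj a b
  mem : ∀ {n N : ℕ} (X : SimpleGraph (Fin n)) (X' : SimpleGraph (Fin N)), 2 ≤ n →
    Nonempty (X' ≃g G X) → C N X'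
  small : ∀ {n : ℕ} (X : SimpleGraph (Fin n)), n ≤ 1 → C n X
  iso : ∀ {n : ℕ} (X Y : SimpleGraph (Fin n)), 2 ≤ n → (Nonempty (X ≃g Y) ↔ Nonempty (G X ≃g G Y))

variable {C : ∀ n : ℕ, SimpleGraph (Fin n) → Prop} (K : Constr C)

/-- adjacency of the labels, as a plain function -/
def adOf (R : ℕ) (a b : Lb) : Bool := K.ad R a b

theorem adOf_symm (R : ℕ) (a b : Lb) : adOf K R a b = adOf K R b a := K.symm R a b

theorem adOf_irrefl (R : ℕ) (a : Lb) : adOf K R a a = false := K.irrefl R a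

/-- the output matrix -/
def outOf (M : List (List Bool)) : List (List Bool) :=
  (verts M).map (fun u => (verts M).map (fun w => adOf K (RR M.length) u w))

/-- The output is the adjacency matrix of a graph isomorphic to the construction. -/
theorem outOf_eq {n : ℕ} (X : SimpleGraph (Fin n)) : ∃ (N : ℕ) (X' : SimpleGraph (Fin N)),
    adjMatrix X' = outOf K (adjMatrix X) ∧ Nonempty (X' ≃g K.G X) := by
  obtain ⟨e, he⟩ := exists_equiv (verts (adjMatrix X)) (nodup_verts _) (code X (RR n))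
    (code_inj X (RR n)) (mem_verts X)
  refine ⟨_, listGraph (verts (adjMatrix X)) (adOf K (RR n)) (adOf_symm K _)
    (adOf_irrefl K _), ?_,
    ⟨⟨e, ?_⟩⟩⟩
  · rw [adjMatrix_listGraph]
    unfold outOf
    rw [length_adjMatrix]
  · intro a b
    rw [← K.code, he, he]
    exact Iff.rfl

/-- the reduction -/
def redOf (p : List (List Bool) × List (List Bool)) : List (List Bool) × List (List Bool) :=
  if (valid p.1 = true ∧ valid p.2 = true) ∧ p.1.length = p.2.length then
    (if 2 ≤ p.1.length then (outOf K p.1, outOf K p.2) else ([], []))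
  else ([], [[false]])

theorem redOf_spec (p : List (List Bool) × List (List Bool)) :
    ∃ (N M : ℕ) (X' : SimpleGraph (Fin N)) (Y' : SimpleGraph (Fin M)),
      redOf K p = (adjMatrix X', adjMatrix Y') ∧ C N X' ∧ C M Y' ∧
        (GraphIso p ↔ Nonempty (X' ≃g Y')) := by
  by_cases h : (valid p.1 = true ∧ valid p.2 = true) ∧ p.1.length = p.2.length
  · obtain ⟨p1, p2⟩ := p
    obtain ⟨⟨h1, h2⟩, h3⟩ := h
    rw [valid_iff] at h1 h2
    obtain ⟨n, X, rfl⟩ := h1
    obtain ⟨m, Y, rfl⟩ := h2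
    rw [length_adjMatrix, length_adjMatrix] at h3
    subst h3
    have hval : (valid (adjMatrix X, adjMatrix Y).1 = true ∧
        valid (adjMatrix X, adjMatrix Y).2 = true) ∧
        (adjMatrix X, adjMatrix Y).1.length = (adjMatrix X, adjMatrix Y).2.length :=
      ⟨⟨(valid_iff _).2 ⟨n, X, rfl⟩, (valid_iff _).2 ⟨n, Y, rfl⟩⟩, by
        rw [length_adjMatrix, length_adjMatrix]⟩
    by_cases hn : 2 ≤ n
    · obtain ⟨N, X', hX', ⟨φ⟩⟩ := outOf_eq K X
      obtain ⟨M, Y', hY', ⟨ψ⟩⟩ := outOf_eq K Y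
      refine ⟨N, M, X', Y', ?_, K.mem X X' hn ⟨φ⟩, K.mem Y Y' hn ⟨ψ⟩, ?_⟩
      · unfold redOf
        rw [if_pos hval, if_pos (by rw [length_adjMatrix]; exact hn), hX', hY']
      · rw [graphIso_iff, K.iso X Y hn]
        constructor
        · rintro ⟨χ⟩
          exact ⟨φ.trans (χ.trans ψ.symm)⟩
        · rintro ⟨χ⟩
          exact ⟨φ.symm.trans (χ.trans ψ)⟩
    · refine ⟨0, 0, ⊥, ⊥, ?_, K.small _ (by norm_num), K.small _ (by norm_num), ?_⟩
      · unfold redOf
        rw [if_pos hval, if_neg (by rw [length_adjMatrix]; exact hn)]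
        simp [adjMatrix]
      · rw [graphIso_iff]
        have key : ∀ u v : Fin n, u = v := fun u v => Fin.ext (by omega)
        refine ⟨fun _ => ⟨SimpleGraph.Iso.refl⟩, fun _ => ⟨⟨Equiv.refl _, fun {a b} => ?_⟩⟩⟩
        exact ⟨fun h => absurd (key _ _) h.ne, fun h => absurd (key _ _) h.ne⟩
  · refine ⟨0, 1, ⊥, ⊥, ?_, K.small _ (by norm_num), K.small _ le_rfl, ?_⟩
    · unfold redOf
      rw [if_neg h]
      simp [adjMatrix]
    · constructor
      · rintro ⟨n, m, X, Y, h1, h2, ⟨φ⟩⟩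
        exfalso
        apply h
        refine ⟨⟨(valid_iff _).2 ⟨n, X, h1⟩, (valid_iff _).2 ⟨m, Y, h2⟩⟩, ?_⟩
        rw [← h1, ← h2, length_adjMatrix, length_adjMatrix]
        have := Fintype.card_congr φ.toEquiv
        simpa using this
      · rintro ⟨φ⟩
        exact (φ.symm 0).elim0

/-! ### Polynomial time -/

section

variable {α : Type} [TEnc α]

@[fun_prop]
theorem poly_adOf {R : α → ℕ} {a b : α → Lb} (hR : Poly R) (ha : Poly a) (hb : Poly b) :
    Poly (fun x => adOf K (R x) (a x) (b x)) := K.poly hR ha hb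

@[fun_prop]
theorem poly_outOf {f : α → List (List Bool)} (hf : Poly f) : Poly (fun a => outOf K (f a)) := by
  unfold outOf
  fun_prop

end

theorem poly_redOf : Poly (redOf K) := by
  unfold redOf
  fun_prop

/-- The reduction on bit strings. -/
def redOfBits (x : List Bool) : List (List Bool) × List (List Bool) :=
  (unbits (List (List Bool) × List (List Bool)) x).elim ([], [[false]]) (redOf K)

theorem poly_redOfBits : Poly (redOfBits K) := by
  unfold redOfBits
  exact NPC.Poly.optElim poly_unbits (NPC.Poly.const _)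
    ((poly_redOf K).comp (NPC.Poly.snd NPC.Poly.id))

theorem redOfBits_spec (x : List Bool) :
    ∃ (N M : ℕ) (X' : SimpleGraph (Fin N)) (Y' : SimpleGraph (Fin M)),
      redOfBits K x = (adjMatrix X', adjMatrix Y') ∧ C N X' ∧ C M Y' ∧
        (x ∈ lang GraphIso ↔ Nonempty (X' ≃g Y')) := by
  unfold redOfBits
  rw [mem_lang_iff]
  cases h : unbits (List (List Bool) × List (List Bool)) x with
  | none =>
    refine ⟨0, 1, ⊥, ⊥, ?_, K.small _ (by norm_num), K.small _ le_rfl, ?_⟩
    · simp [adjMatrix]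
    · constructor
      · rintro ⟨a, ha, _⟩
        exact absurd ha (by simp)
      · rintro ⟨φ⟩
        exact (φ.symm 0).elim0
  | some p =>
    obtain ⟨N, M, X', Y', h1, h2, h3, h4⟩ := redOf_spec K p
    refine ⟨N, M, X', Y', h1, h2, h3, ?_⟩
    rw [← h4]
    constructor
    · rintro ⟨a, ha, h5⟩
      rw [Option.some.inj ha]
      exact h5
    · intro h5
      exact ⟨p, rfl, h5⟩

/-- The graph isomorphism problem reduces in polynomial time to the isomorphism problem of graphs
of the class. -/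
theorem Constr.main {C : ∀ n : ℕ, SimpleGraph (Fin n) → Prop} (K : Constr C) :
    ∃ f : List Bool → List Bool, PolyTime f ∧ ∀ x : List Bool,
    ∃ (N M : ℕ) (X' : SimpleGraph (Fin N)) (Y' : SimpleGraph (Fin M)),
      f x = bits (adjMatrix X', adjMatrix Y') ∧ C N X' ∧ C M Y' ∧
        (x ∈ lang GraphIso ↔ Nonempty (X' ≃g Y')) := by
  refine ⟨fun x => bits (redOfBits K x), polyTime_bits (poly_redOfBits K), fun x => ?_⟩
  obtain ⟨N, M, X', Y', h1, h2, h3, h4⟩ := redOfBits_spec K x
  exact ⟨N, M, X', Y', congrArg bits h1, h2, h3, h4⟩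

/-- The reduction works for every class which contains the graphs of the class `C`. -/
theorem Constr.reduces {C : ∀ n : ℕ, SimpleGraph (Fin n) → Prop} (K : Constr C)
    (C' : ∀ n : ℕ, SimpleGraph (Fin n) → Prop) (hC : ∀ n X, C n X → C' n X) :
    Reduces (lang GraphIso) (lang (ClassIso C')) := by
  obtain ⟨f, hf, h⟩ := K.main
  refine ⟨f, hf, fun x => ?_⟩
  obtain ⟨N, M, X', Y', h1, h2, h3, h4⟩ := h x
  rw [h4, h1, bits_mem_class C' X' Y' (hC _ _ h2) (hC _ _ h3)]

/-- Membership in `P` of the isomorphism problem restricted to the class, as a promise problem. -/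
theorem Constr.inP_iff {C : ∀ n : ℕ, SimpleGraph (Fin n) → Prop} (K : Constr C) :
    InP (lang GraphIso) ↔ ∃ L : Set (List Bool), InP L ∧
      ∀ (N M : ℕ) (X : SimpleGraph (Fin N)) (Y : SimpleGraph (Fin M)), C N X → C M Y →
        (bits (adjMatrix X, adjMatrix Y) ∈ L ↔ Nonempty (X ≃g Y)) := by
  constructor
  · intro h
    exact ⟨_, h, fun N M X Y _ _ => bits_mem X Y⟩
  · rintro ⟨L, hL, h⟩
    obtain ⟨f, hf, h'⟩ := K.main
    refine InP.of_reduces ⟨f, hf, fun x => ?_⟩ hL
    obtain ⟨N, M, X', Y', h1, h2, h3, h4⟩ := h' x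
    rw [h4, h1, h N M X' Y' h2 h3]

end Pool.Agent.J4.H24.DG
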