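import Pool.Agent.J4.H24.DG.Strip
import Pool.Agent.J4.H24.DG.Top
import Pool.Agent.J4.H24.DG.Lev
import Pool.Agent.J4.H24.DG.Cb
import Pool.Agent.J4.H24.DG.Main
import Pool.Agent.J4.H24.DG.Ad

/-!
# Isomorphism of disk graphs
-/

set_option autoImplicit false

namespace Pool.Agent.J4.H24.DG

open Pool.Agent.NPC Pool.Agent.NPC.R671 Pool.Agent.W125.Dim Pool.Agent.Y815.GI
  Pool.Agent.J4.H79.GI Pool.Agent.W125.Dim.Vtx

/-- The class of the finite graphs which are intersection graphs of closed disks (of arbitrary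
positive radii) in the Euclidean plane, each of which contains one of two given points. -/
def DiskClass (n : ℕ) (X : SimpleGraph (Fin n)) : Prop :=
  IsPiercedBallGraph (EuclideanSpace ℝ (Fin 2)) X

/-- small graphs -/
theorem disk_small {n : ℕ} (X : SimpleGraph (Fin n)) (hn : n ≤ 1) : DiskClass n X := by
  have key : ∀ u v : Fin n, u = v := fun u v => Fin.ext (by omega)
  refine ⟨fun _ => 0, fun _ => 1, 0, 0, fun _ => one_pos,
    fun _ => Or.inl (Metric.mem_closedBall_self one_pos.le), fun u v => ?_⟩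
  exact ⟨fun h => absurd (key u v) h.ne, fun h => absurd (key u v) h.1⟩

theorem two_le_RR {n : ℕ} (hn : 2 ≤ n) : 2 ≤ RR n := by
  unfold RR
  nlinarith [Nat.zero_le n, Nat.mul_le_mul hn hn]

/-- Isomorphism of graphs and of the constructions. -/
theorem iso_iff_BG2 {n : ℕ} (hn : 2 ≤ n) (X Y : SimpleGraph (Fin n)) {R : ℕ} (hR : 2 ≤ R) :
    Nonempty (X ≃g Y) ↔ Nonempty (BG2 (AX X) R ≃g BG2 (AX Y) R) := by
  constructor
  · rintro ⟨φ⟩
    refine exists_ofXG2 φ.toEquiv (Equiv.prodCongr φ.toEquiv φ.toEquiv) fun x p => ?_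
    show _ ↔ (φ x = φ p.1 ∨ (φ x = φ p.2 ∧ Y.Adj (φ p.1) (φ p.2)))
    rw [φ.injective.eq_iff, φ.injective.eq_iff, φ.map_adj_iff]
    exact Iff.rfl
  · intro hψ
    have hX := hyp_AX hn X
    have hY := hyp_AX hn Y
    obtain ⟨ψ⟩ := exists_toXG2 (by omega) hX.three hY.three hψ
    obtain ⟨α, β, h⟩ := struct_of_top hR hX hY ψ (map_top hR hX hY ψ) (map_top hR hY hX ψ.symm)
      (map_floor hR hX hY ψ) (map_floor hR hY hX ψ.symm)
    refine ⟨⟨α, fun {x y} => ?_⟩⟩
    rw [adj_iff_AX, adj_iff_AX X]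
    constructor
    · rintro ⟨h1, p, h2, h3⟩
      refine ⟨fun h4 => h1 (by rw [h4]), β.symm p, ?_, ?_⟩
      · rw [h, β.apply_symm_apply]; exact h2
      · rw [h, β.apply_symm_apply]; exact h3
    · rintro ⟨h1, p, h2, h3⟩
      exact ⟨fun h4 => h1 (α.injective h4), β p, (h _ _).1 h2, (h _ _).1 h3⟩

/-- the construction of disk graphs -/
def diskConstr : Constr DiskClass where
  ad := ad2
  symm := ad2_symm
  irrefl := ad2_irrefl
  poly := poly_ad2
  G X := BG2 (AX X) (RR _)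
  code X a b := ad2_code X _ a b
  mem {n N} X X' hn := by
    rintro ⟨φ⟩
    obtain ⟨Nm⟩ := exists_num (U := Fin n) (W := Fin n × Fin n) (R := RR n) (by
      rw [Nat.card_prod, Nat.card_eq_fintype_card, Fintype.card_fin]
      exact Nat.le_succ _)
    exact (BG2_disk (two_le_RR hn) Nm).of_iso φ
  small X hn := disk_small X hn
  iso X Y hn := iso_iff_BG2 hn X Y (two_le_RR hn)

end Pool.Agent.J4.H24.DG
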