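import Pool.Agent.J4.H24.DG.Defs3

/-!
# DG, piece TOP3: characterisation of the top level by degrees (almost unit disks)
-/

set_option autoImplicit false
namespace Pool.Agent.J4.H24.DG
open Pool.Agent.NPC Pool.Agent.NPC.R671 Pool.Agent.W125.Dim Pool.Agent.Y815.GI
  Pool.Agent.J4.H79.GI Pool.Agent.W125.Dim.Vtx
variable {U W U' W' : Type} {A : U → W → Prop} {A' : U' → W' → Prop} {R : ℕ}

namespace Top3Aux

/-- the joins of two levels -/
def Jn3 (R l k : ℕ) : Prop := (l % 2 = 0 ∧ J3 R l k) ∨ (k % 2 = 0 ∧ J3 R k l)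

/-- neighbours of `u x` -/
theorem adjU (x : U) (v : Vtx A R) :
    (XG3 A R).Adj (u x) v ↔
      ∃ (l : Fin (6 * R + 2)) (e : Inc A), v = c l e ∧ (l : ℕ) = 0 ∧ e.1.1 = x := by
  match v with
  | u y => simp [XG3, Rel3]
  | w y => simp [XG3, Rel3]
  | c l e =>
    constructor
    · rintro (h | h)
      · exact h.elim
      · exact ⟨l, e, rfl, h⟩
    · rintro ⟨l', e', h1, h2⟩
      obtain ⟨rfl, rfl⟩ := Vtx.c.inj h1
      exact Or.inr h2

/-- neighbours of `w y` -/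
theorem adjW (y : W) (v : Vtx A R) :
    (XG3 A R).Adj (w y) v ↔ ∃ (l : Fin (6 * R + 2)) (e : Inc A),
      v = c l e ∧ (l : ℕ) = 6 * R + 1 ∧ e.1.2 = y := by
  match v with
  | u y => simp [XG3, Rel3]
  | w y => simp [XG3, Rel3]
  | c l e =>
    constructor
    · rintro (h | h)
      · exact ⟨l, e, rfl, h⟩
      · exact h.elim
    · rintro ⟨l', e', h1, h2⟩
      obtain ⟨rfl, rfl⟩ := Vtx.c.inj h1
      exact Or.inl h2

/-- neighbours of `c l e` -/
theorem adjC (l : Fin (6 * R + 2)) (e : Inc A) (v : Vtx A R) :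
    (XG3 A R).Adj (c l e) v ↔
      (∃ k : Fin (6 * R + 2), v = c k e ∧ ((k : ℕ) = l + 1 ∨ (l : ℕ) = k + 1)) ∨
      (∃ (k : Fin (6 * R + 2)) (f : Inc A), v = c k f ∧ Jn3 R l k) ∨
      (v = u e.1.1 ∧ (l : ℕ) = 0) ∨ (v = w e.1.2 ∧ (l : ℕ) = 6 * R + 1) := by
  match v with
  | u x =>
    constructor
    · rintro (⟨h0, h1⟩ | h)
      · right; right; left
        exact ⟨by rw [h1], h0⟩
      · exact h.elim
    · rintro (⟨k, h, _⟩ | ⟨k, f, h, _⟩ | ⟨h, h0⟩ | ⟨h, h0⟩)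
      · cases h
      · cases h
      · exact Or.inl ⟨h0, (Vtx.u.inj h).symm⟩
      · cases h
  | w x =>
    constructor
    · rintro (h | ⟨h0, h1⟩)
      · exact h.elim
      · right; right; right
        exact ⟨by rw [h1], h0⟩
    · rintro (⟨k, h, _⟩ | ⟨k, f, h, _⟩ | ⟨h, h0⟩ | ⟨h, h0⟩)
      · cases h
      · cases h
      · cases h
      · exact Or.inr ⟨h0, (Vtx.w.inj h).symm⟩
  | c k f =>
    constructor
    · rintro (h | h)
      · rcases h with ⟨h0, ⟨h2, h3⟩ | h1⟩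
        · subst h2
          exact Or.inl ⟨k, rfl, h3⟩
        · exact Or.inr (Or.inl ⟨k, f, rfl, Or.inl ⟨h0, h1⟩⟩)
      · rcases h with ⟨h0, ⟨h2, h3⟩ | h1⟩
        · subst h2
          exact Or.inl ⟨k, rfl, h3.symm⟩
        · exact Or.inr (Or.inl ⟨k, f, rfl, Or.inr ⟨h0, h1⟩⟩)
    · rintro (⟨k', h, h'⟩ | ⟨k', f', h, h'⟩ | ⟨h, h0⟩ | ⟨h, h0⟩)
      · obtain ⟨rfl, rfl⟩ := Vtx.c.inj h
        rcases Nat.mod_two_eq_zero_or_one (l : ℕ) with hl | hl
        · exact Or.inl ⟨hl, Or.inl ⟨rfl, h'⟩⟩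
        · exact Or.inr ⟨by omega, Or.inl ⟨rfl, h'.symm⟩⟩
      · obtain ⟨rfl, rfl⟩ := Vtx.c.inj h
        rcases h' with ⟨h0, h1⟩ | ⟨h0, h1⟩
        · exact Or.inl ⟨h0, Or.inr h1⟩
        · exact Or.inr ⟨h0, Or.inr h1⟩
      · cases h
      · cases h

theorem Big3_iso (φ : XG3 A R ≃g XG3 A' R) {v : Vtx A R} (h : Big3 v) : Big3 (φ v) := by
  obtain ⟨a, b, c, h1, h2, h3, h4, h5, h6⟩ := h
  exact ⟨φ a, φ b, φ c, fun h => h1 (φ.injective h), fun h => h2 (φ.injective h),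
    fun h => h3 (φ.injective h), φ.map_adj_iff.2 h4, φ.map_adj_iff.2 h5, φ.map_adj_iff.2 h6⟩

/-- adjacency of levels of the same strand -/
def Nb3 (R l k : ℕ) : Prop := (k = l + 1 ∨ l = k + 1) ∨ Jn3 R l k

/-- two levels which differ by one are neighbours -/
theorem nbA {l k : ℕ} (h : k = l + 1 ∨ l = k + 1) : Nb3 R l k := Or.inl h

theorem nbL1 {l k : ℕ} (h : l % 2 = 0 ∧ k % 6 = 1 ∧ k ≠ 6 * R + 1 ∧
    ((l % 6 ≠ 0 ∧ k + 3 < l) ∨ (l % 6 = 0 ∧ l + 1 < k))) : Nb3 R l k :=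
  Or.inr (Or.inl ⟨h.1, Or.inl h.2⟩)

theorem nbL3 {l k : ℕ} (h : l % 2 = 0 ∧ k % 6 = 3 ∧ l % 6 ≠ 0 ∧ l + 1 < k) : Nb3 R l k :=
  Or.inr (Or.inl ⟨h.1, Or.inr (Or.inl h.2)⟩)

theorem nbL5 {l k : ℕ} (h : l % 2 = 0 ∧ k % 6 = 5 ∧
    ((l % 6 ≠ 0 ∧ k < l) ∨ (l % 6 = 0 ∧ l < k))) : Nb3 R l k :=
  Or.inr (Or.inl ⟨h.1, Or.inr (Or.inr h.2)⟩)

theorem nbR1 {l k : ℕ} (h : k % 2 = 0 ∧ l % 6 = 1 ∧ l ≠ 6 * R + 1 ∧
    ((k % 6 ≠ 0 ∧ l + 3 < k) ∨ (k % 6 = 0 ∧ k + 1 < l))) : Nb3 R l k :=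
  Or.inr (Or.inr ⟨h.1, Or.inl h.2⟩)

theorem nbR3 {l k : ℕ} (h : k % 2 = 0 ∧ l % 6 = 3 ∧ k % 6 ≠ 0 ∧ k + 1 < l) : Nb3 R l k :=
  Or.inr (Or.inr ⟨h.1, Or.inr (Or.inl h.2)⟩)

theorem nbR5 {l k : ℕ} (h : k % 2 = 0 ∧ l % 6 = 5 ∧
    ((k % 6 ≠ 0 ∧ l < k) ∨ (k % 6 = 0 ∧ k < l))) : Nb3 R l k :=
  Or.inr (Or.inr ⟨h.1, Or.inr (Or.inr h.2)⟩)

theorem adj_nb (l k : ℕ) (hl : l < 6 * R + 2) (hk : k < 6 * R + 2) (e : Inc A) (h : Nb3 R l k) :
    (XG3 A R).Adj (c ⟨l, hl⟩ e) (c ⟨k, hk⟩ e) := by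
  rw [adjC]
  rcases h with h | h
  · exact Or.inl ⟨⟨k, hk⟩, rfl, h⟩
  · exact Or.inr (Or.inl ⟨⟨k, hk⟩, e, rfl, h⟩)

theorem big_of (l : Fin (6 * R + 2)) (e : Inc A) (a b d : ℕ) (ha : a < 6 * R + 2)
    (hb : b < 6 * R + 2) (hd : d < 6 * R + 2) (hab : a ≠ b) (had : a ≠ d) (hbd : b ≠ d)
    (h1 : Nb3 R l a) (h2 : Nb3 R l b) (h3 : Nb3 R l d) : Big3 (c l e : Vtx A R) := by
  refine ⟨c ⟨a, ha⟩ e, c ⟨b, hb⟩ e, c ⟨d, hd⟩ e, ?_, ?_, ?_, adj_nb l a l.2 ha e h1,
    adj_nb l b l.2 hb e h2, adj_nb l d l.2 hd e h3⟩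
  · intro h
    exact hab (congrArg Fin.val (Vtx.c.inj h).1)
  · intro h
    exact had (congrArg Fin.val (Vtx.c.inj h).1)
  · intro h
    exact hbd (congrArg Fin.val (Vtx.c.inj h).1)

/-- the big levels -/
theorem big_lev (hR : 2 ≤ R) (l : Fin (6 * R + 2)) (e : Inc A)
    (h : (l : ℕ) % 6 ≠ 3 ∧ (l : ℕ) < 6 * R) : Big3 (c l e : Vtx A R) := by
  have hl := l.2
  have h6 : (l : ℕ) % 6 < 6 := Nat.mod_lt _ (by norm_num)
  obtain ⟨h3, h'⟩ := h
  by_cases c0 : (l : ℕ) % 6 = 0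
  · rcases Nat.eq_zero_or_pos (l : ℕ) with h0 | h0
    · refine ⟨u e.1.1, c ⟨1, by omega⟩ e, c ⟨5, by omega⟩ e, by simp, by simp, ?_, ?_,
        adj_nb l 1 l.2 (by omega) e ?_, adj_nb l 5 l.2 (by omega) e ?_⟩
      · intro h1
        have h2 : 1 = 5 := congrArg Fin.val (Vtx.c.inj h1).1
        omega
      · rw [adjC]; exact Or.inr (Or.inr (Or.inl ⟨rfl, h0⟩))
      · (first | exact nbA (by omega) | exact nbL1 (by omega) | exact nbL3 (by omega) | exact nbL5 (by omega) | exact nbR1 (by omega) | exact nbR3 (by omega) | exact nbR5 (by omega))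
      · (first | exact nbA (by omega) | exact nbL1 (by omega) | exact nbL3 (by omega) | exact nbL5 (by omega) | exact nbR1 (by omega) | exact nbR3 (by omega) | exact nbR5 (by omega))
    · refine big_of l e (l - 1) (l + 1) (l + 5) (by omega) (by omega) (by omega) (by omega)
        (by omega) (by omega) ?_ ?_ ?_ <;> (first | exact nbA (by omega) | exact nbL1 (by omega) | exact nbL3 (by omega) | exact nbL5 (by omega) | exact nbR1 (by omega) | exact nbR3 (by omega) | exact nbR5 (by omega))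
  by_cases c1 : (l : ℕ) % 6 = 1
  · by_cases h0 : (l : ℕ) = 1
    · refine big_of l e 0 2 8 (by omega) (by omega) (by omega) (by omega)
        (by omega) (by omega) ?_ ?_ ?_ <;> (first | exact nbA (by omega) | exact nbL1 (by omega) | exact nbL3 (by omega) | exact nbL5 (by omega) | exact nbR1 (by omega) | exact nbR3 (by omega) | exact nbR5 (by omega))
    · refine big_of l e (l - 1) (l + 1) 0 (by omega) (by omega) (by omega) (by omega)
        (by omega) (by omega) ?_ ?_ ?_ <;> (first | exact nbA (by omega) | exact nbL1 (by omega) | exact nbL3 (by omega) | exact nbL5 (by omega) | exact nbR1 (by omega) | exact nbR3 (by omega) | exact nbR5 (by omega))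
  by_cases c2 : (l : ℕ) % 6 = 2
  · by_cases h0 : (l : ℕ) = 2
    · refine big_of l e 1 3 9 (by omega) (by omega) (by omega) (by omega)
        (by omega) (by omega) ?_ ?_ ?_ <;> (first | exact nbA (by omega) | exact nbL1 (by omega) | exact nbL3 (by omega) | exact nbL5 (by omega) | exact nbR1 (by omega) | exact nbR3 (by omega) | exact nbR5 (by omega))
    · refine big_of l e (l - 1) (l + 1) 5 (by omega) (by omega) (by omega) (by omega)
        (by omega) (by omega) ?_ ?_ ?_ <;> (first | exact nbA (by omega) | exact nbL1 (by omega) | exact nbL3 (by omega) | exact nbL5 (by omega) | exact nbR1 (by omega) | exact nbR3 (by omega) | exact nbR5 (by omega))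
  by_cases c4 : (l : ℕ) % 6 = 4
  · by_cases h0 : (l : ℕ) = 4
    · refine big_of l e 3 5 9 (by omega) (by omega) (by omega) (by omega)
        (by omega) (by omega) ?_ ?_ ?_ <;> (first | exact nbA (by omega) | exact nbL1 (by omega) | exact nbL3 (by omega) | exact nbL5 (by omega) | exact nbR1 (by omega) | exact nbR3 (by omega) | exact nbR5 (by omega))
    · refine big_of l e (l - 1) (l + 1) 5 (by omega) (by omega) (by omega) (by omega)
        (by omega) (by omega) ?_ ?_ ?_ <;> (first | exact nbA (by omega) | exact nbL1 (by omega) | exact nbL3 (by omega) | exact nbL5 (by omega) | exact nbR1 (by omega) | exact nbR3 (by omega) | exact nbR5 (by omega))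
  refine big_of l e (l - 1) (l + 1) (l - 5) (by omega) (by omega) (by omega) (by omega)
      (by omega) (by omega) ?_ ?_ ?_ <;> (first | exact nbA (by omega) | exact nbL1 (by omega) | exact nbL3 (by omega) | exact nbL5 (by omega) | exact nbR1 (by omega) | exact nbR3 (by omega) | exact nbR5 (by omega))

/-- level `6 R + 1` is not big -/
theorem not_big_last (l : Fin (6 * R + 2)) (hl : (l : ℕ) = 6 * R + 1) (e : Inc A) :
    ¬ Big3 (c l e : Vtx A R) := by
  have key : ∀ v, (XG3 A R).Adj (c l e) v → v = c ⟨6 * R, by omega⟩ e ∨ v = w e.1.2 := by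
    intro v h
    rw [adjC] at h
    rcases h with ⟨k, rfl, h⟩ | ⟨k, f, rfl, h⟩ | ⟨rfl, h⟩ | ⟨rfl, h⟩
    · have := k.2
      left; congr 1; apply Fin.ext
      show (k : ℕ) = 6 * R
      omega
    · have := k.2
      unfold Jn3 J3 at h
      omega
    · omega
    · right; rfl
  rintro ⟨a, b, d, h1, h2, h3, h4, h5, h6⟩
  exact no_three h1 h2 h3 (key _ h4) (key _ h5) (key _ h6)

/-- level `6 R` is not big -/
theorem not_big_floor (hR : 2 ≤ R) (l : Fin (6 * R + 2)) (hl : (l : ℕ) = 6 * R) (e : Inc A) :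
    ¬ Big3 (c l e : Vtx A R) := by
  have key : ∀ v, (XG3 A R).Adj (c l e) v →
      v = c ⟨6 * R - 1, by omega⟩ e ∨ v = c ⟨6 * R + 1, by omega⟩ e := by
    intro v h
    rw [adjC] at h
    rcases h with ⟨k, rfl, h | h⟩ | ⟨k, f, rfl, h⟩ | ⟨rfl, h⟩ | ⟨rfl, h⟩
    · right; congr 1; apply Fin.ext
      show (k : ℕ) = 6 * R + 1
      omega
    · left; congr 1; apply Fin.ext
      show (k : ℕ) = 6 * R - 1
      omega
    · have := k.2
      unfold Jn3 J3 at h
      omega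
    · omega
    · omega
  rintro ⟨a, b, d, h1, h2, h3, h4, h5, h6⟩
  exact no_three h1 h2 h3 (key _ h4) (key _ h5) (key _ h6)

/-- `w y` is not big -/
theorem not_big_w (h : Hyp A) (y : W) : ¬ Big3 (w y : Vtx A R) := by
  rintro ⟨a, b, d, h1, h2, h3, h4, h5, h6⟩
  rw [adjW] at h4 h5 h6
  obtain ⟨l, e, rfl, hl, he⟩ := h4
  obtain ⟨l', e', rfl, hl', he'⟩ := h5
  obtain ⟨l'', e'', rfl, hl'', he''⟩ := h6
  have el : l = l' := Fin.ext (by omega)
  have el2 : l = l'' := Fin.ext (by omega)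
  subst el
  subst el2
  refine h.two y ⟨e.1.1, e'.1.1, e''.1.1, ?_, ?_, ?_, ?_, ?_, ?_⟩
  · intro hc
    exact h1 (by rw [show e = e' from Subtype.ext (Prod.ext hc (he.trans he'.symm))])
  · intro hc
    exact h2 (by rw [show e = e'' from Subtype.ext (Prod.ext hc (he.trans he''.symm))])
  · intro hc
    exact h3 (by rw [show e' = e'' from Subtype.ext (Prod.ext hc (he'.trans he''.symm))])
  · rw [← he]; exact e.2
  · rw [← he']; exact e'.2
  · rw [← he'']; exact e''.2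

end Top3Aux

open Top3Aux

/-- all neighbours have at most two neighbours, and some neighbour of a neighbour has three -/
def Top3 (v : Vtx A R) : Prop :=
  (∀ v', (XG3 A R).Adj v v' → ¬ Big3 v') ∧
    ∃ v' v'', (XG3 A R).Adj v v' ∧ (XG3 A R).Adj v' v'' ∧ Big3 v''

theorem Big3_iff' (φ : XG3 A R ≃g XG3 A' R) (v : Vtx A R) : Big3 v ↔ Big3 (φ v) := by
  refine ⟨Big3_iso φ, fun h => ?_⟩
  have := Big3_iso φ.symm h
  rwa [RelIso.symm_apply_apply] at this

theorem Top3_iff (hR : 2 ≤ R) (h : Hyp A) (v : Vtx A R) :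
    Top3 v ↔ ∃ e : Inc A, v = c ⟨6 * R + 1, by omega⟩ e := by
  constructor
  · rintro ⟨h1, v', v'', h2, h3, h4⟩
    match v with
    | u x =>
      exfalso
      obtain ⟨y, hy⟩ := h.left x
      refine h1 (c ⟨0, by omega⟩ ⟨(x, y), hy⟩) ?_ (big_lev hR _ _ ⟨?_, ?_⟩)
      · rw [adjU]
        exact ⟨_, _, rfl, rfl, rfl⟩
      · show 0 % 6 ≠ 3
        omega
      · show 0 < 6 * R
        omega
    | w y =>
      exfalso
      rw [adjW] at h2
      obtain ⟨l, e, rfl, hl, he⟩ := h2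
      rw [adjC] at h3
      rcases h3 with ⟨k, rfl, h3⟩ | ⟨k, f, rfl, h3⟩ | ⟨rfl, h3⟩ | ⟨rfl, h3⟩
      · have := k.2
        exact not_big_floor hR k (by omega) e h4
      · have := k.2
        unfold Jn3 J3 at h3
        omega
      · omega
      · exact not_big_w h _ h4
    | c l e =>
      by_cases hl : (l : ℕ) = 6 * R + 1
      · exact ⟨e, by congr 1; exact Fin.ext hl⟩
      · exfalso
        have hl2 := l.2
        have key : ∃ k : ℕ, k < 6 * R + 2 ∧ Nb3 R l k ∧ (k % 6 ≠ 3 ∧ k < 6 * R) := by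
          have h6 : (l : ℕ) % 6 < 6 := Nat.mod_lt _ (by norm_num)
          by_cases c0 : (l : ℕ) = 6 * R
          · exact ⟨6 * R - 1, by omega, by (first | exact nbA (by omega) | exact nbL1 (by omega) | exact nbL3 (by omega) | exact nbL5 (by omega) | exact nbR1 (by omega) | exact nbR3 (by omega) | exact nbR5 (by omega)), by omega⟩
          by_cases c1 : (l : ℕ) % 6 = 0
          · exact ⟨l + 5, by omega, by (first | exact nbA (by omega) | exact nbL1 (by omega) | exact nbL3 (by omega) | exact nbL5 (by omega) | exact nbR1 (by omega) | exact nbR3 (by omega) | exact nbR5 (by omega)), by omega⟩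
          by_cases c3 : (l : ℕ) % 6 = 1
          · exact ⟨l + 1, by omega, by (first | exact nbA (by omega) | exact nbL1 (by omega) | exact nbL3 (by omega) | exact nbL5 (by omega) | exact nbR1 (by omega) | exact nbR3 (by omega) | exact nbR5 (by omega)), by omega⟩
          by_cases c4 : (l : ℕ) % 6 = 4
          · exact ⟨l + 1, by omega, by (first | exact nbA (by omega) | exact nbL1 (by omega) | exact nbL3 (by omega) | exact nbL5 (by omega) | exact nbR1 (by omega) | exact nbR3 (by omega) | exact nbR5 (by omega)), by omega⟩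
          · exact ⟨l - 1, by omega, by (first | exact nbA (by omega) | exact nbL1 (by omega) | exact nbL3 (by omega) | exact nbL5 (by omega) | exact nbR1 (by omega) | exact nbR3 (by omega) | exact nbR5 (by omega)), by omega⟩
        obtain ⟨k, hk, hk1, hk2⟩ := key
        exact h1 (c ⟨k, hk⟩ e) (adj_nb l k l.2 hk e hk1) (big_lev hR ⟨k, hk⟩ e hk2)
  · rintro ⟨e, rfl⟩
    constructor
    · intro v' hv'
      rw [adjC] at hv'
      rcases hv' with ⟨k, rfl, h3⟩ | ⟨k, f, rfl, h3⟩ | ⟨rfl, h3⟩ | ⟨rfl, h3⟩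
      · have := k.2
        have h5 : (k : ℕ) = 6 * R := by
          have h4 : (k : ℕ) = (6 * R + 1) + 1 ∨ 6 * R + 1 = (k : ℕ) + 1 := h3
          omega
        exact not_big_floor hR k h5 e
      · have := k.2
        have h4 : Jn3 R (6 * R + 1) k := h3
        unfold Jn3 J3 at h4
        omega
      · have h4 : 6 * R + 1 = 0 := h3
        omega
      · exact not_big_w h _
    · refine ⟨c ⟨6 * R, by omega⟩ e, c ⟨6 * R - 1, by omega⟩ e, adj_nb _ _ _ _ e ?_,
        adj_nb _ _ _ _ e ?_, big_lev hR _ e ?_⟩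
      · (first | exact nbA (by omega) | exact nbL1 (by omega) | exact nbL3 (by omega) | exact nbL5 (by omega) | exact nbR1 (by omega) | exact nbR3 (by omega) | exact nbR5 (by omega))
      · (first | exact nbA (by omega) | exact nbL1 (by omega) | exact nbL3 (by omega) | exact nbL5 (by omega) | exact nbR1 (by omega) | exact nbR3 (by omega) | exact nbR5 (by omega))
      · show (6 * R - 1) % 6 ≠ 3 ∧ 6 * R - 1 < 6 * R
        omega

theorem map_top3 (hR : 2 ≤ R) (h : Hyp A) (h' : Hyp A') (φ : XG3 A R ≃g XG3 A' R) (e : Inc A) :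
    ∃ e' : Inc A', φ (c ⟨6 * R + 1, by omega⟩ e) = c ⟨6 * R + 1, by omega⟩ e' := by
  rw [← Top3_iff hR h']
  obtain ⟨h1, v', v'', h2, h3, h4⟩ := (Top3_iff hR h _).2 ⟨e, rfl⟩
  refine ⟨fun x hx => ?_, φ v', φ v'', φ.map_adj_iff.2 h2, φ.map_adj_iff.2 h3, Big3_iso φ h4⟩
  have h5 := h1 (φ.symm x) (by
    rw [← φ.map_adj_iff, RelIso.apply_symm_apply]
    exact hx)
  rwa [Big3_iff' φ, RelIso.apply_symm_apply] at h5

theorem map_floor3 (hR : 2 ≤ R) (h : Hyp A) (h' : Hyp A') (φ : XG3 A R ≃g XG3 A' R) (e : Inc A)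
    (y : W') : φ (c ⟨6 * R, by omega⟩ e) ≠ w y := by
  intro hc
  have h1 : (XG3 A R).Adj (c ⟨6 * R, by omega⟩ e) (c ⟨6 * R - 1, by omega⟩ e) :=
    adj_nb _ _ _ _ e (by (first | exact nbA (by omega) | exact nbL1 (by omega) | exact nbL3 (by omega) | exact nbL5 (by omega) | exact nbR1 (by omega) | exact nbR3 (by omega) | exact nbR5 (by omega)))
  have h2 : Big3 (c ⟨6 * R - 1, by omega⟩ e : Vtx A R) := by
    refine big_lev hR _ e ?_
    show (6 * R - 1) % 6 ≠ 3 ∧ 6 * R - 1 < 6 * R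
    omega
  have h3 := φ.map_adj_iff.2 h1
  have h4 := Big3_iso φ h2
  rw [hc, adjW] at h3
  obtain ⟨l, f, h5, h6, h7⟩ := h3
  rw [h5] at h4
  exact not_big_last l h6 f h4

end Pool.Agent.J4.H24.DG
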