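import Pool.Agent.J4.H24.DG.Strip3
import Pool.Agent.J4.H24.DG.Top3
import Pool.Agent.J4.H24.DG.Lev3
import Pool.Agent.J4.H24.DG.Cb3
import Pool.Agent.J4.H24.DG.Main
import Pool.Agent.J4.H24.DG.Ad
import Pool.Agent.J4.H24.DG.Ad3

/-!
# Isomorphism of almost unit disk graphs
-/

set_option autoImplicit false

namespace Pool.Agent.J4.H24.DG

open Pool.Agent.NPC Pool.Agent.NPC.R671 Pool.Agent.W125.Dim Pool.Agent.Y815.GI
  Pool.Agent.J4.H79.GI Pool.Agent.W125.Dim.Vtx

/-- `X` is the intersection graph of a family of closed balls of the metric space `E` with radii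
between `1` and `1 + ε`. -/
def IsNearUnitBallGraph (E : Type) [PseudoMetricSpace E] (ε : ℝ) {V : Type} (X : SimpleGraph V) :
    Prop :=
  ∃ (z : V → E) (r : V → ℝ), (∀ v, 1 ≤ r v ∧ r v ≤ 1 + ε) ∧ ∀ u v : V, X.Adj u v ↔
      u ≠ v ∧ (Metric.closedBall (z u) (r u) ∩ Metric.closedBall (z v) (r v)).Nonempty

/-- The class of the finite graphs which are, for every `ε > 0`, intersection graphs of closed
disks in the Euclidean plane with radii between `1` and `1 + ε`, each of which contains one of two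
given points. -/
def AlmostUnitClass (n : ℕ) (X : SimpleGraph (Fin n)) : Prop :=
  ∀ ε : ℝ, 0 < ε → IsAlmostUnit (EuclideanSpace ℝ (Fin 2)) ε X

theorem IsAlmostUnit.nearUnit {E : Type} [PseudoMetricSpace E] {ε : ℝ} {V : Type}
    {X : SimpleGraph V} (h : IsAlmostUnit E ε X) : IsNearUnitBallGraph E ε X := by
  obtain ⟨z, r, p, q, h1, -, h2⟩ := h
  exact ⟨z, r, h1, h2⟩

/-- The vertex set is the union of two cliques. -/
theorem IsAlmostUnit.coBipartite {E : Type} [PseudoMetricSpace E] {ε : ℝ} {V : Type}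
    {X : SimpleGraph V} (h : IsAlmostUnit E ε X) : CoBipartite X := by
  obtain ⟨z, r, p, q, h1, h3, h2⟩ := h
  refine ⟨{v | p ∈ Metric.closedBall (z v) (r v)}, fun u v hne h => ?_⟩
  rw [h2]
  refine ⟨hne, ?_⟩
  by_cases hu : p ∈ Metric.closedBall (z u) (r u)
  · exact ⟨p, hu, h.1 hu⟩
  · exact ⟨q, (h3 u).resolve_left hu, (h3 v).resolve_left fun hv => hu (h.2 hv)⟩

theorem IsAlmostUnit.of_iso {E : Type} [PseudoMetricSpace E] {ε : ℝ} {V V' : Type}
    {X : SimpleGraph V} {X' : SimpleGraph V'} (φ : X' ≃g X) (h : IsAlmostUnit E ε X) :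
    IsAlmostUnit E ε X' := by
  obtain ⟨z, r, p, q, hr, hp, hz⟩ := h
  refine ⟨fun v => z (φ v), fun v => r (φ v), p, q, fun v => hr _, fun v => hp _, fun u v => ?_⟩
  rw [← φ.map_adj_iff, hz]
  exact and_congr (not_congr φ.injective.eq_iff) Iff.rfl

/-- small graphs -/
theorem almostUnit_small {n : ℕ} (X : SimpleGraph (Fin n)) (hn : n ≤ 1) : AlmostUnitClass n X := by
  intro ε hε
  have key : ∀ u v : Fin n, u = v := fun u v => Fin.ext (by omega)
  refine ⟨fun _ => 0, fun _ => 1, 0, 0, fun _ => ⟨le_refl _, by linarith⟩,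
    fun _ => Or.inl (Metric.mem_closedBall_self one_pos.le), fun u v => ?_⟩
  exact ⟨fun h => absurd (key u v) h.ne, fun h => absurd (key u v) h.1⟩

theorem two_le_RR {n : ℕ} (hn : 2 ≤ n) : 2 ≤ RR n := by
  unfold RR
  nlinarith [Nat.zero_le n, Nat.mul_le_mul hn hn]

/-- Isomorphism of graphs and of the constructions. -/
theorem iso_iff_BG3 {n : ℕ} (hn : 2 ≤ n) (X Y : SimpleGraph (Fin n)) {R : ℕ} (hR : 2 ≤ R) :
    Nonempty (X ≃g Y) ↔ Nonempty (BG3 (AX X) R ≃g BG3 (AX Y) R) := by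
  constructor
  · rintro ⟨φ⟩
    refine exists_ofXG3 φ.toEquiv (Equiv.prodCongr φ.toEquiv φ.toEquiv) fun x p => ?_
    show _ ↔ (φ x = φ p.1 ∨ (φ x = φ p.2 ∧ Y.Adj (φ p.1) (φ p.2)))
    rw [φ.injective.eq_iff, φ.injective.eq_iff, φ.map_adj_iff]
    exact Iff.rfl
  · intro hψ
    have hX := hyp_AX hn X
    have hY := hyp_AX hn Y
    obtain ⟨ψ⟩ := exists_toXG3 hR hX.three hY.three hψ
    obtain ⟨α, β, h⟩ := struct_of_top3 hR hX hY ψ (map_top3 hR hX hY ψ)
      (map_top3 hR hY hX ψ.symm) (map_floor3 hR hX hY ψ) (map_floor3 hR hY hX ψ.symm)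
    refine ⟨⟨α, fun {x y} => ?_⟩⟩
    rw [adj_iff_AX, adj_iff_AX X]
    constructor
    · rintro ⟨h1, p, h2, h3⟩
      refine ⟨fun h4 => h1 (by rw [h4]), β.symm p, ?_, ?_⟩
      · rw [h, β.apply_symm_apply]; exact h2
      · rw [h, β.apply_symm_apply]; exact h3
    · rintro ⟨h1, p, h2, h3⟩
      exact ⟨fun h4 => h1 (α.injective h4), β p, (h _ _).1 h2, (h _ _).1 h3⟩

/-- the construction of almost unit disk graphs -/
def almostUnitConstr : Constr AlmostUnitClass where
  ad := ad3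
  symm := ad3_symm
  irrefl := ad3_irrefl
  poly := poly_ad3
  G X := BG3 (AX X) (RR _)
  code X a b := ad3_code X _ a b
  mem {n N} X X' hn := by
    rintro ⟨φ⟩ ε hε
    obtain ⟨Nm⟩ := exists_num (U := Fin n) (W := Fin n × Fin n) (R := RR n) (by
      rw [Nat.card_prod, Nat.card_eq_fintype_card, Fintype.card_fin]
      exact Nat.le_succ _)
    exact (BG3_almostUnit (two_le_RR hn) Nm hε).of_iso φ
  small X hn := almostUnit_small X hn
  iso X Y hn := iso_iff_BG3 hn X Y (two_le_RR hn)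

end Pool.Agent.J4.H24.DG
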