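import Pool.Agent.J4.H24.DG.Geo0

/-!
# The disks of the last level
-/

set_option autoImplicit false

namespace Pool.Agent.J4.H24.DG

open Pool.Agent.NPC Pool.Agent.NPC.R671 Pool.Agent.W125.Dim Pool.Agent.Y815.GI
  Pool.Agent.J4.H79.GI Pool.Agent.W125.Dim.Vtx

variable {U W : Type} {A : U → W → Prop} {R : ℕ} (N : Num U W R)

namespace LastAux

theorem inside_iff (a : Vtx A R) (f : Inc A) :
    Inside N a (c ⟨6 * R + 1, by omega⟩ f) ↔
      (sx N a - ((R : ℝ) * wd N + Lh N ^ 2)) ^ 2 + (sy N a - hP N R f) ^ 2 ≤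
        (Lh N ^ 2) ^ 2 + 1 / 4 := by
  unfold Inside
  rw [sx_last, sy_last, ss_last]

/-- far to the left -/
theorem far_left (hR : 2 ≤ R) (a : Vtx A R) (f : Inc A)
    (hx : sx N a ≤ (R : ℝ) * wd N - 1 / 2) : ¬ Inside N a (c ⟨6 * R + 1, by omega⟩ f) := by
  rw [inside_iff N a f]
  have hL := Lh_ge N hR
  have hL2 : 64 ≤ Lh N ^ 2 := by nlinarith
  refine out_of (δ := 1 / 2) (by linarith) (by norm_num) ?_ (by linarith)
  refine le_trans ?_ (neg_le_abs _)
  linarith

end LastAux

open LastAux in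
theorem inside_last (hR : 2 ≤ R) (a : Vtx A R) (ha : Low a) (f : Inc A) :
    Inside N a (c ⟨6 * R + 1, by omega⟩ f) ↔ Rel2 a (c ⟨6 * R + 1, by omega⟩ f) := by
  have hw := wd_ge N hR
  have hL := Lh_ge N hR
  rcases low_cases ha with ⟨y, rfl⟩ | ⟨g, hg, e, rfl⟩ | ⟨g, hg, e, rfl⟩ | ⟨g, hg, e, rfl⟩
  · -- w y
    have hB := BU1 N
    have hB2 := BU_le N hR
    have hL2 : 64 ≤ Lh N ^ 2 := by nlinarith
    obtain ⟨z, hz⟩ : ∃ z, z = (N.BU : ℝ) ^ 2 / (8 * Lh N ^ 2) := ⟨_, rfl⟩
    have hzL : z * Lh N ^ 2 = (N.BU : ℝ) ^ 2 / 8 := by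
      rw [hz]
      have : Lh N ^ 2 ≠ 0 := by linarith
      field_simp
    have hz0 : 0 ≤ z := by rw [hz]; positivity
    have hz1 : z ≤ 1 / 2 := by
      rw [hz, div_le_iff₀ (by linarith)]
      nlinarith
    have hx : sx N (w y : Vtx A R) = R * wd N + z := by
      rw [hz]
      rfl
    have hy : sy N (w y : Vtx A R) = -((aw N y : ℝ) + ((N.BU : ℝ) - 1) / 2 + 1) + R / 2 := rfl
    have hrel : Rel2 (w y : Vtx A R) (c ⟨6 * R + 1, by omega⟩ f) ↔ f.1.2 = y :=
      ⟨fun h => h.2, fun h => ⟨rfl, h⟩⟩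
    have hta : ta N f = aw N f.1.2 + N.nu f.1.1 := rfl
    have hnu := N.nu_lt f.1.1
    have key : (R * wd N + z - (R * wd N + Lh N ^ 2)) ^ 2 =
        (Lh N ^ 2) ^ 2 - (N.BU : ℝ) ^ 2 / 4 + z ^ 2 := by
      linear_combination (-2) * hzL
    rw [inside_iff N _ f, hrel, hx, hy, hP_last, key]
    constructor
    · intro h1
      by_contra hne
      have hne' : N.nw f.1.2 ≠ N.nw y := fun h' => hne (N.nw_inj h')
      rcases lt_or_gt_of_ne hne' with h2 | h2
      · have h3 := aw_lt N h2
        have h4 : (ta N f : ℝ) + 1 ≤ aw N y := by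
          have : ta N f + 1 ≤ aw N y := by omega
          exact_mod_cast this
        nlinarith [sq_nonneg z]
      · have h3 := aw_lt N h2
        have h4 : (aw N y : ℝ) + N.BU ≤ ta N f := by
          have : aw N y + N.BU ≤ ta N f := by omega
          exact_mod_cast this
        nlinarith [sq_nonneg z]
    · intro h1
      subst h1
      have h2 : (ta N f : ℝ) = aw N f.1.2 + N.nu f.1.1 := by
        rw [hta]
        push_cast
        ring
      have h3 : (N.nu f.1.1 : ℝ) + 1 ≤ N.BU := by exact_mod_cast hnu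
      have h4 : (0 : ℝ) ≤ N.nu f.1.1 := Nat.cast_nonneg _
      have h5 : z ^ 2 ≤ 1 / 2 := by nlinarith
      rw [h2]
      nlinarith [mul_nonneg h4 (by linarith : (0 : ℝ) ≤ N.BU - 1 - N.nu f.1.1)]
  · -- level 6g
    rcases Nat.lt_or_eq_of_le hg with hgR | rfl
    · refine iff_of_false (far_left N hR _ f ?_) ?_
      · rw [sx_0 N g e (by omega)]
        have h1 := mul_lt_wd N hR hgR
        linarith
      · intro h1
        have h2 : crel2 (6 * g) (6 * R + 1) (e = f) := h1
        unfold crel2 at h2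
        omega
    · rw [inside_iff N _ f, sx_0 N g e (by omega), sy_0 N g e (by omega), eq_of (by ring)]
      constructor
      · intro h1
        have hef : e = f := by
          by_contra hne
          have := hP_sq N g hne
          linarith
        show crel2 (6 * g) (6 * g + 1) (e = f)
        exact ⟨by omega, Or.inl ⟨hef, Or.inl rfl⟩⟩
      · intro h1
        have h2 : crel2 (6 * g) (6 * g + 1) (e = f) := h1
        have hef : e = f := by
          rcases h2 with ⟨h0, ⟨h3, -⟩ | ⟨h3, -⟩ | ⟨h3, -⟩⟩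
          · exact h3
          · omega
          · omega
        subst hef
        rw [sub_self]
        norm_num
  · -- level 6g+2
    refine iff_of_false (far_left N hR _ f ?_) ?_
    · have hx := sx_2' N g e hR (by omega)
      have h1 := mul_lt_wd N hR hg
      linarith [hx.2]
    · intro h1
      have h2 : crel2 (6 * g + 2) (6 * R + 1) (e = f) := h1
      unfold crel2 at h2
      omega
  · -- level 6g+4
    refine iff_of_false (far_left N hR _ f ?_) ?_
    · rw [sx_4 N g e (by omega)]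
      have h1 := mul_lt_wd N hR hg
      linarith
    · intro h1
      have h2 : crel2 (6 * g + 4) (6 * R + 1) (e = f) := h1
      unfold crel2 at h2
      omega

end Pool.Agent.J4.H24.DG
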