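import Pool.Agent.J4.H24.DG.Defs3

/-!
# From points and disks in the limit to almost unit disks
-/

set_option autoImplicit false

namespace Pool.Agent.J4.H24.DG

open Filter Topology

namespace NuAux

open Disk

theorem dist_smul_le {E : Type} [NormedAddCommGroup E] [NormedSpace ℝ E] {k : ℝ} (hk : 0 < k)
    (z z' : E) (s : ℝ) : dist (k • z) (k • z') ≤ k * s ↔ dist z z' ≤ s := by
  rw [dist_smul₀, Real.norm_of_nonneg hk.le]
  exact mul_le_mul_iff_right₀ hk

/-- the boost with a prescribed separating value -/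
theorem of_ratio {V : Type} [Finite V] (X : SimpleGraph V) (low : V → Prop)
    (hs : ∀ u v, u ≠ v → (low u ↔ low v) → X.Adj u v) (x y r : V → ℝ)
    (hc : ∀ a b, low a → ¬ low b → (X.Adj a b ↔ (x a - x b) ^ 2 + (y a - y b) ^ 2 ≤ r b ^ 2))
    (m c₁ c₂ ε : ℝ) (hc₁ : 0 < c₁) (hε : c₂ ≤ (1 + ε) * c₁)
    (hl : ∀ a, low a → c₁ < m - y a ∧ m - y a < c₂)
    (hu : ∀ b, ¬ low b → c₁ < r b + y b - m ∧ r b + y b - m < c₂) :
    IsAlmostUnit (EuclideanSpace ℝ (Fin 2)) ε X := by
  classical
  cases nonempty_fintype V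
  set t : V → ℝ := fun v => if low v then 0 else r v with ht
  set σ : V → ℝ := fun v => if low v then -1 else 1 with hσ
  set U : V → ℝ := fun v => t v - y v with hU
  set W : V → ℝ := fun v => t v + y v - m with hW
  have hσ2 : ∀ v, σ v ^ 2 = 1 := by
    intro v
    simp only [hσ]
    split_ifs <;> norm_num
  have hb : ∀ v, c₁ < σ v * W v ∧ σ v * W v < c₂ := by
    intro v
    by_cases h : low v
    · have h1 := hl v h
      simp only [hσ, hW, ht, if_pos h]
      constructor <;> linarith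
    · have h1 := hu v h
      simp only [hσ, hW, ht, if_neg h]
      constructor <;> linarith
  have hpos : ∀ v, 0 < σ v * W v := fun v => hc₁.trans (hb v).1
  have hR : ∀ v, ∀ᶠ l : ℝ in atTop, l / 2 * c₁ ≤ Ra (σ v) (U v) (W v) l ∧
      Ra (σ v) (U v) (W v) l ≤ l / 2 * c₂ := by
    intro v
    have h1 : Tendsto (fun l : ℝ => σ v * U v / l) atTop (𝓝 0) :=
      tendsto_const_nhds.div_atTop tendsto_id
    have h2 := h1.eventually_const_le (neg_lt_zero.2 (sub_pos.2 (hb v).1))
    have h3 := h1.eventually_le_const (sub_pos.2 (hb v).2)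
    filter_upwards [h2, h3, eventually_ge_atTop 1] with l h4 h5 h6
    have h7 : Ra (σ v) (U v) (W v) l = (l * (σ v * W v) + σ v * U v / l) / 2 := by
      unfold Ra
      ring
    rw [h7]
    have h8 := hb v
    constructor <;> nlinarith
  have hS : ∀ p : V × V, ∀ᶠ l : ℝ in atTop, (low p.1 ↔ low p.2) → (x p.1 - x p.2) ^ 2 ≤
      (Ra (σ p.1) (U p.1) (W p.1) l + Ra (σ p.2) (U p.2) (W p.2) l) ^ 2 -
        (Sa (U p.1) (W p.1) l - Sa (U p.2) (W p.2) l) ^ 2 := by
    intro p
    by_cases h : low p.1 ↔ low p.2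
    · have h1 : σ p.1 = σ p.2 := by
        simp only [hσ]
        by_cases h2 : low p.1
        · rw [if_pos h2, if_pos (h.1 h2)]
        · rw [if_neg h2, if_neg (fun h3 => h2 (h.2 h3))]
      have h2 := ((tend (hpos p.1) (σ p.1 * U p.2)).atTop_mul_atTop₀
        (tend (hpos p.2) (σ p.1 * U p.1))).eventually_ge_atTop ((x p.1 - x p.2) ^ 2)
      filter_upwards [h2] with l h3 _
      rw [← h1, same _ _ _ _ _ _ (hσ2 p.1)]
      rw [← h1] at h3
      exact h3
    · filter_upwards with l h3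
      exact absurd h3 h
  have hT : ∀ v, ∀ᶠ l : ℝ in atTop, x v ^ 2 + (σ v - Sa (U v) (W v) l) ^ 2 ≤
      Ra (σ v) (U v) (W v) l ^ 2 := by
    intro v
    have h1 : ∀ᶠ l : ℝ in atTop, 2 * x v ^ 2 + 1 ≤ l * (σ v * W v) :=
      (tendsto_id.atTop_mul_const (hpos v)).eventually_ge_atTop _
    have h2 : ∀ᶠ l : ℝ in atTop, -(1 / 2) ≤ σ v * U v / l := by
      have h3 : Tendsto (fun l : ℝ => σ v * U v / l) atTop (𝓝 0) :=
        tendsto_const_nhds.div_atTop tendsto_id
      exact h3.eventually_const_le (by norm_num)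
    filter_upwards [h1, h2, eventually_gt_atTop 0] with l h3 h4 h5
    have h6 := pierce (σ v) (U v) (W v) l (hσ2 v) h5.ne'
    nlinarith [sq_nonneg (x v)]
  obtain ⟨l, h12, h2, h0, hl0⟩ := ((eventually_all.2 hR).and ((eventually_all.2 hS).and
    ((eventually_all.2 hT).and (eventually_gt_atTop 0)))).exists
  have h1 : ∀ v, 0 < Ra (σ v) (U v) (W v) l := fun v =>
    lt_of_lt_of_le (by positivity) (h12 v).1
  set k : ℝ := (l / 2 * c₁)⁻¹ with hk
  have hkp : 0 < k := by positivity
  have hk1 : k * (l / 2 * c₁) = 1 := inv_mul_cancel₀ (by positivity)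
  refine ⟨fun v => k • !₂[x v, Sa (U v) (W v) l], fun v => k * Ra (σ v) (U v) (W v) l,
    k • !₂[0, -1], k • !₂[0, 1], fun v => ?_, fun v => ?_, fun a b => ?_⟩
  · constructor
    · rw [← hk1]
      exact mul_le_mul_of_nonneg_left (h12 v).1 hkp.le
    · calc k * Ra (σ v) (U v) (W v) l ≤ k * (l / 2 * c₂) :=
          mul_le_mul_of_nonneg_left (h12 v).2 hkp.le
        _ ≤ k * (l / 2 * ((1 + ε) * c₁)) := by
          refine mul_le_mul_of_nonneg_left ?_ hkp.le
          exact mul_le_mul_of_nonneg_left hε (by positivity)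
        _ = (1 + ε) * (k * (l / 2 * c₁)) := by ring
        _ = 1 + ε := by rw [hk1, mul_one]
  · rw [Metric.mem_closedBall, Metric.mem_closedBall, dist_smul_le hkp, dist_smul_le hkp,
      dist_le_iff (h1 v).le, dist_le_iff (h1 v).le]
    have h3 := h0 v
    by_cases hv : low v
    · left
      have h4 : σ v = -1 := by simp only [hσ, if_pos hv]
      rw [h4] at h3 ⊢
      linarith
    · right
      have h4 : σ v = 1 := by simp only [hσ, if_neg hv]
      rw [h4] at h3 ⊢
      linarith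
  rw [meet_iff (mul_pos hkp (h1 a)) (mul_pos hkp (h1 b)), ← mul_add, dist_smul_le hkp,
    dist_le_iff (add_pos (h1 a) (h1 b)).le]
  -- the mixed case
  have key : ∀ a b, low a → ¬ low b → (X.Adj a b ↔ (x a - x b) ^ 2 +
      (Sa (U a) (W a) l - Sa (U b) (W b) l) ^ 2 ≤
      (Ra (σ a) (U a) (W a) l + Ra (σ b) (U b) (W b) l) ^ 2) := by
    intro a b ha hb
    rw [hc a b ha hb]
    have h3 := cross (u := U a) (v := W a) (u' := U b) (v' := W b) hl0
    have h4 : σ a = -1 := by simp only [hσ, if_pos ha]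
    have h5 : σ b = 1 := by simp only [hσ, if_neg hb]
    have h6 : (U b - U a) * (W b - W a) = r b ^ 2 - (y a - y b) ^ 2 := by
      simp only [hU, hW, ht, if_pos ha, if_neg hb]
      ring
    rw [h4, h5]
    constructor <;> intro h <;> linarith
  by_cases h : low a ↔ low b
  · constructor
    · intro hab
      refine ⟨hab.ne, ?_⟩
      have := h2 (a, b) h
      dsimp only at this
      linarith
    · rintro ⟨hne, _⟩
      exact hs a b hne h
  · by_cases ha : low a
    · have hb : ¬ low b := fun hb => h ⟨fun _ => hb, fun _ => ha⟩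
      rw [key a b ha hb]
      constructor
      · intro h3
        exact ⟨fun h4 => hb (h4 ▸ ha), h3⟩
      · exact fun h3 => h3.2
    · have hb : low b := by
        by_contra hb
        exact h ⟨fun h3 => absurd h3 ha, fun h3 => absurd h3 hb⟩
      rw [X.adj_comm, key b a hb ha]
      constructor
      · intro h3
        refine ⟨fun h4 => ha (h4 ▸ hb), ?_⟩
        linarith
      · intro h3
        linarith [h3.2]

/-- a pair of a point and a disk for large `D` -/
theorem pair {p x y q r Y s : ℝ} (hr : 0 < r)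
    (hne : |p - q| = r → 2 * (p - q) * x + (y - Y) ^ 2 ≠ s) :
    ∀ᶠ D : ℝ in atTop, ((|p - q| < r ∨ (|p - q| = r ∧ 2 * (p - q) * x + (y - Y) ^ 2 < s)) ↔
      (D * p + x / D - D * q) ^ 2 + (y - Y) ^ 2 ≤ (D * r) ^ 2 + s) := by
  have hid : ∀ D : ℝ, 1 ≤ D → (D * p + x / D - D * q) ^ 2 + (y - Y) ^ 2 - ((D * r) ^ 2 + s) =
      D ^ 2 * ((p - q) ^ 2 - r ^ 2) + (2 * (p - q) * x + (y - Y) ^ 2 - s) + x ^ 2 / D ^ 2 := by
    intro D hD
    have h0 : D ≠ 0 := by positivity
    field_simp
    ring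
  have hsm : ∀ D : ℝ, 1 ≤ D → 0 ≤ x ^ 2 / D ^ 2 ∧ x ^ 2 / D ^ 2 ≤ x ^ 2 ∧
      D * (x ^ 2 / D ^ 2) ≤ x ^ 2 := by
    intro D hD
    have h0 : 0 < D := by linarith
    have h1 : 1 ≤ D ^ 2 := by nlinarith
    refine ⟨by positivity, div_le_self (sq_nonneg x) h1, ?_⟩
    rw [mul_div_assoc', div_le_iff₀ (by positivity), mul_comm (x ^ 2)]
    exact mul_le_mul_of_nonneg_right (by nlinarith) (sq_nonneg x)
  rcases lt_trichotomy (|p - q|) r with h | h | h
  · have h1 : (p - q) ^ 2 < r ^ 2 := by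
      rw [← sq_abs (p - q)]
      exact pow_lt_pow_left₀ h (abs_nonneg _) two_ne_zero
    have h2 : Tendsto (fun D : ℝ => D * (r ^ 2 - (p - q) ^ 2)) atTop atTop :=
      tendsto_id.atTop_mul_const (sub_pos.2 h1)
    filter_upwards [eventually_ge_atTop 1, h2.eventually_ge_atTop
      ((2 * (p - q) * x + (y - Y) ^ 2 - s) + x ^ 2)] with D hD h3
    refine iff_of_true (Or.inl h) ?_
    have h4 := hid D hD
    have h5 := hsm D hD
    have h6 : D * (r ^ 2 - (p - q) ^ 2) ≤ D ^ 2 * (r ^ 2 - (p - q) ^ 2) := by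
      apply mul_le_mul_of_nonneg_right _ (sub_pos.2 h1).le
      nlinarith
    linarith
  · have h1 : (p - q) ^ 2 = r ^ 2 := by
      rw [← sq_abs (p - q), h]
    rcases lt_or_gt_of_ne (hne h) with h2 | h2
    · have h3 : Tendsto (fun D : ℝ => D * (s - (2 * (p - q) * x + (y - Y) ^ 2))) atTop atTop :=
        tendsto_id.atTop_mul_const (sub_pos.2 h2)
      filter_upwards [eventually_ge_atTop 1, h3.eventually_ge_atTop (x ^ 2)] with D hD h4
      refine iff_of_true (Or.inr ⟨h, h2⟩) ?_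
      have h5 := hid D hD
      have h6 := hsm D hD
      rw [h1, sub_self, mul_zero, zero_add] at h5
      have h7 : D * (x ^ 2 / D ^ 2) ≤ D * (s - (2 * (p - q) * x + (y - Y) ^ 2)) := by
        linarith
      have h8 := le_of_mul_le_mul_left h7 (by linarith)
      linarith
    · filter_upwards [eventually_ge_atTop 1] with D hD
      refine iff_of_false ?_ ?_
      · rintro (h3 | ⟨-, h3⟩)
        · exact absurd h h3.ne
        · exact absurd h3 (not_lt.2 h2.le)
      · have h5 := hid D hD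
        have h6 := hsm D hD
        rw [h1, sub_self, mul_zero, zero_add] at h5
        intro h7
        linarith
  · have h1 : r ^ 2 < (p - q) ^ 2 := by
      rw [← sq_abs (p - q)]
      exact pow_lt_pow_left₀ h hr.le two_ne_zero
    have h2 : Tendsto (fun D : ℝ => D * ((p - q) ^ 2 - r ^ 2)) atTop atTop :=
      tendsto_id.atTop_mul_const (sub_pos.2 h1)
    filter_upwards [eventually_ge_atTop 1, h2.eventually_gt_atTop
      (-(2 * (p - q) * x + (y - Y) ^ 2 - s))] with D hD h3
    refine iff_of_false ?_ ?_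
    · rintro (h4 | ⟨h4, -⟩)
      · exact absurd h4 (not_lt.2 h.le)
      · exact absurd h4 h.ne'
    · have h4 := hid D hD
      have h5 := hsm D hD
      have h6 : D * ((p - q) ^ 2 - r ^ 2) ≤ D ^ 2 * ((p - q) ^ 2 - r ^ 2) := by
        apply mul_le_mul_of_nonneg_right _ (sub_pos.2 h1).le
        nlinarith
      intro h7
      linarith

end NuAux

open NuAux

theorem almostUnit_of_micro {V : Type} [Finite V] (X : SimpleGraph V) (low : V → Prop)
    (hs : ∀ u v, u ≠ v → (low u ↔ low v) → X.Adj u v) (ε : ℝ) (hε : 0 < ε) :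
    ∃ δ₀ : ℝ, 0 < δ₀ ∧ ∀ p x y q r Y s : V → ℝ, (∀ b, |r b - 1 / 2| ≤ δ₀) →
    (∀ a b, low a → ¬ low b → (X.Adj a b ↔ (|p a - q b| < r b ∨
      (|p a - q b| = r b ∧ 2 * (p a - q b) * x a + (y a - Y b) ^ 2 < s b)))) →
    (∀ a b, low a → ¬ low b → |p a - q b| = r b →
      2 * (p a - q b) * x a + (y a - Y b) ^ 2 ≠ s b) →
    IsAlmostUnit (EuclideanSpace ℝ (Fin 2)) ε X := by
  classical
  cases nonempty_fintype V
  set δ₀ : ℝ := min ε 1 / 100 with hδ₀
  have hδp : 0 < δ₀ := by positivity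
  have hδ1 : δ₀ ≤ 1 / 100 := by
    rw [hδ₀]
    have := min_le_right ε 1
    linarith
  have hδε : δ₀ ≤ ε / 100 := by
    rw [hδ₀]
    have := min_le_left ε 1
    linarith
  refine ⟨δ₀, hδp, ?_⟩
  intro p x y q r Y s hr hadj hne
  have hr' : ∀ b, 0 < r b := by
    intro b
    have := (abs_le.1 (hr b)).1
    linarith
  have e1 : ∀ ab : V × V, ∀ᶠ D : ℝ in atTop, low ab.1 → ¬ low ab.2 → (X.Adj ab.1 ab.2 ↔
      (D * p ab.1 + x ab.1 / D - D * q ab.2) ^ 2 + (y ab.1 - Y ab.2) ^ 2 ≤
        (D * r ab.2) ^ 2 + s ab.2) := by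
    rintro ⟨a, b⟩
    by_cases ha : low a
    · by_cases hb : low b
      · filter_upwards with D _ h
        exact absurd hb h
      · filter_upwards [pair (x := x a) (y := y a) (Y := Y b) (s := s b) (p := p a) (q := q b)
          (hr' b) (hne a b ha hb)] with D hD _ _
        rw [hadj a b ha hb]
        exact hD
    · filter_upwards with D h
      exact absurd h ha
  have e2 : ∀ v : V, ∀ᶠ D : ℝ in atTop, 1 + |Y v| + |y v| + |s v| < D * (δ₀ / 4) := fun v =>
    (tendsto_id.atTop_mul_const (by positivity : 0 < δ₀ / 4)).eventually_gt_atTop _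
  obtain ⟨D, h1, h2, hD1⟩ := ((eventually_all.2 e1).and ((eventually_all.2 e2).and
    (eventually_ge_atTop 1))).exists
  refine of_ratio X low hs (fun v => if low v then D * p v + x v / D else D * q v)
    (fun v => if low v then y v else Y v) (fun v => Real.sqrt ((D * r v) ^ 2 + s v)) ?_ (D / 4)
    ((1 - 5 * δ₀) * (D / 4)) ((1 + 5 * δ₀) * (D / 4)) ε ?_ ?_ ?_ ?_
  · intro a b ha hb
    have h3 : 0 ≤ (D * r b) ^ 2 + s b := by
      have h4 := h2 b
      have h5 := (abs_le.1 (hr b)).1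
      have h6 := neg_abs_le (s b)
      have h7 := abs_nonneg (Y b)
      have h8 := abs_nonneg (y b)
      have h9 : 1 / 4 * D ≤ D * r b := by nlinarith
      have h10 : D * (δ₀ / 4) ≤ D / 400 := by nlinarith
      have h12 : 400 < D := by linarith [abs_nonneg (s b)]
      have h13 : (1 / 4 * D) ^ 2 ≤ (D * r b) ^ 2 := pow_le_pow_left₀ (by positivity) h9 2
      have h11 : 1 / 4 * D ≤ (D * r b) ^ 2 := by nlinarith
      linarith
    simp only [if_pos ha, if_neg hb, Real.sq_sqrt h3]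
    exact h1 (a, b) ha hb
  · have : 0 < 1 - 5 * δ₀ := by linarith
    positivity
  · have h3 : 1 + 5 * δ₀ ≤ (1 + ε) * (1 - 5 * δ₀) := by nlinarith
    calc (1 + 5 * δ₀) * (D / 4) ≤ ((1 + ε) * (1 - 5 * δ₀)) * (D / 4) :=
        mul_le_mul_of_nonneg_right h3 (by positivity)
      _ = (1 + ε) * ((1 - 5 * δ₀) * (D / 4)) := by ring
  · intro a ha
    simp only [if_pos ha]
    have h4 := h2 a
    have h6 := abs_le.1 (le_refl (|y a|))
    have h7 := abs_nonneg (Y a)
    have h8 := abs_nonneg (s a)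
    constructor <;> linarith [h6.1, h6.2]
  · intro b hb
    simp only [if_neg hb]
    have h4 := h2 b
    have h5 := abs_le.1 (hr b)
    have h6 := abs_le.1 (le_refl (|Y b|))
    have h7 := abs_nonneg (y b)
    have h8 := abs_le.1 (le_refl (|s b|))
    have h9 : D * (1 / 2 - δ₀) ≤ D * r b := by
      apply mul_le_mul_of_nonneg_left _ (by positivity)
      linarith [h5.1]
    have h9' : D * r b ≤ D * (1 / 2 + δ₀) := by
      apply mul_le_mul_of_nonneg_left _ (by positivity)
      linarith [h5.2]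
    have h10 : D * (δ₀ / 4) ≤ D / 400 := by nlinarith
    have h11 : Real.sqrt ((D * r b) ^ 2 + s b) ≤ D * r b + 1 := by
      rw [Real.sqrt_le_left (by nlinarith)]
      nlinarith
    have h12 : D * r b - 1 ≤ Real.sqrt ((D * r b) ^ 2 + s b) := by
      apply Real.le_sqrt_of_sq_le
      nlinarith
    constructor <;> nlinarith [h6.1, h6.2]

end Pool.Agent.J4.H24.DG
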