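import Pool.Agent.J4.H24.DG.Defs3

/-!
# The boost with control of the radii

`boost_control`: as `pierced_of_strip`, for any separating value `m`, with the additional
information that the radii divided by the parameter of the boost are close to `|t v + y v - m| / 2`.
`almostUnit_of_scale`: homothety.
-/

set_option autoImplicit false

namespace Pool.Agent.J4.H24.DG

open Filter Topology

/-- homothety -/
theorem almostUnit_of_scale {V : Type} (X : SimpleGraph V) {ε k : ℝ} (hk : 0 < k)
    (z : V → EuclideanSpace ℝ (Fin 2)) (r : V → ℝ) (p q : EuclideanSpace ℝ (Fin 2))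
    (h1 : ∀ v, k ≤ r v ∧ r v ≤ k * (1 + ε))
    (h2 : ∀ v, p ∈ Metric.closedBall (z v) (r v) ∨ q ∈ Metric.closedBall (z v) (r v))
    (h3 : ∀ u v : V, X.Adj u v ↔
      u ≠ v ∧ (Metric.closedBall (z u) (r u) ∩ Metric.closedBall (z v) (r v)).Nonempty) :
    IsAlmostUnit (EuclideanSpace ℝ (Fin 2)) ε X := by
  have key : ∀ (a b : EuclideanSpace ℝ (Fin 2)) (ρ : ℝ),
      k⁻¹ • a ∈ Metric.closedBall (k⁻¹ • b) (k⁻¹ * ρ) ↔ a ∈ Metric.closedBall b ρ := by
    intro a b ρ
    rw [Metric.mem_closedBall, Metric.mem_closedBall, dist_smul₀, Real.norm_of_nonneg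
      (inv_pos.2 hk).le]
    exact mul_le_mul_iff_right₀ (inv_pos.2 hk)
  refine ⟨fun v => k⁻¹ • z v, fun v => k⁻¹ * r v, k⁻¹ • p, k⁻¹ • q, fun v => ⟨?_, ?_⟩,
    fun v => ?_, fun u v => ?_⟩
  · have := mul_le_mul_of_nonneg_left (h1 v).1 (inv_pos.2 hk).le
    rwa [inv_mul_cancel₀ hk.ne'] at this
  · have := mul_le_mul_of_nonneg_left (h1 v).2 (inv_pos.2 hk).le
    rwa [← mul_assoc, inv_mul_cancel₀ hk.ne', one_mul] at this
  · rw [key, key]
    exact h2 v
  · rw [h3]
    refine and_congr Iff.rfl ⟨?_, ?_⟩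
    · rintro ⟨x, hx, hy⟩
      exact ⟨k⁻¹ • x, (key _ _ _).2 hx, (key _ _ _).2 hy⟩
    · rintro ⟨x, hx, hy⟩
      refine ⟨k • x, ?_, ?_⟩
      · rw [← key, smul_smul, inv_mul_cancel₀ hk.ne', one_smul]
        exact hx
      · rw [← key, smul_smul, inv_mul_cancel₀ hk.ne', one_smul]
        exact hy

open Disk in
/-- The boost with control of the radii. -/
theorem boost_control {V : Type} [Finite V] (X : SimpleGraph V) (low : V → Prop)
    (hs : ∀ u v, u ≠ v → (low u ↔ low v) → X.Adj u v) (x y r : V → ℝ)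
    (hc : ∀ a b, low a → ¬ low b → (X.Adj a b ↔ (x a - x b) ^ 2 + (y a - y b) ^ 2 ≤ r b ^ 2))
    (m : ℝ) (hm1 : ∀ a, low a → y a < m) (hm2 : ∀ b, ¬ low b → m < r b + y b) (η : ℝ)
    (hη : 0 < η) :
    ∃ (l : ℝ) (z : V → EuclideanSpace ℝ (Fin 2)) (ρ : V → ℝ) (p q : EuclideanSpace ℝ (Fin 2)),
      0 < l ∧ (∀ v, 0 < ρ v) ∧
      (∀ v, p ∈ Metric.closedBall (z v) (ρ v) ∨ q ∈ Metric.closedBall (z v) (ρ v)) ∧
      (∀ u v : V, X.Adj u v ↔
        u ≠ v ∧ (Metric.closedBall (z u) (ρ u) ∩ Metric.closedBall (z v) (ρ v)).Nonempty) ∧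
      (∀ a, low a → |ρ a - l * ((m - y a) / 2)| ≤ l * η) ∧
      (∀ b, ¬ low b → |ρ b - l * ((r b + y b - m) / 2)| ≤ l * η) := by
  classical
  cases nonempty_fintype V
  set t : V → ℝ := fun v => if low v then 0 else r v with ht
  set σ : V → ℝ := fun v => if low v then -1 else 1 with hσ
  set U : V → ℝ := fun v => t v - y v with hU
  set W : V → ℝ := fun v => t v + y v - m with hW
  have hσ2 : ∀ v, σ v ^ 2 = 1 := by
    intro v
    simp only [hσ]
    split_ifs <;> norm_num
  have hpos : ∀ v, 0 < σ v * W v := by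
    intro v
    by_cases h : low v
    · have h1 := hm1 v h
      simp only [hσ, hW, ht, if_pos h]
      linarith
    · have h1 := hm2 v h
      simp only [hσ, hW, ht, if_neg h]
      linarith
  have hR : ∀ v, ∀ᶠ l : ℝ in atTop, 0 < Ra (σ v) (U v) (W v) l := by
    intro v
    have h1 := (tend (hpos v) (σ v * U v)).eventually_gt_atTop 0
    filter_upwards [h1] with l h2
    unfold Ra
    have h3 : σ v * (U v / l + l * W v) = l * (σ v * W v) + σ v * U v / l := by ring
    rw [h3]
    linarith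
  have hS : ∀ p : V × V, ∀ᶠ l : ℝ in atTop, (low p.1 ↔ low p.2) → (x p.1 - x p.2) ^ 2 ≤
      (Ra (σ p.1) (U p.1) (W p.1) l + Ra (σ p.2) (U p.2) (W p.2) l) ^ 2 -
        (Sa (U p.1) (W p.1) l - Sa (U p.2) (W p.2) l) ^ 2 := by
    intro p
    by_cases h : low p.1 ↔ low p.2
    · have h1 : σ p.1 = σ p.2 := by
        simp only [hσ]
        by_cases h2 : low p.1
        · rw [if_pos h2, if_pos (h.1 h2)]
        · rw [if_neg h2, if_neg (fun h3 => h2 (h.2 h3))]
      have h2 := ((tend (hpos p.1) (σ p.1 * U p.2)).atTop_mul_atTop₀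
        (tend (hpos p.2) (σ p.1 * U p.1))).eventually_ge_atTop ((x p.1 - x p.2) ^ 2)
      filter_upwards [h2] with l h3 _
      rw [← h1, same _ _ _ _ _ _ (hσ2 p.1)]
      rw [← h1] at h3
      exact h3
    · filter_upwards with l h3
      exact absurd h3 h
  have hT : ∀ v, ∀ᶠ l : ℝ in atTop, x v ^ 2 + (σ v - Sa (U v) (W v) l) ^ 2 ≤
      Ra (σ v) (U v) (W v) l ^ 2 := by
    intro v
    have h1 : ∀ᶠ l : ℝ in atTop, 2 * x v ^ 2 + 1 ≤ l * (σ v * W v) :=
      (tendsto_id.atTop_mul_const (hpos v)).eventually_ge_atTop _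
    have h2 : ∀ᶠ l : ℝ in atTop, -(1 / 2) ≤ σ v * U v / l := by
      have h3 : Tendsto (fun l : ℝ => σ v * U v / l) atTop (𝓝 0) :=
        tendsto_const_nhds.div_atTop tendsto_id
      exact h3.eventually_const_le (by norm_num)
    filter_upwards [h1, h2, eventually_gt_atTop 0] with l h3 h4 h5
    have h6 := pierce (σ v) (U v) (W v) l (hσ2 v) h5.ne'
    nlinarith [sq_nonneg (x v)]
  -- the radii
  have hE : ∀ v, ∀ᶠ l : ℝ in atTop, |Ra (σ v) (U v) (W v) l - l * (σ v * W v / 2)| ≤ l * η := by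
    intro v
    have h1 : ∀ᶠ l : ℝ in atTop, |σ v * U v| / 2 / η + 1 ≤ l := eventually_ge_atTop _
    filter_upwards [h1, eventually_ge_atTop 1] with l h2 h3
    have h0 : (0 : ℝ) < l := by linarith
    have h4 : Ra (σ v) (U v) (W v) l - l * (σ v * W v / 2) = σ v * U v / 2 / l := by
      unfold Ra
      ring
    rw [h4, abs_div, abs_of_pos h0, div_le_iff₀ h0, abs_div, abs_two]
    have h5 : |σ v * U v| / 2 ≤ l * η := by
      have h6 : |σ v * U v| / 2 / η ≤ l := by linarith
      rwa [div_le_iff₀ hη] at h6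
    have h7 : 0 < l * η := mul_pos h0 hη
    nlinarith
  obtain ⟨l, h1, h2, h0, hE', hl⟩ := ((eventually_all.2 hR).and ((eventually_all.2 hS).and
    ((eventually_all.2 hT).and ((eventually_all.2 hE).and (eventually_gt_atTop 0))))).exists
  refine ⟨l, fun v => !₂[x v, Sa (U v) (W v) l], fun v => Ra (σ v) (U v) (W v) l,
    !₂[0, -1], !₂[0, 1], hl, h1, fun v => ?_, fun a b => ?_, fun a ha => ?_, fun b hb => ?_⟩
  · rw [Metric.mem_closedBall, Metric.mem_closedBall, dist_le_iff (h1 v).le,
      dist_le_iff (h1 v).le]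
    have h3 := h0 v
    by_cases hv : low v
    · left
      have h4 : σ v = -1 := by simp only [hσ, if_pos hv]
      rw [h4] at h3 ⊢
      linarith
    · right
      have h4 : σ v = 1 := by simp only [hσ, if_neg hv]
      rw [h4] at h3 ⊢
      linarith
  · rw [meet_iff (h1 a) (h1 b), dist_le_iff (add_pos (h1 a) (h1 b)).le]
    -- the mixed case
    have key : ∀ a b, low a → ¬ low b → (X.Adj a b ↔ (x a - x b) ^ 2 +
        (Sa (U a) (W a) l - Sa (U b) (W b) l) ^ 2 ≤
        (Ra (σ a) (U a) (W a) l + Ra (σ b) (U b) (W b) l) ^ 2) := by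
      intro a b ha hb
      rw [hc a b ha hb]
      have h3 := cross (u := U a) (v := W a) (u' := U b) (v' := W b) hl
      have h4 : σ a = -1 := by simp only [hσ, if_pos ha]
      have h5 : σ b = 1 := by simp only [hσ, if_neg hb]
      have h6 : (U b - U a) * (W b - W a) = r b ^ 2 - (y a - y b) ^ 2 := by
        simp only [hU, hW, ht, if_pos ha, if_neg hb]
        ring
      rw [h4, h5]
      constructor <;> intro h <;> linarith
    by_cases h : low a ↔ low b
    · constructor
      · intro hab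
        refine ⟨hab.ne, ?_⟩
        have := h2 (a, b) h
        dsimp only at this
        linarith
      · rintro ⟨hne, _⟩
        exact hs a b hne h
    · by_cases ha : low a
      · have hb : ¬ low b := fun hb => h ⟨fun _ => hb, fun _ => ha⟩
        rw [key a b ha hb]
        constructor
        · intro h3
          exact ⟨fun h4 => hb (h4 ▸ ha), h3⟩
        · exact fun h3 => h3.2
      · have hb : low b := by
          by_contra hb
          exact h ⟨fun h3 => absurd h3 ha, fun h3 => absurd h3 hb⟩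
        rw [X.adj_comm, key b a hb ha]
        constructor
        · intro h3
          refine ⟨fun h4 => ha (h4 ▸ hb), ?_⟩
          linarith
        · intro h3
          linarith [h3.2]
  · have h3 := hE' a
    have h4 : σ a * W a = m - y a := by
      simp only [hσ, hW, ht, if_pos ha]
      ring
    rwa [h4] at h3
  · have h3 := hE' b
    have h4 : σ b * W b = r b + y b - m := by
      simp only [hσ, hW, ht, if_neg hb]
      ring
    rwa [h4] at h3

end Pool.Agent.J4.H24.DG
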