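import Pool.Agent.J4.H24.DG.Disk

/-!
# Disks pierced by two points

The proof of `disk_of_strip` (helper56) with the additional information that all disks of one side
have a common point.
-/

set_option autoImplicit false

namespace Pool.Agent.J4.H24.DG

open Filter Topology

/-- `X` is the intersection graph of a family of closed balls of positive radii of the metric space
`E`, each of which contains one of two given points. -/
def IsPiercedBallGraph (E : Type) [PseudoMetricSpace E] {V : Type} (X : SimpleGraph V) : Prop :=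
  ∃ (z : V → E) (r : V → ℝ) (p q : E), (∀ v, 0 < r v) ∧
    (∀ v, p ∈ Metric.closedBall (z v) (r v) ∨ q ∈ Metric.closedBall (z v) (r v)) ∧
    ∀ u v : V, X.Adj u v ↔
      u ≠ v ∧ (Metric.closedBall (z u) (r u) ∩ Metric.closedBall (z v) (r v)).Nonempty

theorem IsPiercedBallGraph.isBallGraph {E : Type} [PseudoMetricSpace E] {V : Type}
    {X : SimpleGraph V} (h : IsPiercedBallGraph E X) : IsBallGraph E X := by
  obtain ⟨z, r, p, q, h1, -, h2⟩ := h
  exact ⟨z, r, h1, h2⟩

/-- The vertex set is the union of two cliques. -/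
theorem IsPiercedBallGraph.coBipartite {E : Type} [PseudoMetricSpace E] {V : Type}
    {X : SimpleGraph V} (h : IsPiercedBallGraph E X) : Pool.Agent.J4.H79.GI.CoBipartite X := by
  obtain ⟨z, r, p, q, h1, h3, h2⟩ := h
  refine ⟨{v | p ∈ Metric.closedBall (z v) (r v)}, fun u v hne h => ?_⟩
  rw [h2]
  refine ⟨hne, ?_⟩
  by_cases hu : p ∈ Metric.closedBall (z u) (r u)
  · exact ⟨p, hu, h.1 hu⟩
  · exact ⟨q, (h3 u).resolve_left hu, (h3 v).resolve_left fun hv => hu (h.2 hv)⟩

theorem IsPiercedBallGraph.of_iso {E : Type} [PseudoMetricSpace E] {V V' : Type}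
    {X : SimpleGraph V} {X' : SimpleGraph V'} (φ : X' ≃g X) (h : IsPiercedBallGraph E X) :
    IsPiercedBallGraph E X' := by
  obtain ⟨z, r, p, q, hr, hp, hz⟩ := h
  refine ⟨fun v => z (φ v), fun v => r (φ v), p, q, fun v => hr _, fun v => hp _, fun u v => ?_⟩
  rw [← φ.map_adj_iff, hz]
  exact and_congr (not_congr φ.injective.eq_iff) Iff.rfl

namespace Disk

lemma pierce (σ u v l : ℝ) (hσ : σ ^ 2 = 1) (hl : l ≠ 0) :
    Ra σ u v l ^ 2 - (σ - Sa u v l) ^ 2 = (1 + σ * u / l) * (l * (σ * v) - 1) := by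
  unfold Ra Sa
  have e : (σ * (u / l + l * v) / 2) ^ 2 = σ ^ 2 * ((u / l + l * v) / 2) ^ 2 := by ring
  have e2 : (σ - (l * v - u / l) / 2) ^ 2 =
      σ ^ 2 - σ * (l * v - u / l) + ((l * v - u / l) / 2) ^ 2 := by ring
  have e3 : (1 + σ * u / l) * (l * (σ * v) - 1) =
      σ * (l * v) - 1 + σ ^ 2 * (u * v) - σ * (u / l) := by
    field_simp
    ring
  rw [e, e2, e3, hσ]
  field_simp
  ring

end Disk

open Disk in
theorem pierced_of_strip {V : Type} [Finite V] (X : SimpleGraph V) (low : V → Prop)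
    (hs : ∀ u v, u ≠ v → (low u ↔ low v) → X.Adj u v) (x y r : V → ℝ)
    (hc : ∀ a b, low a → ¬ low b → (X.Adj a b ↔ (x a - x b) ^ 2 + (y a - y b) ^ 2 ≤ r b ^ 2))
    (hf : ∀ a b, low a → ¬ low b → y a - y b < r b) :
    IsPiercedBallGraph (EuclideanSpace ℝ (Fin 2)) X := by
  classical
  cases nonempty_fintype V
  set t : V → ℝ := fun v => if low v then 0 else r v with ht
  set σ : V → ℝ := fun v => if low v then -1 else 1 with hσ
  obtain ⟨m, hm1, hm2⟩ := Order.exists_between_finsets
    ((Finset.univ.filter low).image fun v => t v + y v)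
    ((Finset.univ.filter fun v => ¬ low v).image fun v => t v + y v) (by
      intro a ha b hb
      rw [Finset.mem_image] at ha hb
      obtain ⟨a, ha, rfl⟩ := ha
      obtain ⟨b, hb, rfl⟩ := hb
      rw [Finset.mem_filter] at ha hb
      have h1 := hf a b ha.2 hb.2
      simp only [ht, if_pos ha.2, if_neg hb.2]
      linarith)
  set U : V → ℝ := fun v => t v - y v with hU
  set W : V → ℝ := fun v => t v + y v - m with hW
  have hσ2 : ∀ v, σ v ^ 2 = 1 := by
    intro v
    simp only [hσ]
    split_ifs <;> norm_num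
  have hpos : ∀ v, 0 < σ v * W v := by
    intro v
    by_cases h : low v
    · have h1 := hm1 (t v + y v) (Finset.mem_image.2 ⟨v, by simp [h], rfl⟩)
      simp only [hσ, hW, if_pos h]
      linarith
    · have h1 := hm2 (t v + y v) (Finset.mem_image.2 ⟨v, by simp [h], rfl⟩)
      simp only [hσ, hW, if_neg h]
      linarith
  have hR : ∀ v, ∀ᶠ l : ℝ in atTop, 0 < Ra (σ v) (U v) (W v) l := by
    intro v
    have h1 := (tend (hpos v) (σ v * U v)).eventually_gt_atTop 0
    filter_upwards [h1] with l h2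
    unfold Ra
    have h3 : σ v * (U v / l + l * W v) = l * (σ v * W v) + σ v * U v / l := by ring
    rw [h3]
    linarith
  have hS : ∀ p : V × V, ∀ᶠ l : ℝ in atTop, (low p.1 ↔ low p.2) → (x p.1 - x p.2) ^ 2 ≤
      (Ra (σ p.1) (U p.1) (W p.1) l + Ra (σ p.2) (U p.2) (W p.2) l) ^ 2 -
        (Sa (U p.1) (W p.1) l - Sa (U p.2) (W p.2) l) ^ 2 := by
    intro p
    by_cases h : low p.1 ↔ low p.2
    · have h1 : σ p.1 = σ p.2 := by
        simp only [hσ]
        by_cases h2 : low p.1
        · rw [if_pos h2, if_pos (h.1 h2)]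
        · rw [if_neg h2, if_neg (fun h3 => h2 (h.2 h3))]
      have h2 := ((tend (hpos p.1) (σ p.1 * U p.2)).atTop_mul_atTop₀
        (tend (hpos p.2) (σ p.1 * U p.1))).eventually_ge_atTop ((x p.1 - x p.2) ^ 2)
      filter_upwards [h2] with l h3 _
      rw [← h1, same _ _ _ _ _ _ (hσ2 p.1)]
      rw [← h1] at h3
      exact h3
    · filter_upwards with l h3
      exact absurd h3 h
  have hT : ∀ v, ∀ᶠ l : ℝ in atTop, x v ^ 2 + (σ v - Sa (U v) (W v) l) ^ 2 ≤
      Ra (σ v) (U v) (W v) l ^ 2 := by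
    intro v
    have h1 : ∀ᶠ l : ℝ in atTop, 2 * x v ^ 2 + 1 ≤ l * (σ v * W v) :=
      (tendsto_id.atTop_mul_const (hpos v)).eventually_ge_atTop _
    have h2 : ∀ᶠ l : ℝ in atTop, -(1 / 2) ≤ σ v * U v / l := by
      have h3 : Tendsto (fun l : ℝ => σ v * U v / l) atTop (𝓝 0) :=
        tendsto_const_nhds.div_atTop tendsto_id
      exact h3.eventually_const_le (by norm_num)
    filter_upwards [h1, h2, eventually_gt_atTop 0] with l h3 h4 h5
    have h6 := pierce (σ v) (U v) (W v) l (hσ2 v) h5.ne'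
    nlinarith [sq_nonneg (x v)]
  obtain ⟨l, h1, h2, h0, hl⟩ := ((eventually_all.2 hR).and ((eventually_all.2 hS).and
    ((eventually_all.2 hT).and (eventually_gt_atTop 0)))).exists
  refine ⟨fun v => !₂[x v, Sa (U v) (W v) l], fun v => Ra (σ v) (U v) (W v) l,
    !₂[0, -1], !₂[0, 1], h1, fun v => ?_, fun a b => ?_⟩
  · rw [Metric.mem_closedBall, Metric.mem_closedBall, dist_le_iff (h1 v).le,
      dist_le_iff (h1 v).le]
    have h3 := h0 v
    by_cases hv : low v
    · left
      have h4 : σ v = -1 := by simp only [hσ, if_pos hv]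
      rw [h4] at h3 ⊢
      linarith
    · right
      have h4 : σ v = 1 := by simp only [hσ, if_neg hv]
      rw [h4] at h3 ⊢
      linarith
  rw [meet_iff (h1 a) (h1 b), dist_le_iff (add_pos (h1 a) (h1 b)).le]
  -- the mixed case
  have key : ∀ a b, low a → ¬ low b → (X.Adj a b ↔ (x a - x b) ^ 2 +
      (Sa (U a) (W a) l - Sa (U b) (W b) l) ^ 2 ≤
      (Ra (σ a) (U a) (W a) l + Ra (σ b) (U b) (W b) l) ^ 2) := by
    intro a b ha hb
    rw [hc a b ha hb]
    have h3 := cross (u := U a) (v := W a) (u' := U b) (v' := W b) hl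
    have h4 : σ a = -1 := by simp only [hσ, if_pos ha]
    have h5 : σ b = 1 := by simp only [hσ, if_neg hb]
    have h6 : (U b - U a) * (W b - W a) = r b ^ 2 - (y a - y b) ^ 2 := by
      simp only [hU, hW, ht, if_pos ha, if_neg hb]
      ring
    rw [h4, h5]
    constructor <;> intro h <;> linarith
  by_cases h : low a ↔ low b
  · constructor
    · intro hab
      refine ⟨hab.ne, ?_⟩
      have := h2 (a, b) h
      dsimp only at this
      linarith
    · rintro ⟨hne, _⟩
      exact hs a b hne h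
  · by_cases ha : low a
    · have hb : ¬ low b := fun hb => h ⟨fun _ => hb, fun _ => ha⟩
      rw [key a b ha hb]
      constructor
      · intro h3
        exact ⟨fun h4 => hb (h4 ▸ ha), h3⟩
      · exact fun h3 => h3.2
    · have hb : low b := by
        by_contra hb
        exact h ⟨fun h3 => absurd h3 ha, fun h3 => absurd h3 hb⟩
      rw [X.adj_comm, key b a hb ha]
      constructor
      · intro h3
        refine ⟨fun h4 => ha (h4 ▸ hb), ?_⟩
        linarith
      · intro h3
        linarith [h3.2]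

end Pool.Agent.J4.H24.DG
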