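import Pool.Agent.J4.H24.DG.Geo0

/-!
# The disks of the elements of `U`, and the position of the points below the disks
-/

set_option autoImplicit false

namespace Pool.Agent.J4.H24.DG

open Pool.Agent.NPC Pool.Agent.NPC.R671 Pool.Agent.W125.Dim Pool.Agent.Y815.GI
  Pool.Agent.J4.H79.GI Pool.Agent.W125.Dim.Vtx

variable {U W : Type} {A : U → W → Prop} {R : ℕ} (N : Num U W R)

namespace UuAux

theorem inside_u_iff (a : Vtx A R) (x : U) : Inside N a (u x) ↔
    (sx N a + Lh N ^ 2) ^ 2 + (sy N a - ((au N x : ℝ) + ((N.BW : ℝ) - 1) / 2)) ^ 2 ≤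
      (Lh N ^ 2) ^ 2 + (N.BW : ℝ) ^ 2 / 4 := by
  have h : sx N (u x : Vtx A R) = -Lh N ^ 2 := rfl
  show (sx N a - sx N (u x : Vtx A R)) ^ 2 +
    (sy N a - ((au N x : ℝ) + ((N.BW : ℝ) - 1) / 2)) ^ 2 ≤ _ ↔ _
  rw [h, sub_neg_eq_add]
  exact Iff.rfl

theorem s_le (hR : 2 ≤ R) : (N.BW : ℝ) ^ 2 / 4 ≤ Lh N ^ 2 / 16 := by
  have h1 := BW1 N
  have h2 := BW_le N hR
  nlinarith

/-- far outside, to the right -/
theorem out_right (hR : 2 ≤ R) {X y : ℝ} (hX : 1 / 2 ≤ X) :
    ¬ ((X + Lh N ^ 2) ^ 2 + y ^ 2 ≤ (Lh N ^ 2) ^ 2 + (N.BW : ℝ) ^ 2 / 4) := by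
  have h1 := s_le N hR
  have h2 := Lh_ge N hR
  refine out_of (δ := 1 / 2) (by positivity) (by norm_num) ?_ ?_
  · exact le_trans (by linarith) (le_abs_self _)
  · nlinarith

/-- far outside, to the left -/
theorem out_left (hR : 2 ≤ R) {X y : ℝ} (hX : X ≤ -wd N + 1) :
    ¬ ((X + Lh N ^ 2) ^ 2 + y ^ 2 ≤ (Lh N ^ 2) ^ 2 + (N.BW : ℝ) ^ 2 / 4) := by
  have h1 := s_le N hR
  have h2 := Lh_ge N hR
  have h3 : 64 ≤ Lh N ^ 2 := by nlinarith
  rw [wd_eq] at hX
  refine out_of (δ := 6 * Lh N ^ 2 - 1) (by positivity) (by linarith) ?_ ?_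
  · refine le_trans ?_ (neg_le_abs _)
    linarith
  · nlinarith

end UuAux

open UuAux

theorem inside_u (hR : 2 ≤ R) (a : Vtx A R) (ha : Low a) (x : U) :
    Inside N a (u x) ↔ Rel2 a (u x) := by
  have hw := wd_ge N hR
  have hL := Lh_ge N hR
  rw [inside_u_iff]
  rcases low_cases ha with ⟨y, rfl⟩ | ⟨g, hg, e, rfl⟩ | ⟨g, hg, e, rfl⟩ | ⟨g, hg, e, rfl⟩
  · show _ ↔ False
    refine iff_false_intro (out_right N hR ?_)
    show 1 / 2 ≤ (R : ℝ) * wd N + (N.BU : ℝ) ^ 2 / (8 * Lh N ^ 2)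
    have h1 : (2 : ℝ) ≤ R := by exact_mod_cast hR
    have h2 : 0 ≤ (N.BU : ℝ) ^ 2 / (8 * Lh N ^ 2) := by positivity
    nlinarith
  · show _ ↔ (6 * g = 0 ∧ e.1.1 = x)
    rw [sx_0, sy_0]
    rcases Nat.eq_zero_or_pos g with rfl | hg0
    · rw [eq_of (by push_cast; ring), hP_first]
      have hB := BW1 N
      have hn := N.nw_lt e.1.2
      have hio : io N e = au N e.1.1 + N.nw e.1.2 := rfl
      constructor
      · intro h
        refine ⟨by omega, ?_⟩
        by_contra hne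
        have hne' : N.nu e.1.1 ≠ N.nu x := fun h' => hne (N.nu_inj h')
        rcases lt_or_gt_of_ne hne' with h1 | h1
        · have h2 := au_lt N h1
          have h3 : (io N e : ℝ) + 1 ≤ au N x := by
            have : io N e + 1 ≤ au N x := by omega
            exact_mod_cast this
          nlinarith
        · have h2 := au_lt N h1
          have h3 : (au N x : ℝ) + N.BW ≤ io N e := by
            have : au N x + N.BW ≤ io N e := by omega
            exact_mod_cast this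
          nlinarith
      · rintro ⟨-, rfl⟩
        have h1 : (io N e : ℝ) = au N e.1.1 + N.nw e.1.2 := by
          rw [hio]
          push_cast
          ring
        have h2 : (N.nw e.1.2 : ℝ) + 1 ≤ N.BW := by exact_mod_cast hn
        have h3 : (0 : ℝ) ≤ N.nw e.1.2 := Nat.cast_nonneg _
        rw [h1]
        nlinarith
    · refine iff_of_false (out_right N hR ?_) (by rintro ⟨h, -⟩; omega)
      have := mul_lt_wd N hR hg0
      simp only [Nat.cast_zero, zero_mul, zero_add] at this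
      linarith
  · show _ ↔ (6 * g + 2 = 0 ∧ e.1.1 = x)
    have h2 := sx_2' N g e hR (by omega : 6 * g + 2 < 6 * R + 2)
    have he := et_le N hR
    refine iff_of_false ?_ (by rintro ⟨h, -⟩; omega)
    rcases Nat.eq_zero_or_pos g with rfl | hg0
    · refine out_left N hR ?_
      have := h2.2
      simp only [Nat.cast_zero, zero_sub, neg_mul, one_mul] at this
      exact this
    · refine out_right N hR ?_
      have h3 := mul_lt_wd N hR hg0
      simp only [Nat.cast_zero, zero_mul, zero_add] at h3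
      have h4 : ((g : ℝ) - 1) * wd N = g * wd N - wd N := by ring
      have := h2.1
      rw [h4] at this
      linarith
  · show _ ↔ (6 * g + 4 = 0 ∧ e.1.1 = x)
    rw [sx_4]
    refine iff_of_false ?_ (by rintro ⟨h, -⟩; omega)
    rcases Nat.eq_zero_or_pos g with rfl | hg0
    · refine out_left N hR ?_
      simp only [Nat.cast_zero, zero_sub, neg_mul, one_mul]
      exact le_rfl
    · refine out_right N hR ?_
      have h3 := mul_lt_wd N hR hg0
      simp only [Nat.cast_zero, zero_mul, zero_add] at h3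
      have h4 : ((g : ℝ) - 1) * wd N = g * wd N - wd N := by ring
      rw [h4]
      linarith

theorem facing (hR : 2 ≤ R) (a b : Vtx A R) (hb : ¬ Low b) :
    0 < ss N b ∧ sy N a - sy N b < Real.sqrt (ss N b) := by
  have hw := wd_ge N hR
  have hL := Lh_ge N hR
  have hcb := cb_ge N hR
  have hcc := cc_ge N hR
  have hL2 : 64 ≤ Lh N ^ 2 := by nlinarith
  have hwd : wd N = 8 * Lh N ^ 2 := wd_eq N
  have key : Lh N ^ 2 < ss N b := by
    rcases up_cases hb with ⟨x, rfl⟩ | ⟨e, rfl⟩ | ⟨g, hg, e, rfl⟩ | ⟨g, hg, e, rfl⟩ | ⟨g, hg, e, rfl⟩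
    · show Lh N ^ 2 < (Lh N ^ 2) ^ 2 + (N.BW : ℝ) ^ 2 / 4
      nlinarith [sq_nonneg (N.BW : ℝ)]
    · rw [ss_last]
      nlinarith
    · rw [ss_1 _ _ _ _ (by omega), hwd]
      nlinarith
    · by_cases hm : ta N e = g
      · rw [ss_3m _ _ _ _ hm]
        have h1 : Lh N ^ 2 ≤ cc N := by linarith
        nlinarith
      · rw [ss_3 _ _ _ _ hm]
        have h1 : Lh N ^ 2 ≤ cb N := by linarith
        nlinarith
    · rw [ss_5, hwd]
      nlinarith
  refine ⟨by linarith, ?_⟩
  have h1 := sy_abs N hR a b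
  have h2 : sy N a - sy N b ≤ Lh N := le_trans (le_abs_self _) h1
  refine lt_of_le_of_lt h2 ?_
  exact (Real.lt_sqrt (by linarith)).2 key

end Pool.Agent.J4.H24.DG
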