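import Pool.Agent.J4.H24.DG.B1
import Pool.Agent.J4.H24.DG.Last
import Pool.Agent.J4.H24.DG.B3
import Pool.Agent.J4.H24.DG.B5
import Pool.Agent.J4.H24.DG.Uu
import Pool.Agent.J4.H24.DG.Pierce

/-!
# The graph of the construction is a disk graph
-/

set_option autoImplicit false

namespace Pool.Agent.J4.H24.DG

open Pool.Agent.NPC Pool.Agent.NPC.R671 Pool.Agent.W125.Dim Pool.Agent.Y815.GI
  Pool.Agent.J4.H79.GI Pool.Agent.W125.Dim.Vtx

variable {U W : Type} {A : U → W → Prop} {R : ℕ} (N : Num U W R)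

/-- incidence of points and disks is the order of the construction -/
theorem inside_iff (hR : 2 ≤ R) (a b : Vtx A R) (ha : Low a) (hb : ¬ Low b) :
    Inside N a b ↔ Rel2 a b := by
  rcases up_cases hb with ⟨x, rfl⟩ | ⟨e, rfl⟩ | ⟨g, hg, e, rfl⟩ | ⟨g, hg, e, rfl⟩ |
    ⟨g, hg, e, rfl⟩
  · exact inside_u N hR a ha x
  · exact inside_last N hR a ha e
  · exact inside_b1 N hR a ha g hg e
  · exact inside_b3 N hR a ha g hg e
  · exact inside_b5 N hR a ha g hg e

/-- adjacency between the two cliques -/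
theorem BG2_cross (a b : Vtx A R) (ha : Low a) (hb : ¬ Low b) :
    (BG2 A R).Adj a b ↔ Rel2 a b := by
  constructor
  · rintro ⟨-, h | h | h⟩
    · exact absurd (h.1 ha) hb
    · exact h
    · exact absurd (Rel2_low h).1 hb
  · intro h
    refine ⟨?_, Or.inr (Or.inl h)⟩
    rintro rfl
    exact hb ha

/-- **The graph of the construction is an intersection graph of disks pierced by two points.** -/
theorem BG2_disk [Finite U] [Finite W] (hR : 2 ≤ R) (N : Num U W R) :
    IsPiercedBallGraph (EuclideanSpace ℝ (Fin 2)) (BG2 A R) := by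
  refine pierced_of_strip (BG2 A R) Low (fun u v hne h => ⟨hne, Or.inl h⟩) (sx N) (sy N)
    (fun b => Real.sqrt (ss N b)) ?_ ?_
  · intro a b ha hb
    rw [BG2_cross a b ha hb, ← inside_iff N hR a b ha hb,
      Real.sq_sqrt (facing N hR a b hb).1.le]
    exact Iff.rfl
  · intro a b _ hb
    exact (facing N hR a b hb).2

end Pool.Agent.J4.H24.DG
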