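import Pool.Agent.J4.H24.DG.C1
import Pool.Agent.J4.H24.DG.C2
import Pool.Agent.J4.H24.DG.C3
import Pool.Agent.J4.H24.DG.C5
import Pool.Agent.J4.H24.DG.Cu
import Pool.Agent.J4.H24.DG.Nu

/-!
# The graph of the second construction is an almost unit disk graph
-/

set_option autoImplicit false

namespace Pool.Agent.J4.H24.DG

open Pool.Agent.NPC Pool.Agent.NPC.R671 Pool.Agent.W125.Dim Pool.Agent.Y815.GI
  Pool.Agent.J4.H79.GI Pool.Agent.W125.Dim.Vtx

variable {U W : Type} {A : U → W → Prop} {R : ℕ} (N : Num U W R)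

/-- incidence of points and disks is the order of the construction -/
theorem ins_iff (hR : 2 ≤ R) {δ : ℝ} (hδ : 0 < δ) (hδ' : (R + 1) * δ < 1 / 2) (a b : Vtx A R)
    (ha : Low a) (hb : ¬ Low b) : (Ins N δ a b ↔ Rel3 a b) ∧ NonDeg N δ a b := by
  rcases up_cases hb with ⟨x, rfl⟩ | ⟨e, rfl⟩ | ⟨g, hg, e, rfl⟩ | ⟨g, hg, e, rfl⟩ |
    ⟨g, hg, e, rfl⟩
  · exact ins_u N hR hδ hδ' a ha x
  · exact ins_last N hR hδ hδ' a ha e
  · exact ins_b1 N hR hδ hδ' a ha g hg e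
  · exact ins_b3 N hR hδ hδ' a ha g hg e
  · exact ins_b5 N hR hδ hδ' a ha g hg e

/-- adjacency between the two cliques -/
theorem BG3_cross (a b : Vtx A R) (ha : Low a) (hb : ¬ Low b) :
    (BG3 A R).Adj a b ↔ Rel3 a b := by
  constructor
  · rintro ⟨-, h | h | h⟩
    · exact absurd (h.1 ha) hb
    · exact h
    · exact absurd (Rel3_low h).1 hb
  · intro h
    refine ⟨?_, Or.inr (Or.inl h)⟩
    rintro rfl
    exact hb ha

/-- **The graph of the construction is an almost unit disk graph.** -/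
theorem BG3_almostUnit [Finite U] [Finite W] (hR : 2 ≤ R) (N : Num U W R) {ε : ℝ} (hε : 0 < ε) :
    IsAlmostUnit (EuclideanSpace ℝ (Fin 2)) ε (BG3 A R) := by
  obtain ⟨δ₀, hδ₀, key⟩ := almostUnit_of_micro (BG3 A R) Low
    (fun u v hne h => ⟨hne, Or.inl h⟩) ε hε
  have hR' : (0 : ℝ) < R + 1 := by positivity
  obtain ⟨δ, hδ, h1, h2⟩ : ∃ δ : ℝ, 0 < δ ∧ ((R : ℝ) + 1) * δ < 1 / 2 ∧
      ((R : ℝ) + 1) * δ ≤ δ₀ := by
    refine ⟨min (1 / 4) δ₀ / (R + 1), div_pos (lt_min (by norm_num) hδ₀) hR', ?_, ?_⟩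
    · rw [mul_div_cancel₀ _ hR'.ne']
      exact lt_of_le_of_lt (min_le_left _ _) (by norm_num)
    · rw [mul_div_cancel₀ _ hR'.ne']
      exact min_le_right _ _
  refine key (ap δ) (ax N δ) (sy N) (bq N δ) (br N δ) (fun b => bm N δ b * sy N b)
    (fun b => bo N δ b + bm N δ b * (bm N δ b - 1) * sy N b ^ 2) ?_ ?_ ?_
  · intro b
    exact (br_close N hδ h1 b).trans h2
  · intro a b ha hb
    rw [BG3_cross a b ha hb, ← (ins_iff N hR hδ h1 a b ha hb).1]
    exact Iff.rfl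
  · intro a b ha hb
    exact (ins_iff N hR hδ h1 a b ha hb).2

end Pool.Agent.J4.H24.DG
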